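import Pool.Agent.W5h26.CL.Equi

/-!
# Moments of sums of local functions over boxes
-/

set_option autoImplicit false
set_option linter.unusedSectionVars false
set_option maxHeartbeats 400000

open Filter Topology Finset
open NumberField IsDedekindDomain Pool.Agent.H921R2.TatePole

namespace Pool.Agent.W5h26.CL

open Pool.Agent.W5h26.EP Pool.Agent.W5h26.AO

/-- real means -/
noncomputable def rmean {A : Type} (F : Finset A) (f : A → ℝ) : ℝ := (∑ x ∈ F, f x) / (F.card : ℝ)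

theorem mean_real {A : Type} [AddCommGroup A] (F : Finset A) (f : A → ℝ) :
    mean F (fun x => (f x : ℂ)) = (rmean F f : ℂ) := by
  unfold mean rmean
  push_cast
  rfl

theorem rmean_mono {A : Type} {F : Finset A} {f g : A → ℝ} (h : ∀ x ∈ F, f x ≤ g x) :
    rmean F f ≤ rmean F g := by
  unfold rmean
  exact div_le_div_of_nonneg_right (Finset.sum_le_sum h) (Nat.cast_nonneg _)

theorem rmean_nonneg {A : Type} {F : Finset A} {f : A → ℝ} (h : ∀ x ∈ F, 0 ≤ f x) :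
    0 ≤ rmean F f := by
  unfold rmean
  exact div_nonneg (Finset.sum_nonneg h) (Nat.cast_nonneg _)

theorem norm_mean_le {A : Type} [AddCommGroup A] (F : Finset A) (f : A → ℂ) :
    ‖mean F f‖ ≤ rmean F fun x => ‖f x‖ := by
  unfold mean rmean
  rw [norm_div, Complex.norm_natCast]
  exact div_le_div_of_nonneg_right (norm_sum_le _ _) (Nat.cast_nonneg _)

section cmp

variable {K : Type} [Field K] [NumberField K] {n : ℕ} {κ : Type} [Fintype κ] [DecidableEq κ]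
  {b : Module.Basis κ ℤ (𝓞 K)}

/-- comparison of the box with the limit -/
def Cmp (b : Module.Basis κ ℤ (𝓞 K)) (φ : (Fin n → 𝓞 K) → ℂ) (μ : ℂ) (E : ℝ) : Prop :=
  Tendsto (fun M => mean (fo b n M) φ) atTop (𝓝 μ) ∧
    ∀ N : ℕ, ‖mean (bx b n N) φ - μ‖ ≤ E / (2 * N + 1)

theorem mean_fsum {A σ : Type} [AddCommGroup A] (F : Finset A) (S : Finset σ) (φ : σ → A → ℂ) :
    mean F (fun h => ∑ i ∈ S, φ i h) = ∑ i ∈ S, mean F (φ i) := by
  unfold mean
  rw [Finset.sum_comm, Finset.sum_div]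

theorem cmp_sum {σ : Type} {S : Finset σ} {φ : σ → (Fin n → 𝓞 K) → ℂ} {μ : σ → ℂ} {E : σ → ℝ}
    (h : ∀ i ∈ S, Cmp b (φ i) (μ i) (E i)) :
    Cmp b (fun x => ∑ i ∈ S, φ i x) (∑ i ∈ S, μ i) (∑ i ∈ S, E i) := by
  constructor
  · simp only [mean_fsum]
    exact tendsto_finsetSum _ fun i hi => (h i hi).1
  · intro N
    rw [mean_fsum, ← Finset.sum_sub_distrib, Finset.sum_div]
    exact norm_sum_le_of_le _ fun i hi => (h i hi).2 N

theorem cmp_local [DecidableEq (HeightOneSpectrum (𝓞 K))] (T : Finset (HeightOneSpectrum (𝓞 K)))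
    (ψ : ((v : T) → Fin n → 𝓞 K ⧸ v.1.asIdeal) → ℂ) {B : ℝ} (hB : ∀ q, ‖ψ q‖ ≤ B) :
    ∃ μ, Cmp b (fun h => ψ (rhoT T n h)) μ
      (2 * B * (n * Fintype.card κ * (∏ v ∈ T, nm v : ℕ))) := by
  refine ⟨_, mean_periodic (fo_folner b n) (rhoT T n) (rhoT_surj T n) ψ, fun N => ?_⟩
  refine (equi_T b T ψ hB N).trans (le_of_eq ?_)
  ring

theorem cmp_prod {k : ℕ} (f : Fin k → HeightOneSpectrum (𝓞 K))
    (ψ : ∀ v : HeightOneSpectrum (𝓞 K), (Fin n → 𝓞 K ⧸ v.asIdeal) → ℝ)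
    {β : HeightOneSpectrum (𝓞 K) → ℝ} (hβ : ∀ v q, |ψ v q| ≤ β v) {X : ℝ} (hX : 1 ≤ X)
    (hf : ∀ i, (nm (f i) : ℝ) ≤ X) :
    ∃ μ, Cmp b (fun h => ∏ i, (ψ (f i) (rho (f i) n h) : ℂ)) μ
      (2 * (∏ i, β (f i)) * (n * Fintype.card κ * X ^ k)) := by
  classical
  set S := Finset.univ.image f with hS
  have hmem : ∀ i, f i ∈ S := fun i => Finset.mem_image_of_mem f (Finset.mem_univ i)
  have hβ0 : ∀ v, 0 ≤ β v := fun v => (abs_nonneg _).trans (hβ v 0)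
  obtain ⟨μ, h1, h2⟩ := cmp_local (b := b) S
    (fun q => ∏ i, (ψ (f i) (q ⟨f i, hmem i⟩) : ℂ)) (B := ∏ i, β (f i)) (fun q => by
      rw [norm_prod]
      refine Finset.prod_le_prod (fun i _ => norm_nonneg _) fun i _ => ?_
      rw [Complex.norm_real]
      exact hβ _ _)
  refine ⟨μ, h1, fun N => (h2 N).trans ?_⟩
  refine div_le_div_of_nonneg_right ?_ (by positivity)
  have h3 : ((∏ v ∈ S, nm v : ℕ) : ℝ) ≤ X ^ k := by
    push_cast
    calc ∏ v ∈ S, (nm v : ℝ) ≤ ∏ _v ∈ S, X := by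
          refine Finset.prod_le_prod (fun v _ => (nm_pos v).le) fun v hv => ?_
          obtain ⟨i, -, rfl⟩ := Finset.mem_image.1 hv
          exact hf i
      _ = X ^ S.card := by rw [Finset.prod_const]
      _ ≤ X ^ k := by
          refine pow_le_pow_right₀ hX ?_
          refine Finset.card_image_le.trans ?_
          simp
  have h4 : 0 ≤ ∏ i, β (f i) := Finset.prod_nonneg fun i _ => hβ0 _
  gcongr

theorem cmp_pow (T : Finset (HeightOneSpectrum (𝓞 K)))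
    (ψ : ∀ v : HeightOneSpectrum (𝓞 K), (Fin n → 𝓞 K ⧸ v.asIdeal) → ℝ)
    {β : HeightOneSpectrum (𝓞 K) → ℝ} (hβ : ∀ v q, |ψ v q| ≤ β v) {X : ℝ} (hX : 1 ≤ X)
    (hT : ∀ v ∈ T, (nm v : ℝ) ≤ X) (k : ℕ) :
    ∃ μ, Cmp b (fun h => ((∑ v ∈ T, ψ v (rho v n h) : ℝ) : ℂ) ^ k) μ
      (2 * (n * Fintype.card κ) * X ^ k * (∑ v ∈ T, β v) ^ k) := by
  classical
  have h1 : ∀ f : Fin k → HeightOneSpectrum (𝓞 K), ∃ μ : ℂ, (∀ i, f i ∈ T) →
      Cmp b (fun h => ∏ i, (ψ (f i) (rho (f i) n h) : ℂ)) μ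
      (2 * (∏ i, β (f i)) * (n * Fintype.card κ * X ^ k)) := by
    intro f
    by_cases hf : ∀ i, f i ∈ T
    · obtain ⟨μ, hμ⟩ := cmp_prod (b := b) f ψ hβ hX fun i => hT _ (hf i)
      exact ⟨μ, fun _ => hμ⟩
    · exact ⟨0, fun h => (hf h).elim⟩
  choose μ hμ using h1
  have h2 := cmp_sum (b := b) (S := Fintype.piFinset fun _ : Fin k => T)
    (φ := fun f h => ∏ i, (ψ (f i) (rho (f i) n h) : ℂ)) (μ := μ)
    (E := fun f => 2 * (∏ i, β (f i)) * (n * Fintype.card κ * X ^ k))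
    fun f hf => hμ f fun i => Fintype.mem_piFinset.1 hf i
  refine ⟨∑ f ∈ Fintype.piFinset (fun _ : Fin k => T), μ f, ?_⟩
  have e1 : (fun h : Fin n → 𝓞 K => ∑ f ∈ Fintype.piFinset fun _ : Fin k => T,
      ∏ i, (ψ (f i) (rho (f i) n h) : ℂ)) =
      fun h => ((∑ v ∈ T, ψ v (rho v n h) : ℝ) : ℂ) ^ k := by
    funext h
    rw [← Finset.prod_univ_sum (fun _ : Fin k => T) fun _ v => (ψ v (rho v n h) : ℂ),
      Finset.prod_const, Finset.card_univ, Fintype.card_fin]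
    push_cast
    rfl
  have e2 : ∑ f ∈ Fintype.piFinset (fun _ : Fin k => T),
      2 * (∏ i, β (f i)) * (n * Fintype.card κ * X ^ k) =
      2 * (n * Fintype.card κ) * X ^ k * (∑ v ∈ T, β v) ^ k := by
    rw [← Finset.sum_mul, ← Finset.mul_sum, ← Finset.prod_univ_sum (fun _ : Fin k => T)
      fun _ v => β v, Finset.prod_const, Finset.card_univ, Fintype.card_fin]
    ring
  rw [e1, e2] at h2
  exact h2

/-- local averages -/
noncomputable def av (v : HeightOneSpectrum (𝓞 K)) (ψ : (Fin n → 𝓞 K ⧸ v.asIdeal) → ℝ) : ℝ :=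
  (∑ h, ψ h) / (nm v : ℝ) ^ n

theorem lim_two (ψ : ∀ v : HeightOneSpectrum (𝓞 K), (Fin n → 𝓞 K ⧸ v.asIdeal) → ℝ)
    {v w : HeightOneSpectrum (𝓞 K)} (hvw : v ≠ w) :
    Tendsto (fun M => mean (fo b n M) fun h => ((ψ v (rho v n h) * ψ w (rho w n h) : ℝ) : ℂ)) atTop
      (𝓝 ((av v (ψ v) * av w (ψ w) : ℝ) : ℂ)) := by
  classical
  have h1 := mean_prod (fo_folner b n) {v, w} fun v h => (ψ v h : ℂ)
  simp only [Finset.prod_pair hvw] at h1
  unfold av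
  push_cast
  exact h1

theorem lim_one (ψ : ∀ v : HeightOneSpectrum (𝓞 K), (Fin n → 𝓞 K ⧸ v.asIdeal) → ℝ)
    (v : HeightOneSpectrum (𝓞 K)) :
    Tendsto (fun M => mean (fo b n M) fun h => ((ψ v (rho v n h) : ℝ) : ℂ)) atTop
      (𝓝 ((av v (ψ v) : ℝ) : ℂ)) := by
  classical
  have h1 := mean_prod (fo_folner b n) {v} fun v h => (ψ v h : ℂ)
  simp only [Finset.prod_singleton] at h1
  unfold av
  push_cast
  exact h1

/-- the second moment -/
theorem second (T : Finset (HeightOneSpectrum (𝓞 K)))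
    (ψ : ∀ v : HeightOneSpectrum (𝓞 K), (Fin n → 𝓞 K ⧸ v.asIdeal) → ℝ)
    {β : HeightOneSpectrum (𝓞 K) → ℝ} (hβ : ∀ v q, |ψ v q| ≤ β v) {X : ℝ} (hX : 1 ≤ X)
    (hT : ∀ v ∈ T, (nm v : ℝ) ≤ X) (N : ℕ) :
    rmean (bx b n N) (fun h => (∑ v ∈ T, ψ v (rho v n h)) ^ 2) ≤
      ∑ v ∈ T, av v (fun h => ψ v h ^ 2) + (∑ v ∈ T, |av v (ψ v)|) ^ 2 +
        2 * (n * Fintype.card κ) * X ^ 2 * (∑ v ∈ T, β v) ^ 2 / (2 * N + 1) := by
  classical
  obtain ⟨μ, h1, h2⟩ := cmp_pow (b := b) T ψ hβ hX hT 2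
  have h3 : Tendsto (fun M => mean (fo b n M) fun h =>
      ((∑ v ∈ T, ψ v (rho v n h) : ℝ) : ℂ) ^ 2) atTop
      (𝓝 (∑ v ∈ T, ∑ w ∈ T, (((if v = w then av v (fun h => ψ v h ^ 2) else
        av v (ψ v) * av w (ψ w)) : ℝ) : ℂ))) := by
    have e1 : ∀ M, mean (fo b n M) (fun h => ((∑ v ∈ T, ψ v (rho v n h) : ℝ) : ℂ) ^ 2) =
        ∑ v ∈ T, ∑ w ∈ T, mean (fo b n M) fun h =>
          ((ψ v (rho v n h) * ψ w (rho w n h) : ℝ) : ℂ) := by
      intro M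
      have : (fun h : Fin n → 𝓞 K => ((∑ v ∈ T, ψ v (rho v n h) : ℝ) : ℂ) ^ 2) =
          fun h => ∑ v ∈ T, ∑ w ∈ T, ((ψ v (rho v n h) * ψ w (rho w n h) : ℝ) : ℂ) := by
        funext h
        push_cast
        rw [sq, Finset.sum_mul_sum]
      rw [this, mean_fsum]
      refine Finset.sum_congr rfl fun v _ => ?_
      rw [mean_fsum]
    simp only [e1]
    refine tendsto_finsetSum _ fun v _ => tendsto_finsetSum _ fun w _ => ?_
    by_cases hvw : v = w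
    · subst hvw
      rw [if_pos rfl]
      have := lim_one (b := b) (fun v h => ψ v h ^ 2) v
      simpa only [sq] using this
    · rw [if_neg hvw]
      exact lim_two ψ hvw
  have h4 := tendsto_nhds_unique h1 h3
  have h5 : ‖μ‖ ≤ ∑ v ∈ T, av v (fun h => ψ v h ^ 2) + (∑ v ∈ T, |av v (ψ v)|) ^ 2 := by
    rw [h4]
    have e : (∑ v ∈ T, ∑ w ∈ T, (((if v = w then av v (fun h => ψ v h ^ 2) else
        av v (ψ v) * av w (ψ w)) : ℝ) : ℂ)) = ((∑ v ∈ T, ∑ w ∈ T, (if v = w then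
        av v (fun h => ψ v h ^ 2) else av v (ψ v) * av w (ψ w)) : ℝ) : ℂ) := by push_cast; rfl
    rw [e, Complex.norm_real, Real.norm_eq_abs]
    have h6 : ∀ v ∈ T, |∑ w ∈ T, (if v = w then av v (fun h => ψ v h ^ 2) else
        av v (ψ v) * av w (ψ w))| ≤ av v (fun h => ψ v h ^ 2) +
          |av v (ψ v)| * ∑ w ∈ T, |av w (ψ w)| := by
      intro v hv
      have h7 : ∀ w ∈ T, |if v = w then av v (fun h => ψ v h ^ 2) else
          av v (ψ v) * av w (ψ w)| ≤ (if v = w then av v (fun h => ψ v h ^ 2) else 0) +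
            |av v (ψ v)| * |av w (ψ w)| := by
        intro w _
        have h8 : 0 ≤ av v (fun h => ψ v h ^ 2) := by
          unfold av
          have := nm_pos v
          exact div_nonneg (Finset.sum_nonneg fun h _ => sq_nonneg _) (by positivity)
        split_ifs with h9
        · rw [abs_of_nonneg h8]
          have : 0 ≤ |av v (ψ v)| * |av w (ψ w)| := by positivity
          linarith
        · rw [abs_mul, zero_add]
      refine (Finset.abs_sum_le_sum_abs _ _).trans ((Finset.sum_le_sum h7).trans (le_of_eq ?_))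
      rw [Finset.sum_add_distrib, Finset.sum_ite_eq, if_pos hv, Finset.mul_sum]
    refine (Finset.abs_sum_le_sum_abs _ _).trans ((Finset.sum_le_sum h6).trans (le_of_eq ?_))
    rw [Finset.sum_add_distrib, ← Finset.sum_mul, sq]
  have h6 : (rmean (bx b n N) (fun h => (∑ v ∈ T, ψ v (rho v n h)) ^ 2)) =
      ‖mean (bx b n N) fun h => ((∑ v ∈ T, ψ v (rho v n h) : ℝ) : ℂ) ^ 2‖ := by
    have : (fun h : Fin n → 𝓞 K => ((∑ v ∈ T, ψ v (rho v n h) : ℝ) : ℂ) ^ 2) =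
        fun h => (((∑ v ∈ T, ψ v (rho v n h)) ^ 2 : ℝ) : ℂ) := by
      funext h
      push_cast
      rfl
    rw [this, mean_real, Complex.norm_real, Real.norm_eq_abs, abs_of_nonneg]
    exact rmean_nonneg fun x _ => sq_nonneg _
  rw [h6]
  have h7 := h2 N
  have h8 := norm_sub_norm_le (mean (bx b n N) fun h =>
    ((∑ v ∈ T, ψ v (rho v n h) : ℝ) : ℂ) ^ 2) μ
  linarith

/-- the first moment -/
theorem first (T : Finset (HeightOneSpectrum (𝓞 K)))
    (ψ : ∀ v : HeightOneSpectrum (𝓞 K), (Fin n → 𝓞 K ⧸ v.asIdeal) → ℝ)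
    {β : HeightOneSpectrum (𝓞 K) → ℝ} (hβ : ∀ v q, |ψ v q| ≤ β v) {X : ℝ} (hX : 1 ≤ X)
    (hT : ∀ v ∈ T, (nm v : ℝ) ≤ X) (N : ℕ) :
    rmean (bx b n N) (fun h => ∑ v ∈ T, ψ v (rho v n h)) ≤
      ∑ v ∈ T, av v (ψ v) + 2 * (n * Fintype.card κ) * X * (∑ v ∈ T, β v) / (2 * N + 1) := by
  classical
  obtain ⟨μ, h1, h2⟩ := cmp_pow (b := b) T ψ hβ hX hT 1
  simp only [pow_one] at h1 h2
  have h3 : Tendsto (fun M => mean (fo b n M) fun h =>
      ((∑ v ∈ T, ψ v (rho v n h) : ℝ) : ℂ)) atTop (𝓝 (∑ v ∈ T, ((av v (ψ v) : ℝ) : ℂ))) := by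
    have e1 : ∀ M, mean (fo b n M) (fun h => ((∑ v ∈ T, ψ v (rho v n h) : ℝ) : ℂ)) =
        ∑ v ∈ T, mean (fo b n M) fun h => ((ψ v (rho v n h) : ℝ) : ℂ) := by
      intro M
      rw [← mean_fsum]
      congr 1
      funext h
      push_cast
      rfl
    simp only [e1]
    exact tendsto_finsetSum _ fun v _ => lim_one ψ v
  have h4 := tendsto_nhds_unique h1 h3
  have h7 := h2 N
  rw [mean_real, h4] at h7
  have e : (rmean (bx b n N) (fun h => ∑ v ∈ T, ψ v (rho v n h)) : ℂ) -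
      ∑ v ∈ T, ((av v (ψ v) : ℝ) : ℂ) =
      ((rmean (bx b n N) (fun h => ∑ v ∈ T, ψ v (rho v n h)) - ∑ v ∈ T, av v (ψ v) : ℝ) : ℂ) := by
    push_cast
    rfl
  rw [e, Complex.norm_real, Real.norm_eq_abs] at h7
  have := (abs_le.1 h7).2
  linarith

end cmp

end Pool.Agent.W5h26.CL
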