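import Pool.Agent.W5h26.CL.Mert

/-!
# The scales
-/

set_option autoImplicit false
set_option linter.unusedSectionVars false
set_option maxHeartbeats 400000

open Filter Topology Finset
open NumberField IsDedekindDomain Pool.Agent.H921R2.TatePole

namespace Pool.Agent.W5h26.CL

open Pool.Agent.W5h26.EP Pool.Agent.W5h26.AO

/-- the iterated logarithm -/
noncomputable def LL (N : ℕ) : ℝ := Real.log (Real.log N)

/-- the small scale `N ^ (1 / log log N)` -/
noncomputable def XP (N : ℕ) : ℝ := Real.exp (Real.log N / LL N)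

theorem log_tendsto : Tendsto (fun N : ℕ => Real.log (N : ℝ)) atTop atTop :=
  Real.tendsto_log_atTop.comp tendsto_natCast_atTop_atTop

theorem LL_tendsto : Tendsto LL atTop atTop := Real.tendsto_log_atTop.comp log_tendsto

theorem log_div_LL : Tendsto (fun N : ℕ => Real.log N / LL N) atTop atTop := by
  have h1 : Tendsto (fun y : ℝ => y / Real.log y) atTop atTop := by
    have h2 : Tendsto (fun y : ℝ => Real.log y / y) atTop (𝓝 0) := by
      have := Real.tendsto_pow_log_div_mul_add_atTop 1 0 1 one_ne_zero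
      simpa using this
    have h3 : Tendsto (fun y : ℝ => Real.log y / y) atTop (𝓝[>] 0) := by
      rw [tendsto_nhdsWithin_iff]
      refine ⟨h2, ?_⟩
      filter_upwards [eventually_gt_atTop 1] with y hy
      exact div_pos (Real.log_pos hy) (by linarith)
    refine h3.inv_tendsto_nhdsGT_zero.congr fun y => ?_
    simp
  exact h1.comp log_tendsto

theorem XP_tendsto : Tendsto XP atTop atTop := Real.tendsto_exp_atTop.comp log_div_LL

theorem LL_log_small : Tendsto (fun N : ℕ => Real.log (LL N) / LL N) atTop (𝓝 0) := by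
  have h2 : Tendsto (fun y : ℝ => Real.log y / y) atTop (𝓝 0) := by
    have := Real.tendsto_pow_log_div_mul_add_atTop 1 0 1 one_ne_zero
    simpa using this
  exact h2.comp LL_tendsto

variable (K : Type) [Field K] [NumberField K]

theorem MX_XP : ∃ C : ℝ, ∀ᶠ N : ℕ in atTop, |MX K (XP N) - (LL N - Real.log (LL N))| ≤ C := by
  obtain ⟨C, hC⟩ := mertens K
  refine ⟨C, ?_⟩
  filter_upwards [XP_tendsto.eventually hC, LL_tendsto.eventually (eventually_gt_atTop 1),
    log_tendsto.eventually (eventually_gt_atTop 1)] with N h1 h2 h3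
  have h4 : Real.log (Real.log (XP N)) = LL N - Real.log (LL N) := by
    unfold XP
    rw [Real.log_exp, Real.log_div (by linarith) (by linarith)]
    rfl
  rwa [h4] at h1

theorem MX_pow {c : ℝ} (hc : 0 < c) :
    ∃ C : ℝ, ∀ᶠ N : ℕ in atTop, |MX K ((N : ℝ) ^ c) - LL N| ≤ C := by
  obtain ⟨C, hC⟩ := mertens K
  refine ⟨C + |Real.log c|, ?_⟩
  have h0 : Tendsto (fun N : ℕ => (N : ℝ) ^ c) atTop atTop :=
    (tendsto_rpow_atTop hc).comp tendsto_natCast_atTop_atTop
  filter_upwards [h0.eventually hC, eventually_gt_atTop 0,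
    log_tendsto.eventually (eventually_gt_atTop 1)] with N h1 h2 h3
  have hN : (0 : ℝ) < N := by exact_mod_cast h2
  have h4 : Real.log (Real.log ((N : ℝ) ^ c)) = Real.log c + LL N := by
    rw [Real.log_rpow hN, Real.log_mul hc.ne' (by linarith)]
    rfl
  rw [h4] at h1
  have h5 : MX K ((N : ℝ) ^ c) - LL N = (MX K ((N : ℝ) ^ c) - (Real.log c + LL N)) + Real.log c := by
    ring
  rw [h5]
  exact (abs_add_le _ _).trans (add_le_add h1 le_rfl)

theorem ratio_one {f : ℕ → ℝ} {C : ℝ} (h : ∀ᶠ N in atTop, |f N - LL N| ≤ C) :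
    Tendsto (fun N => f N / LL N) atTop (𝓝 1) := by
  have h1 : Tendsto (fun N => (f N - LL N) / LL N) atTop (𝓝 0) := by
    refine squeeze_zero_norm' (a := fun N => C / LL N) ?_
      (LL_tendsto.const_div_atTop C)
    filter_upwards [h, LL_tendsto.eventually (eventually_gt_atTop 0)] with N h1 h2
    rw [Real.norm_eq_abs, abs_div, abs_of_pos h2]
    exact div_le_div_of_nonneg_right h1 h2.le
  have h2 := h1.add_const 1
  rw [zero_add] at h2
  refine h2.congr' ?_
  filter_upwards [LL_tendsto.eventually (eventually_gt_atTop 0)] with N h3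
  field_simp
  ring

theorem ratio_XP : Tendsto (fun N => MX K (XP N) / LL N) atTop (𝓝 1) := by
  obtain ⟨C, hC⟩ := MX_XP K
  have h1 : ∀ᶠ N : ℕ in atTop, |(MX K (XP N) + Real.log (LL N)) - LL N| ≤ C := by
    filter_upwards [hC] with N h
    rwa [show MX K (XP N) + Real.log (LL N) - LL N = MX K (XP N) - (LL N - Real.log (LL N)) by ring]
  have h2 := (ratio_one h1).sub LL_log_small
  rw [sub_zero] at h2
  refine h2.congr fun N => ?_
  rw [← sub_div]
  congr 1
  ring

/-- the difference of the scales -/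
theorem gap {c : ℝ} (hc : 0 < c) :
    Tendsto (fun N : ℕ => (MX K ((N : ℝ) ^ c) - MX K (XP N)) / LL N) atTop (𝓝 0) := by
  obtain ⟨C, hC⟩ := MX_pow K hc
  have h1 := (ratio_one hC).sub (ratio_XP K)
  rw [sub_self] at h1
  refine h1.congr fun N => ?_
  rw [← sub_div]

theorem XP_le {ε : ℝ} (hε : 0 < ε) : ∀ᶠ N : ℕ in atTop, XP N ≤ (N : ℝ) ^ ε := by
  filter_upwards [LL_tendsto.eventually (eventually_ge_atTop (1 / ε)), eventually_gt_atTop 0,
    log_tendsto.eventually (eventually_gt_atTop 0)] with N h1 h2 h3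
  have hN : (0 : ℝ) < N := by exact_mod_cast h2
  unfold XP
  rw [Real.rpow_def_of_pos hN]
  refine Real.exp_le_exp.2 ?_
  have h4 : 0 < LL N := lt_of_lt_of_le (by positivity) h1
  rw [div_le_iff₀ h4, mul_assoc]
  refine le_mul_of_one_le_right h3.le ?_
  rw [div_le_iff₀ hε] at h1
  linarith

theorem MX_le : ∀ᶠ X : ℝ in atTop, MX K X ≤ Real.log X := by
  obtain ⟨C, hC⟩ := mertens K
  have h1 : Tendsto (fun X : ℝ => Real.log X - Real.log (Real.log X)) atTop atTop := by
    have h2 : Tendsto (fun y : ℝ => y - Real.log y) atTop atTop := by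
      have h3 : Tendsto (fun y : ℝ => y / 2) atTop atTop := tendsto_id.atTop_div_const (by norm_num)
      refine tendsto_atTop_mono' _ ?_ h3
      have h4 := (Asymptotics.isLittleO_iff.1 Real.isLittleO_log_id_atTop) (show (0 : ℝ) < 1 / 2 by norm_num)
      filter_upwards [h4, eventually_gt_atTop 1] with y h5 h6
      rw [Real.norm_eq_abs, Real.norm_eq_abs, abs_of_pos (Real.log_pos h6),
        abs_of_pos (show (0 : ℝ) < id y by simp only [id]; linarith)] at h5
      simp only [id] at h5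
      linarith
    exact h2.comp Real.tendsto_log_atTop
  filter_upwards [hC, h1.eventually (eventually_ge_atTop C)] with X h2 h3
  have := (abs_le.1 h2).2
  linarith

/-- powers of logarithms are small -/
theorem log_pow_small (m : ℕ) {δ : ℝ} (hδ : 0 < δ) :
    Tendsto (fun N : ℕ => Real.log N ^ m * (N : ℝ) ^ (-δ)) atTop (𝓝 0) := by
  have h1 : Tendsto (fun x : ℝ => Real.log x ^ m * x ^ (-δ)) atTop (𝓝 0) := by
    have h2 := (isLittleO_log_rpow_rpow_atTop (m : ℝ) hδ).tendsto_div_nhds_zero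
    refine h2.congr' ?_
    filter_upwards [eventually_gt_atTop 0] with x hx
    rw [Real.rpow_natCast, Real.rpow_neg hx.le]
    rfl
  exact h1.comp tendsto_natCast_atTop_atTop

theorem MX_nonneg (X : ℝ) : 0 ≤ MX K X := Finset.sum_nonneg fun v _ => inv_nonneg.2 (nm_pos v).le

theorem err_XP (m : ℕ) (C : ℝ) :
    Tendsto (fun N : ℕ => C * (XP N ^ 2 * MX K (XP N)) ^ m / (2 * N + 1)) atTop (𝓝 0) := by
  have hε : (0 : ℝ) < 1 / (4 * (m + 1)) := by positivity
  have h1 := (log_pow_small m (show (0 : ℝ) < 1 / 2 by norm_num)).const_mul |C|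
  rw [mul_zero] at h1
  refine squeeze_zero_norm' ?_ h1
  filter_upwards [XP_le hε, XP_tendsto.eventually (MX_le K), eventually_ge_atTop 1,
    LL_tendsto.eventually (eventually_ge_atTop 1), log_tendsto.eventually (eventually_gt_atTop 0)]
    with N h2 h3 h4 h5 h6
  have hN : (1 : ℝ) ≤ N := by exact_mod_cast h4
  have hN0 : (0 : ℝ) < N := by linarith
  have hM := MX_nonneg K (XP N)
  have h7 : MX K (XP N) ≤ Real.log N := by
    refine h3.trans ?_
    unfold XP
    rw [Real.log_exp]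
    exact div_le_self h6.le h5
  have hX0 : 0 < XP N := Real.exp_pos _
  have h8 : (XP N ^ 2 * MX K (XP N)) ^ m ≤ (N : ℝ) ^ (1 / 2 : ℝ) * Real.log N ^ m := by
    rw [mul_pow]
    refine mul_le_mul ?_ (pow_le_pow_left₀ hM h7 m) (by positivity) (by positivity)
    rw [← pow_mul]
    calc XP N ^ (2 * m) ≤ ((N : ℝ) ^ (1 / (4 * (m + 1)) : ℝ)) ^ (2 * m) :=
          pow_le_pow_left₀ hX0.le h2 _
      _ = (N : ℝ) ^ ((1 / (4 * (m + 1)) : ℝ) * ((2 * m : ℕ) : ℝ)) := by
          rw [Real.rpow_mul hN0.le, Real.rpow_natCast]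
      _ ≤ (N : ℝ) ^ (1 / 2 : ℝ) := by
          refine Real.rpow_le_rpow_of_exponent_le hN ?_
          push_cast
          rw [div_mul_eq_mul_div, div_le_div_iff₀ (by positivity) (by norm_num)]
          nlinarith
  have h9 : 0 ≤ (XP N ^ 2 * MX K (XP N)) ^ m := by positivity
  rw [Real.norm_eq_abs, abs_div, abs_mul, abs_of_nonneg h9, abs_of_pos (by positivity : (0 : ℝ) <
    2 * N + 1), div_le_iff₀ (by positivity)]
  have h10 : |C| * (XP N ^ 2 * MX K (XP N)) ^ m ≤
      |C| * ((N : ℝ) ^ (1 / 2 : ℝ) * Real.log N ^ m) := mul_le_mul_of_nonneg_left h8 (abs_nonneg C)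
  refine h10.trans ?_
  have h11 : (N : ℝ) ^ (1 / 2 : ℝ) = (N : ℝ) ^ (-(1 / 2) : ℝ) * N := by
    conv_rhs => rw [← Real.rpow_one (N : ℝ), ← Real.rpow_mul hN0.le]
    rw [mul_comm, Real.rpow_one]
    nth_rewrite 2 [← Real.rpow_one (N : ℝ)]
    rw [← Real.rpow_add hN0]
    norm_num
  have h12 : 0 ≤ |C| * (Real.log N ^ m * (N : ℝ) ^ (-(1 / 2) : ℝ)) := by positivity
  rw [h11]
  nlinarith

theorem err_pow {c : ℝ} (hc : 0 < c) (hc3 : c < 1 / 3) (C : ℝ) :
    Tendsto (fun N : ℕ => C * (((N : ℝ) ^ c) ^ 3 * MX K ((N : ℝ) ^ c) ^ 2) / (2 * N + 1)) atTop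
      (𝓝 0) := by
  have h1 := (log_pow_small 2 (show (0 : ℝ) < 1 - 3 * c by linarith)).const_mul |C|
  rw [mul_zero] at h1
  refine squeeze_zero_norm' ?_ h1
  have h0 : Tendsto (fun N : ℕ => (N : ℝ) ^ c) atTop atTop :=
    (tendsto_rpow_atTop hc).comp tendsto_natCast_atTop_atTop
  filter_upwards [h0.eventually (MX_le K), eventually_ge_atTop 1,
    log_tendsto.eventually (eventually_gt_atTop 0)] with N h3 h4 h6
  have hN : (1 : ℝ) ≤ N := by exact_mod_cast h4
  have hN0 : (0 : ℝ) < N := by linarith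
  have hM := MX_nonneg K ((N : ℝ) ^ c)
  have h7 : MX K ((N : ℝ) ^ c) ≤ Real.log N := by
    refine h3.trans ?_
    rw [Real.log_rpow hN0]
    nlinarith
  have h8 : MX K ((N : ℝ) ^ c) ^ 2 ≤ Real.log N ^ 2 := pow_le_pow_left₀ hM h7 2
  have h9 : ((N : ℝ) ^ c) ^ 3 = (N : ℝ) ^ (-(1 - 3 * c)) * N := by
    nth_rewrite 3 [← Real.rpow_one (N : ℝ)]
    rw [← Real.rpow_add hN0, ← Real.rpow_natCast, ← Real.rpow_mul hN0.le]
    congr 1
    push_cast
    ring
  rw [Real.norm_eq_abs, abs_div, abs_mul, abs_of_nonneg (by positivity : (0 : ℝ) ≤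
    ((N : ℝ) ^ c) ^ 3 * MX K ((N : ℝ) ^ c) ^ 2), abs_of_pos (by positivity : (0 : ℝ) <
    2 * N + 1), div_le_iff₀ (by positivity), h9]
  have h10 : 0 ≤ (N : ℝ) ^ (-(1 - 3 * c)) := by positivity
  have h11 : |C| * ((N : ℝ) ^ (-(1 - 3 * c)) * N * MX K ((N : ℝ) ^ c) ^ 2) ≤
      |C| * ((N : ℝ) ^ (-(1 - 3 * c)) * N * Real.log N ^ 2) := by gcongr
  refine h11.trans ?_
  have h12 : 0 ≤ |C| * (Real.log N ^ 2 * (N : ℝ) ^ (-(1 - 3 * c))) := by positivity
  nlinarith

end Pool.Agent.W5h26.CL
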