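import Pool.Agent.W5h26.CL.Small

/-!
# The central limit theorem at the large scale
-/

set_option autoImplicit false
set_option linter.unusedSectionVars false
set_option maxHeartbeats 400000

open Filter Topology Finset Complex
open NumberField IsDedekindDomain Pool.Agent.H921R2.TatePole

namespace Pool.Agent.W5h26.CL

open Pool.Agent.W5h26.EP Pool.Agent.W5h26.AO

theorem rmean_abs {A : Type} (F : Finset A) (f : A → ℝ) :
    rmean F (fun x => |f x|) ≤ √(rmean F fun x => f x ^ 2) := by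
  refine Real.le_sqrt_of_sq_le ?_
  unfold rmean
  rcases F.eq_empty_or_nonempty with rfl | hne
  · simp
  have hc : (0 : ℝ) < F.card := by exact_mod_cast Finset.card_pos.2 hne
  rw [div_pow, div_le_div_iff₀ (by positivity) hc]
  have h1 := sq_sum_le_card_mul_sum_sq (s := F) (f := fun x => |f x|)
  simp only [sq_abs] at h1
  nlinarith

theorem rmean_add {A : Type} (F : Finset A) (f g : A → ℝ) :
    rmean F (fun x => f x + g x) = rmean F f + rmean F g := by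
  unfold rmean
  rw [Finset.sum_add_distrib, add_div]

theorem rmean_const_mul {A : Type} (F : Finset A) (c : ℝ) (f : A → ℝ) :
    rmean F (fun x => c * f x) = c * rmean F f := by
  unfold rmean
  rw [← Finset.mul_sum, mul_div_assoc]

theorem rmean_const {A : Type} {F : Finset A} (hF : F.Nonempty) (c : ℝ) :
    rmean F (fun _ => c) = c := by
  unfold rmean
  have hc : (0 : ℝ) < F.card := by exact_mod_cast Finset.card_pos.2 hF
  rw [Finset.sum_const, nsmul_eq_mul]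
  field_simp

theorem char_diff {A : Type} [AddCommGroup A] (F : Finset A) (W Y : A → ℝ) (θ : ℝ) :
    ‖mean F (fun x => cexp ((θ * W x : ℝ) * I)) - mean F (fun x => cexp ((θ * Y x : ℝ) * I))‖ ≤
      |θ| * rmean F fun x => |W x - Y x| := by
  have h1 : mean F (fun x => cexp ((θ * W x : ℝ) * I)) - mean F (fun x => cexp ((θ * Y x : ℝ) * I)) =
      mean F fun x => (cexp ((θ * W x : ℝ) * I) - cexp ((θ * Y x : ℝ) * I)) := by
    unfold mean
    rw [Finset.sum_sub_distrib, sub_div]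
  rw [h1, ← rmean_const_mul]
  refine (norm_mean_le _ _).trans (rmean_mono fun x _ => ?_)
  have h2 : cexp ((θ * W x : ℝ) * I) - cexp ((θ * Y x : ℝ) * I) =
      cexp ((θ * Y x : ℝ) * I) * (cexp (I * ((θ * W x - θ * Y x : ℝ) : ℂ)) - 1) := by
    rw [mul_sub, ← Complex.exp_add, mul_one]
    congr 2
    push_cast
    ring
  rw [h2, norm_mul, Complex.norm_exp_ofReal_mul_I, one_mul]
  refine (Real.norm_exp_I_mul_ofReal_sub_one_le).trans (le_of_eq ?_)
  rw [← mul_sub, Real.norm_eq_abs, abs_mul]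

variable {K : Type} [Field K] [NumberField K] {n : ℕ} {κ : Type} [Fintype κ] [DecidableEq κ]
  {b : Module.Basis κ ℤ (𝓞 K)}
  {ψ : ∀ v : HeightOneSpectrum (𝓞 K), (Fin n → 𝓞 K ⧸ v.asIdeal) → ℝ} {B C : ℝ}

theorem beta_sum2 {X : ℝ} (hX : 1 ≤ X) (hB : 0 ≤ B) :
    ∑ v ∈ PX K X, B / √(nm v : ℝ) ≤ B * (√X * MX K X) := by
  unfold MX
  rw [Finset.mul_sum, Finset.mul_sum]
  refine Finset.sum_le_sum fun v hv => ?_
  have hs : (0 : ℝ) < √(nm v : ℝ) := Real.sqrt_pos.2 (nm_pos v)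
  have h1 : √(nm v : ℝ) ≤ √X := Real.sqrt_le_sqrt (mem_PX.1 hv)
  rw [div_eq_mul_inv]
  refine mul_le_mul_of_nonneg_left ?_ hB
  rw [← div_eq_mul_inv, le_div_iff₀ (nm_pos v), ← div_eq_inv_mul, div_le_iff₀ hs]
  nth_rewrite 1 [← Real.mul_self_sqrt (nm_pos v).le]
  exact mul_le_mul_of_nonneg_right h1 hs.le

theorem Loc.B0' (h : Loc ψ B C) : 0 ≤ B ∨ IsEmpty (HeightOneSpectrum (𝓞 K)) := by
  rcases isEmpty_or_nonempty (HeightOneSpectrum (𝓞 K)) with h0 | ⟨⟨v⟩⟩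
  · exact Or.inr h0
  · exact Or.inl (h.B0 v)

theorem beta_sum3 (h : Loc ψ B C) {X : ℝ} (hX : 1 ≤ X) :
    ∑ v ∈ PX K X, B / √(nm v : ℝ) ≤ |B| * (√X * MX K X) := by
  rcases h.B0' with h0 | h0
  · rw [abs_of_nonneg h0]
    exact beta_sum2 hX h0
  · have : PX K X = ∅ := by
      rw [Finset.eq_empty_iff_forall_notMem]
      intro v
      exact h0.elim v
    rw [this, Finset.sum_empty]
    have := MX_nonneg K X
    positivity

/-- the difference between the two scales -/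
theorem gap_l1 (h : Loc ψ B C) {c : ℝ} (hc : 0 < c) (hc3 : c < 1 / 3) :
    Tendsto (fun N : ℕ => rmean (bx b n N) fun x =>
      |(√(LL N))⁻¹ * ∑ v ∈ PX K ((N : ℝ) ^ c), ψ v (rho v n x) -
        (√(LL N))⁻¹ * ∑ v ∈ PX K (XP N), ψ v (rho v n x)|) atTop (𝓝 0) := by
  classical
  have h1 := ((gap K hc).const_mul (B ^ 2)).add
    (err_pow K hc hc3 (2 * (n * Fintype.card κ) * B ^ 2))
  rw [mul_zero, add_zero] at h1
  have h2 : Tendsto (fun N : ℕ => √(B ^ 2 * ((MX K ((N : ℝ) ^ c) - MX K (XP N)) / LL N) +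
      2 * (n * Fintype.card κ) * B ^ 2 * (((N : ℝ) ^ c) ^ 3 * MX K ((N : ℝ) ^ c) ^ 2) /
        (2 * N + 1))) atTop (𝓝 0) := by
    have := (Real.continuous_sqrt.tendsto 0).comp h1
    rwa [Real.sqrt_zero] at this
  have h0 : Tendsto (fun N : ℕ => (N : ℝ) ^ c) atTop atTop :=
    (tendsto_rpow_atTop hc).comp tendsto_natCast_atTop_atTop
  refine squeeze_zero' (Eventually.of_forall fun N => rmean_nonneg fun x _ => abs_nonneg _) ?_ h2
  filter_upwards [XP_le hc, h0.eventually (eventually_ge_atTop 1),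
    LL_tendsto.eventually (eventually_ge_atTop 1)] with N h3 h4 h5
  set X : ℝ := (N : ℝ) ^ c with hX
  have hsub : PX K (XP N) ⊆ PX K X := fun v hv => mem_PX.2 ((mem_PX.1 hv).trans h3)
  set T := PX K X \ PX K (XP N) with hT
  have e1 : ∀ x : Fin n → 𝓞 K, (√(LL N))⁻¹ * ∑ v ∈ PX K X, ψ v (rho v n x) -
      (√(LL N))⁻¹ * ∑ v ∈ PX K (XP N), ψ v (rho v n x) =
      (√(LL N))⁻¹ * ∑ v ∈ T, ψ v (rho v n x) := by
    intro x
    rw [← Finset.sum_sdiff hsub]
    ring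
  simp only [e1]
  refine (rmean_abs _ _).trans (Real.sqrt_le_sqrt ?_)
  have hL0 : 0 < LL N := by linarith
  have e2 : ∀ x : Fin n → 𝓞 K, ((√(LL N))⁻¹ * ∑ v ∈ T, ψ v (rho v n x)) ^ 2 =
      (LL N)⁻¹ * (∑ v ∈ T, ψ v (rho v n x)) ^ 2 := by
    intro x
    rw [mul_pow, inv_pow, Real.sq_sqrt hL0.le]
  simp only [e2]
  rw [rmean_const_mul]
  have h6 := second (b := b) T ψ h.bd h4 (fun v hv => mem_PX.1 (Finset.mem_sdiff.1 hv).1) N
  have e3 : ∀ v, av v (ψ v) = 0 := by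
    intro v
    unfold av
    rw [h.zero v, zero_div]
  simp only [e3, abs_zero, Finset.sum_const_zero] at h6
  have e4 : ∑ v ∈ T, av v (fun q => ψ v q ^ 2) ≤ B ^ 2 * (MX K X - MX K (XP N)) := by
    have e5 : MX K X - MX K (XP N) = ∑ v ∈ T, (nm v : ℝ)⁻¹ := by
      unfold MX
      rw [← Finset.sum_sdiff hsub]
      ring
    rw [e5, Finset.mul_sum]
    refine Finset.sum_le_sum fun v _ => ?_
    unfold av
    have hq : (0 : ℝ) < (nm v : ℝ) ^ n := by
      have := nm_pos v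
      positivity
    rw [div_le_iff₀ hq]
    refine (Finset.sum_le_card_nsmul _ _ (B ^ 2 * (nm v : ℝ)⁻¹) fun q _ => ?_).trans (le_of_eq ?_)
    · have e6 : (B / √(nm v : ℝ)) ^ 2 = B ^ 2 * (nm v : ℝ)⁻¹ := by
        rw [div_pow, Real.sq_sqrt (nm_pos v).le, div_eq_mul_inv]
      show ψ v q ^ 2 ≤ _
      rw [← e6, ← sq_abs (ψ v q)]
      exact pow_le_pow_left₀ (abs_nonneg _) (h.bd v q) 2
    · rw [card_univ, card_loc, nsmul_eq_mul]
      push_cast
      ring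
  have e7 : ∑ v ∈ T, B / √(nm v : ℝ) ≤ |B| * (√X * MX K X) := by
    refine le_trans ?_ (beta_sum3 h h4)
    refine Finset.sum_le_sum_of_subset_of_nonneg Finset.sdiff_subset fun v _ _ => ?_
    exact div_nonneg (h.B0 v) (Real.sqrt_nonneg _)
  have e8 : 0 ≤ ∑ v ∈ T, B / √(nm v : ℝ) :=
    Finset.sum_nonneg fun v _ => div_nonneg (h.B0 v) (Real.sqrt_nonneg _)
  have e9 : X ^ 2 * (∑ v ∈ T, B / √(nm v : ℝ)) ^ 2 ≤ B ^ 2 * (X ^ 3 * MX K X ^ 2) := by
    calc X ^ 2 * (∑ v ∈ T, B / √(nm v : ℝ)) ^ 2 ≤ X ^ 2 * (|B| * (√X * MX K X)) ^ 2 :=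
          mul_le_mul_of_nonneg_left (pow_le_pow_left₀ e8 e7 2) (by positivity)
      _ = _ := by
          rw [mul_pow, mul_pow, sq_abs, Real.sq_sqrt (by linarith)]
          ring
  have e10 : 2 * (n * Fintype.card κ : ℝ) * X ^ 2 * (∑ v ∈ T, B / √(nm v : ℝ)) ^ 2 / (2 * N + 1) ≤
      2 * (n * Fintype.card κ) * B ^ 2 * (X ^ 3 * MX K X ^ 2) / (2 * N + 1) := by
    refine div_le_div_of_nonneg_right ?_ (by positivity)
    calc 2 * (n * Fintype.card κ : ℝ) * X ^ 2 * (∑ v ∈ T, B / √(nm v : ℝ)) ^ 2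
        = 2 * (n * Fintype.card κ : ℝ) * (X ^ 2 * (∑ v ∈ T, B / √(nm v : ℝ)) ^ 2) := by ring
      _ ≤ 2 * (n * Fintype.card κ : ℝ) * (B ^ 2 * (X ^ 3 * MX K X ^ 2)) :=
          mul_le_mul_of_nonneg_left e9 (by positivity)
      _ = _ := by ring
  have e11 : rmean (bx b n N) (fun x => (∑ v ∈ T, ψ v (rho v n x)) ^ 2) ≤
      B ^ 2 * (MX K X - MX K (XP N)) +
        2 * (n * Fintype.card κ) * B ^ 2 * (X ^ 3 * MX K X ^ 2) / (2 * N + 1) := by
    refine h6.trans ?_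
    linarith
  have e12 : 0 ≤ 2 * (n * Fintype.card κ : ℝ) * B ^ 2 * (X ^ 3 * MX K X ^ 2) / (2 * N + 1) := by
    have : 0 ≤ X := by linarith
    positivity
  have hLi : (LL N)⁻¹ ≤ 1 := inv_le_one_of_one_le₀ h5
  have hLi0 : 0 ≤ (LL N)⁻¹ := inv_nonneg.2 hL0.le
  calc (LL N)⁻¹ * rmean (bx b n N) (fun x => (∑ v ∈ T, ψ v (rho v n x)) ^ 2)
      ≤ (LL N)⁻¹ * (B ^ 2 * (MX K X - MX K (XP N)) +
        2 * (n * Fintype.card κ) * B ^ 2 * (X ^ 3 * MX K X ^ 2) / (2 * N + 1)) :=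
        mul_le_mul_of_nonneg_left e11 hLi0
    _ = B ^ 2 * ((MX K X - MX K (XP N)) / LL N) +
        (LL N)⁻¹ * (2 * (n * Fintype.card κ) * B ^ 2 * (X ^ 3 * MX K X ^ 2) / (2 * N + 1)) := by
        rw [div_eq_mul_inv]
        ring
    _ ≤ _ := by
        have := mul_le_of_le_one_left e12 hLi
        linarith

/-- **The central limit theorem.** -/
theorem clt_big (h : Loc ψ B C) {c : ℝ} (hc : 0 < c) (hc3 : c < 1 / 3)
    {W : ℕ → (Fin n → 𝓞 K) → ℝ}
    (hW : Tendsto (fun N : ℕ => rmean (bx b n N) fun x =>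
      |W N x - (√(LL N))⁻¹ * ∑ v ∈ PX K ((N : ℝ) ^ c), ψ v (rho v n x)|) atTop (𝓝 0)) (θ : ℝ) :
    Tendsto (fun N : ℕ => mean (bx b n N) fun x => cexp ((θ * W N x : ℝ) * I)) atTop
      (𝓝 (cexp (-((θ ^ 2 / 2 : ℝ) : ℂ)))) := by
  have h1 := box_small (b := b) h θ
  have h2 : Tendsto (fun N : ℕ => (mean (bx b n N) fun x => cexp ((θ * W N x : ℝ) * I)) -
      mean (bx b n N) fun x =>
        cexp ((θ * ((√(LL N))⁻¹ * ∑ v ∈ PX K (XP N), ψ v (rho v n x)) : ℝ) * I)) atTop (𝓝 0) := by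
    have h3 := ((hW.add (gap_l1 (b := b) h hc hc3)).const_mul |θ|)
    rw [add_zero, mul_zero] at h3
    refine squeeze_zero_norm (fun N => ?_) h3
    refine (char_diff _ _ _ θ).trans (mul_le_mul_of_nonneg_left ?_ (abs_nonneg θ))
    rw [← rmean_add]
    exact rmean_mono fun x _ => abs_sub_le _ _ _
  have h3 := h2.add h1
  rw [zero_add] at h3
  exact h3.congr fun N => by ring

end Pool.Agent.W5h26.CL
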