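import Pool.Agent.W5h26.CL.Pert
import Pool.Agent.W5h26.AO.MomC

/-!
# The local functions of the curves
-/

set_option autoImplicit false
set_option linter.unusedSectionVars false
set_option maxHeartbeats 400000

open Filter Topology Finset Complex Polynomial
open NumberField IsDedekindDomain Pool.Agent.H921R2.TatePole

namespace Pool.Agent.W5h26.CL

open Pool.Agent.W5h26.EP Pool.Agent.W5h26.AO

variable {K : Type} [Field K] [NumberField K] {r n g : ℕ} {a : (𝓞 K)[X]} {α : Fin r → 𝓞 K}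

/-- the trace as a function of the reduction of the parameters -/
noncomputable def tq (a : (𝓞 K)[X]) (α : Fin r → 𝓞 K) (n : ℕ) (m : ℕ)
    (v : HeightOneSpectrum (𝓞 K)) (q : Fin n → 𝓞 K ⧸ v.asIdeal) : ℝ :=
  gtr (mem (red v a) (fun j => Ideal.Quotient.mk v.asIdeal (α j)) q) m

theorem lam_tq (h : Fin n → 𝓞 K) (v : HeightOneSpectrum (𝓞 K)) (m : ℕ) :
    lam (mem a α h) v m = tq a α n m v (rho v n h) := by
  unfold lam tq
  rw [red_mem]
  rfl

theorem tq_bd (ha : a.Monic) (hd : a.natDegree = 2 * g + 1) (hn : n + r ≤ 2 * g + 1)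
    (v : HeightOneSpectrum (𝓞 K)) {m : ℕ} (hm : 1 ≤ m) (q : Fin n → 𝓞 K ⧸ v.asIdeal) :
    |tq a α n m v q| ≤ 2 * g * √(nm v : ℝ) ^ m := by
  obtain ⟨e1, e2⟩ := red_deg ha hd v
  have h1 := gtr_bd (m := m) (mem_monic e1 e2 hn
    (fun j => Ideal.Quotient.mk v.asIdeal (α j)) q).2 hm
  rwa [card_q] at h1

theorem av_tq (v : HeightOneSpectrum (𝓞 K)) (m : ℕ) :
    av v (tq a α n m v) = Ev a α n v m := by
  unfold av tq Ev EE
  rw [card_q]

theorem av_sq (v : HeightOneSpectrum (𝓞 K)) :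
    av v (fun q => tq a α n 1 v q ^ 2) = AO.Eq a α n v := by
  unfold av tq AO.Eq EQ
  rw [card_q]

/-- the centred local function -/
noncomputable def psi (a : (𝓞 K)[X]) (α : Fin r → 𝓞 K) (n : ℕ) (v : HeightOneSpectrum (𝓞 K))
    (q : Fin n → 𝓞 K ⧸ v.asIdeal) : ℝ :=
  (-tq a α n 1 v q + Ev a α n v 1) / nm v

theorem rp_two (v : HeightOneSpectrum (𝓞 K)) :
    ((nm v : ℝ) ^ 2)⁻¹ ≤ (nm v : ℝ) ^ (-(3 / 2) : ℝ) := by
  rw [← Real.rpow_natCast, ← Real.rpow_neg (nm_pos v).le]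
  exact Real.rpow_le_rpow_of_exponent_le (nm1 v) (by norm_num)

theorem rp_mul (v : HeightOneSpectrum (𝓞 K)) :
    (nm v : ℝ) ^ (-(1 / 2) : ℝ) / nm v = (nm v : ℝ) ^ (-(3 / 2) : ℝ) := by
  nth_rewrite 2 [← Real.rpow_one (nm v : ℝ)]
  rw [← Real.rpow_sub (nm_pos v)]
  norm_num

theorem sq_div (v : HeightOneSpectrum (𝓞 K)) : √(nm v : ℝ) / nm v = (√(nm v : ℝ))⁻¹ := by
  have h := Real.sq_sqrt (nm_pos v).le
  have h2 : 0 < √(nm v : ℝ) := Real.sqrt_pos.2 (nm_pos v)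
  rw [div_eq_iff (nm_pos v).ne', inv_mul_eq_div, eq_div_iff h2.ne', ← sq, h]

theorem sq_inv (v : HeightOneSpectrum (𝓞 K)) :
    (√(nm v : ℝ))⁻¹ ^ 3 = (nm v : ℝ) ^ (-(3 / 2) : ℝ) := by
  rw [Real.sqrt_eq_rpow, ← Real.rpow_neg (nm_pos v).le, ← Real.rpow_natCast,
    ← Real.rpow_mul (nm_pos v).le]
  norm_num

theorem psi_loc (ha : a.Monic) (hd : a.natDegree = 2 * g + 1) (hn : n + r ≤ 2 * g + 1)
    {C₁ : ℝ} (h1 : ∀ v : HeightOneSpectrum (𝓞 K), |Ev a α n v 1 + r| ≤ C₁ * (nm v : ℝ) ^ (-(1 / 2) : ℝ))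
    {C₂ : ℝ} (h2 : ∀ v : HeightOneSpectrum (𝓞 K), |AO.Eq a α n v - nm v| ≤ C₂) :
    Loc (psi a α n) (4 * g) (|C₂| + (r + |C₁|) ^ 2) := by
  have hE : ∀ v : HeightOneSpectrum (𝓞 K), |Ev a α n v 1| ≤ r + |C₁| := by
    intro v
    have h3 := h1 v
    have h4 : (nm v : ℝ) ^ (-(1 / 2) : ℝ) ≤ 1 :=
      Real.rpow_le_one_of_one_le_of_nonpos (nm1 v) (by norm_num)
    have h5 : C₁ * (nm v : ℝ) ^ (-(1 / 2) : ℝ) ≤ |C₁| := by
      calc C₁ * (nm v : ℝ) ^ (-(1 / 2) : ℝ) ≤ |C₁| * (nm v : ℝ) ^ (-(1 / 2) : ℝ) :=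
            mul_le_mul_of_nonneg_right (le_abs_self _) (by positivity)
        _ ≤ |C₁| := mul_le_of_le_one_right (abs_nonneg _) h4
    have h6 : |Ev a α n v 1| ≤ |Ev a α n v 1 + r| + |(r : ℝ)| := by
      have := abs_sub (Ev a α n v 1 + r) r
      rwa [add_sub_cancel_right] at this
    rw [Nat.abs_cast] at h6
    linarith
  refine ⟨fun v => ?_, fun v q => ?_, fun v => ?_⟩
  · unfold psi
    rw [← Finset.sum_div, Finset.sum_add_distrib, Finset.sum_neg_distrib, Finset.sum_const,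
      card_univ, card_loc, nsmul_eq_mul, ← av_tq v 1]
    unfold av
    have hq := nm_pos v
    push_cast
    field_simp
    ring
  · unfold psi
    have hq := nm_pos v
    have h3 := tq_bd (α := α) ha hd hn v le_rfl q
    have h4 := ev_bd (α := α) (n := n) ha hd hn v (m := 1) le_rfl
    rw [pow_one] at h3 h4
    rw [abs_div, abs_of_pos hq]
    have h5 : |(-tq a α n 1 v q + Ev a α n v 1)| ≤ 4 * g * √(nm v : ℝ) := by
      refine (abs_add_le _ _).trans ?_
      rw [abs_neg]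
      linarith
    calc |(-tq a α n 1 v q + Ev a α n v 1)| / (nm v : ℝ) ≤ 4 * g * √(nm v : ℝ) / nm v :=
          div_le_div_of_nonneg_right h5 hq.le
      _ = 4 * g / √(nm v : ℝ) := by
          rw [mul_div_assoc, sq_div, div_eq_mul_inv]
  · have hq := nm_pos v
    have h3 : av v (fun q => psi a α n v q ^ 2) = (AO.Eq a α n v - Ev a α n v 1 ^ 2) / (nm v : ℝ) ^ 2 := by
      have h4 : ∑ q : Fin n → 𝓞 K ⧸ v.asIdeal, psi a α n v q ^ 2 =
          (∑ q : Fin n → 𝓞 K ⧸ v.asIdeal, tq a α n 1 v q ^ 2 -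
            2 * Ev a α n v 1 * (∑ q : Fin n → 𝓞 K ⧸ v.asIdeal, tq a α n 1 v q) +
            (nm v : ℝ) ^ n * Ev a α n v 1 ^ 2) / (nm v : ℝ) ^ 2 := by
        have h5 : ∀ q, psi a α n v q ^ 2 = (tq a α n 1 v q ^ 2 -
            2 * Ev a α n v 1 * tq a α n 1 v q + Ev a α n v 1 ^ 2) / (nm v : ℝ) ^ 2 := by
          intro q
          unfold psi
          rw [div_pow]
          congr 1
          ring
        rw [Finset.sum_congr rfl fun q _ => h5 q, ← Finset.sum_div, Finset.sum_add_distrib,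
          Finset.sum_sub_distrib, ← Finset.mul_sum, Finset.sum_const, card_univ, card_loc,
          nsmul_eq_mul]
        push_cast
        rfl
      have h6 := av_sq (a := a) (α := α) (n := n) v
      have h7 := av_tq (a := a) (α := α) (n := n) v 1
      unfold av at h6 h7 ⊢
      have hqn : ((nm v : ℝ) ^ n) ≠ 0 := by positivity
      rw [div_eq_iff hqn] at h6 h7
      rw [h4, h6, h7]
      field_simp
      ring
    rw [h3]
    have h4 : (AO.Eq a α n v - Ev a α n v 1 ^ 2) / (nm v : ℝ) ^ 2 - (nm v : ℝ)⁻¹ =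
        (AO.Eq a α n v - nm v - Ev a α n v 1 ^ 2) * ((nm v : ℝ) ^ 2)⁻¹ := by
      field_simp
      ring
    rw [h4, abs_mul, abs_of_pos (show 0 < ((nm v : ℝ) ^ 2)⁻¹ by positivity)]
    refine mul_le_mul ?_ (rp_two v) (by positivity) (by positivity)
    refine (abs_sub _ _).trans (add_le_add ((h2 v).trans (le_abs_self _)) ?_)
    rw [abs_pow]
    exact pow_le_pow_left₀ (abs_nonneg _) (hE v) 2

variable {κ : Type} [Fintype κ] [DecidableEq κ] {b : Module.Basis κ ℤ (𝓞 K)}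

/-- the Nagao sum is close to the sum of the centred functions -/
theorem nagao_near {C₁ : ℝ}
    (h1 : ∀ v : HeightOneSpectrum (𝓞 K), |Ev a α n v 1 + r| ≤ C₁ * (nm v : ℝ) ^ (-(1 / 2) : ℝ))
    {c : ℝ} (hc : 0 < c) {R : ℕ → (Fin n → 𝓞 K) → ℝ}
    (hR : Tendsto (fun N : ℕ => rmean (bx b n N) fun x => |(√(LL N))⁻¹ * R N x|) atTop (𝓝 0)) :
    Tendsto (fun N : ℕ => rmean (bx b n N) fun x =>
      |(√(LL N))⁻¹ * ((∑ v ∈ PX K ((N : ℝ) ^ c), -lam (mem a α x) v 1 / nm v) + R N x - r * LL N) -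
        (√(LL N))⁻¹ * ∑ v ∈ PX K ((N : ℝ) ^ c), psi a α n v (rho v n x)|) atTop (𝓝 0) := by
  set S : ℝ := ∑' v : HeightOneSpectrum (𝓞 K), (nm v : ℝ) ^ (-(3 / 2) : ℝ) with hS
  have hSs : Summable fun v : HeightOneSpectrum (𝓞 K) => (nm v : ℝ) ^ (-(3 / 2) : ℝ) :=
    nm_summable (K := K) (by norm_num)
  obtain ⟨C, hC⟩ := MX_pow K hc
  have h2 := (s_tendsto.mul_const (|C₁| * S + r * C)).add hR
  rw [zero_mul, zero_add] at h2
  refine squeeze_zero' (Eventually.of_forall fun N => rmean_nonneg fun x _ => abs_nonneg _) ?_ h2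
  filter_upwards [hC] with N hN
  have hs0 : 0 ≤ (√(LL N))⁻¹ := inv_nonneg.2 (Real.sqrt_nonneg _)
  set X : ℝ := (N : ℝ) ^ c with hX
  have e1 : ∀ x : Fin n → 𝓞 K,
      (√(LL N))⁻¹ * ((∑ v ∈ PX K X, -lam (mem a α x) v 1 / nm v) + R N x - r * LL N) -
        (√(LL N))⁻¹ * ∑ v ∈ PX K X, psi a α n v (rho v n x) =
      (√(LL N))⁻¹ * (-(∑ v ∈ PX K X, (Ev a α n v 1 + r) / nm v) + r * (MX K X - LL N)) +
        (√(LL N))⁻¹ * R N x := by
    intro x
    have e2 : ∑ v ∈ PX K X, psi a α n v (rho v n x) =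
        (∑ v ∈ PX K X, -lam (mem a α x) v 1 / nm v) + ∑ v ∈ PX K X, (Ev a α n v 1 + r) / nm v -
          r * MX K X := by
      unfold MX
      rw [Finset.mul_sum, ← Finset.sum_add_distrib, ← Finset.sum_sub_distrib]
      refine Finset.sum_congr rfl fun v _ => ?_
      unfold psi
      rw [lam_tq]
      have := nm_pos v
      field_simp
      ring
    rw [e2]
    ring
  simp only [e1]
  have e3 : |(√(LL N))⁻¹ * (-(∑ v ∈ PX K X, (Ev a α n v 1 + r) / nm v) + r * (MX K X - LL N))| ≤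
      (√(LL N))⁻¹ * (|C₁| * S + r * C) := by
    rw [abs_mul, abs_of_nonneg hs0]
    refine mul_le_mul_of_nonneg_left ?_ hs0
    refine (abs_add_le _ _).trans (add_le_add ?_ ?_)
    · rw [abs_neg]
      refine (Finset.abs_sum_le_sum_abs _ _).trans ?_
      have e4 : ∀ v ∈ PX K X, |(Ev a α n v 1 + r) / nm v| ≤
          |C₁| * (nm v : ℝ) ^ (-(3 / 2) : ℝ) := by
        intro v _
        have hq := nm_pos v
        rw [abs_div, abs_of_pos hq, ← rp_mul, ← mul_div_assoc]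
        refine div_le_div_of_nonneg_right ((h1 v).trans ?_) hq.le
        exact mul_le_mul_of_nonneg_right (le_abs_self _) (by positivity)
      refine (Finset.sum_le_sum e4).trans ?_
      rw [← Finset.mul_sum]
      exact mul_le_mul_of_nonneg_left (hSs.sum_le_tsum _ fun v _ => by positivity) (abs_nonneg _)
    · rw [abs_mul, Nat.abs_cast]
      exact mul_le_mul_of_nonneg_left hN (Nat.cast_nonneg _)
  refine (rmean_mono (g := fun x => (√(LL N))⁻¹ * (|C₁| * S + r * C) + |(√(LL N))⁻¹ * R N x|)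
    fun x _ => (abs_add_le _ _).trans (add_le_add e3 le_rfl)).trans ?_
  rw [rmean_add, rmean_const (bx_nonempty b n N)]

end Pool.Agent.W5h26.CL
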