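import Pool.Agent.W5h26.AO.Crt
import Pool.Agent.W5h26.AO.Box

/-!
# Equidistribution of boxes, with an error term
-/

set_option autoImplicit false
set_option linter.unusedSectionVars false
set_option maxHeartbeats 400000

open Filter Topology Finset
open NumberField IsDedekindDomain Pool.Agent.H921R2.TatePole

namespace Pool.Agent.W5h26.CL

open Pool.Agent.W5h26.EP Pool.Agent.W5h26.AO

section box

variable {ι : Type} [Fintype ι] [DecidableEq ι] {Q : Type} [AddCommGroup Q] [Fintype Q]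

theorem equi_box (π : (ι → ℤ) →+ Q) (hπ : Function.Surjective π) {m : ℕ} (hm : 0 < m)
    (hker : ∀ x, π (m • x) = 0) (ψ : Q → ℂ) {B : ℝ} (hB : ∀ q, ‖ψ q‖ ≤ B) (M : ℕ) :
    ‖mean (box ι M) (fun x => ψ (π x)) - (∑ q, ψ q) / (Fintype.card Q : ℂ)‖ ≤
      2 * B * (Fintype.card ι * m / (M + 1)) := by
  classical
  have hB0 : 0 ≤ B := (norm_nonneg _).trans (hB 0)
  have hs : ∀ q : Q, ∃ x : ι → ℤ, π x = q ∧ ∀ i, (x i).natAbs ≤ m := by
    intro q
    obtain ⟨x, hx⟩ := hπ q
    refine ⟨fun i => x i % m, ?_, fun i => ?_⟩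
    · have h1 : x = (fun i => x i % m) + m • fun i => x i / m := by
        ext i
        simp only [Pi.add_apply, nsmul_eq_mul]
        exact (Int.emod_add_mul_ediv (x i) m).symm
      rw [← hx]
      conv_rhs => rw [h1, map_add, hker, add_zero]
    · have h1 := Int.emod_nonneg (x i) (b := (m : ℤ)) (by omega)
      have h2 := Int.emod_lt_of_pos (x i) (b := (m : ℤ)) (by omega)
      show (x i % (m : ℤ)).natAbs ≤ m
      omega
  choose s hs1 hs2 using hs
  have hQ : (Fintype.card Q : ℂ) ≠ 0 := by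
    have : Nonempty Q := ⟨0⟩
    exact_mod_cast Fintype.card_ne_zero
  have hQ' : (0 : ℝ) < Fintype.card Q := by
    have : Nonempty Q := ⟨0⟩
    exact_mod_cast Fintype.card_pos
  have hne : (box ι M).Nonempty := box_folner.nonempty M
  have hc : ((box ι M).card : ℂ) ≠ 0 := by exact_mod_cast (Finset.card_pos.2 hne).ne'
  have h1 : ∑ q, mean (box ι M) (fun x => ψ (π (x + s q))) = ∑ q, ψ q := by
    unfold mean
    rw [← Finset.sum_div, Finset.sum_comm, div_eq_iff hc]
    have : ∀ x ∈ box ι M, ∑ q, ψ (π (x + s q)) = ∑ q, ψ q := by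
      intro x _
      have e : ∀ q, ψ (π (x + s q)) = ψ (π x + q) := fun q => by rw [map_add, hs1 q]
      simp only [e]
      exact Fintype.sum_equiv (Equiv.addLeft (π x)) _ _ fun _ => rfl
    rw [Finset.sum_congr rfl this, Finset.sum_const, nsmul_eq_mul, mul_comm]
  have h2 : ∀ q, ‖mean (box ι M) (fun x => ψ (π (x + s q))) -
      mean (box ι M) fun x => ψ (π x)‖ ≤ 2 * B * (Fintype.card ι * m / (M + 1)) := by
    intro q
    have h3 := mean_shift (box ι M) hne (s q) (φ := fun x => ψ (π x)) (B := B) fun x => hB _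
    refine h3.trans (mul_le_mul_of_nonneg_left ?_ (by positivity))
    have h4 := box_shift M (s q)
    have h5 : ((∑ i, (s q i).natAbs * (M + 1) ^ (Fintype.card ι - 1) : ℕ) : ℝ) ≤
        Fintype.card ι * m * ((M : ℝ) + 1) ^ (Fintype.card ι - 1) := by
      push_cast
      rw [← Finset.sum_mul]
      refine mul_le_mul_of_nonneg_right ?_ (by positivity)
      refine (Finset.sum_le_card_nsmul _ _ (m : ℝ) fun i _ => ?_).trans (le_of_eq ?_)
      · exact_mod_cast hs2 q i
      · rw [card_univ, nsmul_eq_mul]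
    have h6 : (((box ι M).filter fun x => x + s q ∉ box ι M).card : ℝ) ≤
        Fintype.card ι * m * ((M : ℝ) + 1) ^ (Fintype.card ι - 1) := by
      refine le_trans ?_ h5
      exact_mod_cast h4
    rw [box_card]
    push_cast
    rcases Nat.eq_zero_or_pos (Fintype.card ι) with h0 | h0
    · rw [h0] at h6 ⊢
      simp only [CharP.cast_eq_zero, zero_mul, pow_zero, div_one, zero_div] at h6 ⊢
      refine le_trans (le_of_eq ?_) h6
      congr
    · rw [div_le_div_iff₀ (by positivity) (by positivity)]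
      have h7 : ((M : ℝ) + 1) ^ (Fintype.card ι) =
          ((M : ℝ) + 1) ^ (Fintype.card ι - 1) * ((M : ℝ) + 1) := by
        rw [← pow_succ]
        congr 1
        omega
      rw [h7, ← mul_assoc]
      refine mul_le_mul_of_nonneg_right ?_ (by positivity)
      refine le_trans (le_of_eq ?_) h6
      congr
  have h4 : mean (box ι M) (fun x => ψ (π x)) - (∑ q, ψ q) / (Fintype.card Q : ℂ) =
      -((∑ q : Q, (mean (box ι M) (fun x =>
      ψ (π (x + s q))) - mean (box ι M) fun x => ψ (π x))) / (Fintype.card Q : ℂ)) := by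
    rw [Finset.sum_sub_distrib, h1, Finset.sum_const, Finset.card_univ, nsmul_eq_mul]
    field_simp
    ring
  rw [h4, norm_neg, norm_div, Complex.norm_natCast, div_le_iff₀ hQ']
  refine (norm_sum_le _ _).trans ((Finset.sum_le_card_nsmul _ _ _ fun q _ => h2 q).trans
    (le_of_eq ?_))
  rw [card_univ, nsmul_eq_mul, mul_comm]

/-- the symmetric box `[- N, N] ^ ι` -/
noncomputable def sbox (ι : Type) [Fintype ι] [DecidableEq ι] (N : ℕ) : Finset (ι → ℤ) :=
  Fintype.piFinset fun _ => Finset.Icc (-(N : ℤ)) N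

theorem mem_sbox {N : ℕ} {x : ι → ℤ} : x ∈ sbox ι N ↔ ∀ i, |x i| ≤ N := by
  unfold sbox
  rw [Fintype.mem_piFinset]
  simp only [Finset.mem_Icc, abs_le]

theorem sbox_eq (N : ℕ) : sbox ι N = (box ι (2 * N)).map
    (addRightEmbedding (fun _ : ι => -(N : ℤ))) := by
  ext x
  simp only [mem_sbox, Finset.mem_map, addRightEmbedding_apply]
  constructor
  · intro h
    refine ⟨fun i => x i + N, ?_, ?_⟩
    · unfold AO.box
      rw [Fintype.mem_piFinset]
      intro i
      have := abs_le.1 (h i)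
      rw [Finset.mem_Ico]
      push_cast
      constructor <;> linarith
    · ext i
      simp
  · rintro ⟨y, hy, rfl⟩ i
    unfold AO.box at hy
    rw [Fintype.mem_piFinset] at hy
    have := Finset.mem_Ico.1 (hy i)
    push_cast at this
    simp only [Pi.add_apply]
    rw [abs_le]
    constructor <;> omega

theorem mean_sbox (N : ℕ) (φ : (ι → ℤ) → ℂ) :
    mean (sbox ι N) φ = mean (box ι (2 * N)) fun x => φ (x + fun _ => -(N : ℤ)) := by
  unfold mean
  rw [sbox_eq, Finset.sum_map, Finset.card_map]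
  rfl

theorem equi_sbox (π : (ι → ℤ) →+ Q) (hπ : Function.Surjective π) {m : ℕ} (hm : 0 < m)
    (hker : ∀ x, π (m • x) = 0) (ψ : Q → ℂ) {B : ℝ} (hB : ∀ q, ‖ψ q‖ ≤ B) (N : ℕ) :
    ‖mean (sbox ι N) (fun x => ψ (π x)) - (∑ q, ψ q) / (Fintype.card Q : ℂ)‖ ≤
      2 * B * (Fintype.card ι * m / (2 * N + 1)) := by
  have h1 := equi_box π hπ hm hker (fun q => ψ (q + π (fun _ => -(N : ℤ)))) (B := B)
    (fun q => hB _) (2 * N)
  rw [mean_sbox]
  have h2 : ∑ q, ψ (q + π (fun _ => -(N : ℤ))) = ∑ q, ψ q :=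
    Fintype.sum_equiv (Equiv.addRight _) _ _ fun _ => rfl
  rw [h2] at h1
  simp only [map_add]
  push_cast at h1
  exact h1

end box

section field

variable {K : Type} [Field K] [NumberField K] {n : ℕ} {κ : Type} [Fintype κ] [DecidableEq κ]

/-- coordinates -/
noncomputable def cd (b : Module.Basis κ ℤ (𝓞 K)) (n : ℕ) : (Fin n × κ → ℤ) ≃+ (Fin n → 𝓞 K) where
  toFun x i := b.equivFun.symm fun j => x (i, j)
  invFun h p := b.repr (h p.1) p.2
  left_inv x := by
    ext ⟨i, j⟩
    simp only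
    rw [← b.equivFun_apply, LinearEquiv.apply_symm_apply]
  right_inv h := by
    ext1 i
    simp only
    apply b.equivFun.injective
    rw [LinearEquiv.apply_symm_apply]
    rfl
  map_add' x y := by
    ext1 i
    simp only [Pi.add_apply]
    rw [← map_add]
    rfl

/-- the box of the vectors with coordinates of absolute value at most `N` -/
noncomputable def bx (b : Module.Basis κ ℤ (𝓞 K)) (n N : ℕ) : Finset (Fin n → 𝓞 K) :=
  (sbox (Fin n × κ) N).map (cd b n).toEquiv.toEmbedding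

theorem mem_bx {b : Module.Basis κ ℤ (𝓞 K)} {N : ℕ} {h : Fin n → 𝓞 K} :
    h ∈ bx b n N ↔ ∀ i j, |b.repr (h i) j| ≤ N := by
  unfold bx
  rw [mem_map_equiv, mem_sbox]
  constructor
  · intro h1 i j
    exact h1 (i, j)
  · rintro h1 ⟨i, j⟩
    exact h1 i j

theorem bx_nonempty (b : Module.Basis κ ℤ (𝓞 K)) (n N : ℕ) : (bx b n N).Nonempty := by
  refine ⟨0, mem_bx.2 fun i j => ?_⟩
  simp

theorem mean_bx (b : Module.Basis κ ℤ (𝓞 K)) (N : ℕ) (φ : (Fin n → 𝓞 K) → ℂ) :
    mean (bx b n N) φ = mean (sbox (Fin n × κ) N) fun x => φ (cd b n x) := by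
  unfold mean bx
  rw [Finset.sum_map, Finset.card_map]
  rfl

/-- a Følner sequence -/
noncomputable def fo (b : Module.Basis κ ℤ (𝓞 K)) (n M : ℕ) : Finset (Fin n → 𝓞 K) :=
  (box (Fin n × κ) M).map (cd b n).toEquiv.toEmbedding

theorem fo_folner (b : Module.Basis κ ℤ (𝓞 K)) (n : ℕ) : IsFolner (fo b n) :=
  folner_map (cd b n) box_folner

/-- the reductions at the places of a finite set -/
theorem equi_T [DecidableEq (HeightOneSpectrum (𝓞 K))] (b : Module.Basis κ ℤ (𝓞 K)) (T : Finset (HeightOneSpectrum (𝓞 K)))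
    (ψ : ((v : T) → Fin n → 𝓞 K ⧸ v.1.asIdeal) → ℂ) {B : ℝ} (hB : ∀ q, ‖ψ q‖ ≤ B) (N : ℕ) :
    ‖mean (bx b n N) (fun h => ψ (rhoT T n h)) -
      (∑ q, ψ q) / (Fintype.card ((v : T) → Fin n → 𝓞 K ⧸ v.1.asIdeal) : ℂ)‖ ≤
      2 * B * (n * Fintype.card κ * (∏ v ∈ T, nm v : ℕ) / (2 * N + 1)) := by
  classical
  have hm : 0 < ∏ v ∈ T, nm v := Finset.prod_pos fun v _ => (by
    have := two_le_nm v
    omega)
  have h1 := equi_sbox (ι := Fin n × κ) ((rhoT T n).comp (cd b n).toAddMonoidHom)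
    ((rhoT_surj T n).comp (cd b n).surjective) hm (fun x => ?_) ψ hB N
  · rw [mean_bx]
    rw [Fintype.card_prod, Fintype.card_fin] at h1
    push_cast at h1 ⊢
    exact h1
  · show rhoT T n (cd b n ((∏ v ∈ T, nm v) • x)) = 0
    rw [map_nsmul]
    ext v i
    show Ideal.Quotient.mk v.1.asIdeal (((∏ v ∈ T, nm v) • (cd b n x)) i) = 0
    rw [Ideal.Quotient.eq_zero_iff_mem, Pi.smul_apply, nsmul_eq_mul]
    refine Ideal.mul_mem_right _ _ ?_
    have h2 : ((nm v.1 : ℕ) : 𝓞 K) ∈ v.1.asIdeal := Ideal.absNorm_mem _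
    refine Ideal.mem_of_dvd _ ?_ h2
    have h3 : nm v.1 ∣ ∏ v ∈ T, nm v := Finset.dvd_prod_of_mem _ v.2
    exact_mod_cast Nat.cast_dvd_cast h3

end field

end Pool.Agent.W5h26.CL
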