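import Pool.Agent.W5h26.CL.Prod

/-!
# The central limit theorems for the curves
-/

set_option autoImplicit false
set_option linter.unusedSectionVars false
set_option maxHeartbeats 400000

open Filter Topology Finset Complex Polynomial
open NumberField IsDedekindDomain Pool.Agent.H921R2.TatePole

namespace Pool.Agent.W5h26.CL

open Pool.Agent.W5h26.EP Pool.Agent.W5h26.AO

variable {K : Type} [Field K] [NumberField K] {r n g : ℕ} {a : (𝓞 K)[X]} {α : Fin r → 𝓞 K}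
  {κ : Type} [Fintype κ] [DecidableEq κ] {b : Module.Basis κ ℤ (𝓞 K)}

open Classical in
/-- the distribution function of the normalised sum -/
def IsNormal (b : Module.Basis κ ℤ (𝓞 K)) (W : ℕ → (Fin n → 𝓞 K) → ℝ) : Prop :=
  ∀ t : ℝ, Tendsto (fun N : ℕ => (((bx b n N).filter fun x => W N x ≤ t).card : ℝ) /
    ((bx b n N).card : ℝ)) atTop (𝓝 ((ProbabilityTheory.gaussianReal 0 1).real (Set.Iic t)))

/-- the general form -/
theorem clt_gen {y : Fin r → 𝓞 K} (ha : a.Monic) (hd : a.natDegree = 2 * g + 1)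
    (hn : n + 2 + r = 2 * g + 1) (hα : Function.Injective α) (hy : ∀ j, a.eval (α j) = y j ^ 2)
    (hy0 : ∀ j, y j ≠ 0) {c : ℝ} (hc : 0 < c) (hc3 : c < 1 / 3)
    {R : ℕ → (Fin (n + 2) → 𝓞 K) → ℝ}
    (hR : Tendsto (fun N : ℕ => rmean (bx b (n + 2) N) fun x => |(√(LL N))⁻¹ * R N x|) atTop (𝓝 0)) :
    IsNormal b fun N x => (√(LL N))⁻¹ * ((∑ v ∈ PX K ((N : ℝ) ^ c),
      -lam (mem a α x) v 1 / nm v) + R N x - r * LL N) := by
  classical
  obtain ⟨C, hC1, hC2⟩ := ev_asym ha hd hn hα hy hy0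
  obtain ⟨C', hC3⟩ := eq_asymK ha hd hn hα hy hy0
  have h1 := nagao_near (b := b) hC1 hc hR
  have h2 := psi_loc ha hd hn.le hC1 hC3
  intro t
  exact cdf_tendsto (fun N => bx_nonempty b (n + 2) N) (fun θ => clt_big h2 hc hc3 h1 θ) t

theorem sum_S (T : Finset (HeightOneSpectrum (𝓞 K))) {D : ℝ} (hD : 0 ≤ D) :
    ∑ v ∈ T, D * (nm v : ℝ) ^ (-(3 / 2) : ℝ) ≤
      D * ∑' v : HeightOneSpectrum (𝓞 K), (nm v : ℝ) ^ (-(3 / 2) : ℝ) := by
  have hSs : Summable fun v : HeightOneSpectrum (𝓞 K) => (nm v : ℝ) ^ (-(3 / 2) : ℝ) :=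
    nm_summable (K := K) (by norm_num)
  rw [← Finset.mul_sum]
  exact mul_le_mul_of_nonneg_left (hSs.sum_le_tsum _ fun v _ => by positivity) hD

theorem half_sum {X : ℝ} : ∑ v ∈ PX K X, 1 / (2 * (nm v : ℝ)) = MX K X / 2 := by
  unfold MX
  rw [Finset.sum_div]
  refine Finset.sum_congr rfl fun v _ => ?_
  rw [one_div, mul_inv]
  ring

/-- the sums of the traces -/
theorem clt_trace {y : Fin r → 𝓞 K} (ha : a.Monic) (hd : a.natDegree = 2 * g + 1)
    (hn : n + 2 + r = 2 * g + 1) (hα : Function.Injective α) (hy : ∀ j, a.eval (α j) = y j ^ 2)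
    (hy0 : ∀ j, y j ≠ 0) {c : ℝ} (hc : 0 < c) (hc3 : c < 1 / 3) :
    IsNormal b fun N (x : Fin (n + 2) → 𝓞 K) => ((∑ v ∈ PX K ((N : ℝ) ^ c),
      -lam (mem a α x) v 1 / nm v) - r * LL N) / √(LL N) := by
  have h1 := clt_gen (b := b) (R := fun _ _ => 0) ha hd hn hα hy hy0 hc hc3 (by
    simp only [mul_zero, abs_zero]
    refine tendsto_const_nhds.congr fun N => ?_
    rw [rmean_const (bx_nonempty b (n + 2) N)])
  have e : (fun (N : ℕ) (x : Fin (n + 2) → 𝓞 K) => ((∑ v ∈ PX K ((N : ℝ) ^ c),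
      -lam (mem a α x) v 1 / nm v) - r * LL N) / √(LL N)) =
      fun N x => (√(LL N))⁻¹ * ((∑ v ∈ PX K ((N : ℝ) ^ c),
      -lam (mem a α x) v 1 / nm v) + 0 - r * LL N) := by
    funext N x
    rw [add_zero, div_eq_inv_mul]
  rw [e]
  exact h1

/-- the numbers of points -/
theorem clt_points {y : Fin r → 𝓞 K} (ha : a.Monic) (hd : a.natDegree = 2 * g + 1)
    (hn : n + 2 + r = 2 * g + 1) (hα : Function.Injective α) (hy : ∀ j, a.eval (α j) = y j ^ 2)
    (hy0 : ∀ j, y j ≠ 0) {c : ℝ} (hc : 0 < c) (hc3 : c < 1 / 3) :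
    IsNormal b fun N (x : Fin (n + 2) → 𝓞 K) => ((∑ v ∈ PX K ((N : ℝ) ^ c),
      bl a α (n + 2) v (rho v (n + 2) x)) - (r + 1 / 2) * LL N) / √(LL N) := by
  obtain ⟨C', hC3⟩ := eq_asymK ha hd hn hα hy hy0
  obtain ⟨D₁, hD₁, hbl⟩ := bl_near (α := α) ha hd hn.le
  obtain ⟨D₂, hD₂, hbad⟩ := bad_av ha hd hn hα hy hy0
  obtain ⟨C, hC⟩ := MX_pow K hc
  set S : ℝ := ∑' v : HeightOneSpectrum (𝓞 K), (nm v : ℝ) ^ (-(3 / 2) : ℝ) with hS
  set D : ℝ := (1 + 4 * g ^ 2) + |C'| + D₂ with hD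
  have hD0 : 0 ≤ D := by positivity
  have hle : ∀ {z : ℝ} {w : ℝ}, 0 ≤ w → z ≤ D → z * w ≤ D * w := fun hw hz =>
    mul_le_mul_of_nonneg_right hz hw
  have h1 := clt_gen (b := b) (R := fun N x => (∑ v ∈ PX K ((N : ℝ) ^ c),
    bl a α (n + 2) v (rho v (n + 2) x)) + (∑ v ∈ PX K ((N : ℝ) ^ c),
    lam (mem a α x) v 1 / nm v) - LL N / 2) ha hd hn hα hy hy0 hc hc3 (by
    refine pert (b := b) hc hc3 (ξ := xi a α (n + 2)) (ζ := bad a α (n + 2)) (D := D)
      (D' := D₁ * S + C / 2) hD0 (fun v q => ?_) (fun v => ?_) (fun v q => ?_) (fun v => ?_) ?_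
    · refine (xi_bd ha hd hn.le v q).trans ?_
      refine div_le_div_of_nonneg_right ?_ (nm_pos v).le
      rw [hD]
      have := abs_nonneg C'
      linarith
    · refine (xi_av hC3 v).trans (hle (by positivity) ?_)
      rw [hD]
      have : (0 : ℝ) ≤ 1 + 4 * g ^ 2 := by positivity
      linarith
    · refine (bad_bd v q).trans ?_
      refine div_le_div_of_nonneg_right ?_ (nm_pos v).le
      rw [hD]
      have := abs_nonneg C'
      have : (0 : ℝ) ≤ 4 * g ^ 2 := by positivity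
      linarith
    · refine (hbad v).trans (hle (by positivity) ?_)
      rw [hD]
      have := abs_nonneg C'
      have : (0 : ℝ) ≤ 1 + 4 * g ^ 2 := by positivity
      linarith
    · filter_upwards [hC] with N hN x
      set X : ℝ := (N : ℝ) ^ c with hX
      have e1 : (∑ v ∈ PX K X, bl a α (n + 2) v (rho v (n + 2) x)) +
          (∑ v ∈ PX K X, lam (mem a α x) v 1 / nm v) - LL N / 2 -
          ∑ v ∈ PX K X, xi a α (n + 2) v (rho v (n + 2) x) =
          ∑ v ∈ PX K X, (bl a α (n + 2) v (rho v (n + 2) x) +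
            tq a α (n + 2) 1 v (rho v (n + 2) x) / nm v - 1 / (2 * nm v) -
            xi a α (n + 2) v (rho v (n + 2) x)) + (MX K X - LL N) / 2 := by
        rw [Finset.sum_sub_distrib, Finset.sum_sub_distrib, Finset.sum_add_distrib, half_sum]
        simp only [lam_tq]
        ring
      rw [e1]
      refine (abs_add_le _ _).trans ?_
      have e2 : |(MX K X - LL N) / 2| ≤ C / 2 := by
        rw [abs_div, abs_two]
        linarith
      have e3 : |∑ v ∈ PX K X, (bl a α (n + 2) v (rho v (n + 2) x) +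
            tq a α (n + 2) 1 v (rho v (n + 2) x) / nm v - 1 / (2 * nm v) -
            xi a α (n + 2) v (rho v (n + 2) x))| ≤
          D₁ * S + ∑ v ∈ PX K X, bad a α (n + 2) v (rho v (n + 2) x) := by
        refine (Finset.abs_sum_le_sum_abs _ _).trans ?_
        refine (Finset.sum_le_sum fun v _ => hbl v _).trans ?_
        rw [Finset.sum_add_distrib]
        exact add_le_add (sum_S _ hD₁) le_rfl
      linarith)
  have e : (fun (N : ℕ) (x : Fin (n + 2) → 𝓞 K) => ((∑ v ∈ PX K ((N : ℝ) ^ c),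
      bl a α (n + 2) v (rho v (n + 2) x)) - (r + 1 / 2) * LL N) / √(LL N)) =
      fun N x => (√(LL N))⁻¹ * ((∑ v ∈ PX K ((N : ℝ) ^ c), -lam (mem a α x) v 1 / nm v) +
      ((∑ v ∈ PX K ((N : ℝ) ^ c), bl a α (n + 2) v (rho v (n + 2) x)) +
        (∑ v ∈ PX K ((N : ℝ) ^ c), lam (mem a α x) v 1 / nm v) - LL N / 2) - r * LL N) := by
    funext N x
    rw [div_eq_inv_mul]
    congr 1
    have : ∑ v ∈ PX K ((N : ℝ) ^ c), -lam (mem a α x) v 1 / nm v =
        -∑ v ∈ PX K ((N : ℝ) ^ c), lam (mem a α x) v 1 / nm v := by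
      rw [← Finset.sum_neg_distrib]
      exact Finset.sum_congr rfl fun v _ => neg_div _ _
    rw [this]
    ring
  rw [e]
  exact h1

/-! ### The Jacobians -/

/-- the logarithm of the Euler factor at `s = 1` -/
noncomputable def jl (a : (𝓞 K)[X]) (α : Fin r → 𝓞 K) (n : ℕ) (v : HeightOneSpectrum (𝓞 K))
    (q : Fin n → 𝓞 K ⧸ v.asIdeal) : ℝ :=
  ∑' m : ℕ, tq a α n (m + 1) v q * ((nm v : ℝ)⁻¹) ^ (m + 1) / (m + 1)

theorem jl_near (ha : a.Monic) (hd : a.natDegree = 2 * g + 1) (hn : n + r ≤ 2 * g + 1) :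
    ∃ D : ℝ, 0 ≤ D ∧ ∀ (v : HeightOneSpectrum (𝓞 K)) (q : Fin n → 𝓞 K ⧸ v.asIdeal),
      |jl a α n v q - tq a α n 1 v q / nm v - tq a α n 2 v q / (2 * (nm v : ℝ) ^ 2)| ≤
        D * (nm v : ℝ) ^ (-(3 / 2) : ℝ) := by
  have hρ := rho_lt (show (1 / 2 : ℝ) < 1 by norm_num)
  set ρ : ℝ := (2 : ℝ) ^ (-((1 : ℝ) - 1 / 2)) with hρd
  have hρ' : 0 < 1 - ρ := by linarith
  refine ⟨2 * g * (1 - ρ)⁻¹, by positivity, fun v q => ?_⟩
  have hq := nm_pos v
  have hsq : 0 < √(nm v : ℝ) := Real.sqrt_pos.2 hq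
  have hz : ‖zz v 1‖ = (nm v : ℝ) ^ (-(1 / 2) : ℝ) := by
    rw [zz_norm]
    norm_num
  have hz1 : ‖zz v 1‖ ≤ ρ := by
    rw [hz, hρd]
    refine (Real.rpow_le_rpow_of_nonpos (by norm_num) (nm2 v) (by norm_num)).trans (le_of_eq ?_)
    norm_num
  have h1 := ss_two (tt_bd (α := α) ha hd hn v q) (hz1.trans_lt hρ)
  rw [← sl_eq] at h1
  have hzr : zz v 1 = (((√(nm v : ℝ))⁻¹ : ℝ) : ℂ) := by
    unfold zz
    rw [Complex.cpow_neg, Complex.cpow_one]
    have h2 : ((√(nm v : ℝ) : ℝ) : ℂ) ^ 2 = (nm v : ℂ) := by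
      rw [← Complex.ofReal_pow, Real.sq_sqrt hq.le]
      push_cast
      rfl
    have h3 : ((√(nm v : ℝ) : ℝ) : ℂ) ≠ 0 := by exact_mod_cast hsq.ne'
    rw [← h2]
    push_cast
    field_simp
  have e1 : sl a α v q 1 = ((jl a α n v q : ℝ) : ℂ) := by
    unfold sl jl tq
    rw [Complex.ofReal_tsum]
    refine tsum_congr fun m => ?_
    push_cast
    rw [Complex.cpow_neg, Complex.cpow_one]
  have e2 : (tt a α v q 0 : ℂ) * zz v 1 = ((tq a α n 1 v q / nm v : ℝ) : ℂ) := by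
    rw [hzr, ← Complex.ofReal_mul]
    congr 1
    unfold tt tq
    rw [zero_add, pow_one, ← div_eq_mul_inv, div_div, Real.mul_self_sqrt hq.le]
  have e3 : (tt a α v q 1 : ℂ) * zz v 1 ^ 2 / 2 =
      ((tq a α n 2 v q / (2 * (nm v : ℝ) ^ 2) : ℝ) : ℂ) := by
    rw [hzr]
    have : tt a α v q 1 * (√(nm v : ℝ))⁻¹ ^ 2 / 2 = tq a α n 2 v q / (2 * (nm v : ℝ) ^ 2) := by
      unfold tt tq
      rw [inv_pow, Real.sq_sqrt hq.le]
      field_simp
    rw [← this]
    push_cast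
    rfl
  rw [e1, e2, e3, ← Complex.ofReal_sub, ← Complex.ofReal_sub, Complex.norm_real,
    Real.norm_eq_abs] at h1
  refine h1.trans ?_
  rw [mul_assoc (2 * (g : ℝ)) (1 - ρ)⁻¹]
  refine mul_le_mul_of_nonneg_left ?_ (by positivity)
  have hz3 : ‖zz v 1‖ ^ 3 = (nm v : ℝ) ^ (-(3 / 2) : ℝ) := by
    rw [hz, ← Real.rpow_natCast, ← Real.rpow_mul hq.le]
    norm_num
  rw [hz3, div_eq_inv_mul]
  exact mul_le_mul_of_nonneg_right (inv_anti₀ hρ' (by linarith)) (by positivity)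

/-- the second-order term -/
noncomputable def xj (a : (𝓞 K)[X]) (α : Fin r → 𝓞 K) (n : ℕ) (v : HeightOneSpectrum (𝓞 K))
    (q : Fin n → 𝓞 K ⧸ v.asIdeal) : ℝ :=
  -(tq a α n 2 v q + nm v) / (2 * (nm v : ℝ) ^ 2)

theorem xj_bd (ha : a.Monic) (hd : a.natDegree = 2 * g + 1) (hn : n + r ≤ 2 * g + 1)
    (v : HeightOneSpectrum (𝓞 K)) (q : Fin n → 𝓞 K ⧸ v.asIdeal) :
    |xj a α n v q| ≤ (1 + 2 * g) / nm v := by
  have hq := nm_pos v
  unfold xj
  rw [abs_div, abs_of_pos (show (0 : ℝ) < 2 * (nm v : ℝ) ^ 2 by positivity),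
    div_le_div_iff₀ (by positivity) hq, abs_neg]
  have h1 := tq_bd (α := α) ha hd hn v (m := 2) (by norm_num) q
  rw [Real.sq_sqrt hq.le] at h1
  have h3 : |tq a α n 2 v q + nm v| ≤ (1 + 2 * g) * nm v := by
    refine (abs_add_le _ _).trans ?_
    rw [abs_of_pos hq]
    linarith
  calc |tq a α n 2 v q + nm v| * (nm v : ℝ) ≤ (1 + 2 * g) * nm v * nm v :=
        mul_le_mul_of_nonneg_right h3 hq.le
    _ ≤ _ := by
        have : (0 : ℝ) ≤ (1 + 2 * g) * (nm v : ℝ) ^ 2 := by positivity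
        nlinarith

theorem xj_av {C₂ : ℝ} (h2 : ∀ v : HeightOneSpectrum (𝓞 K), |Ev a α n v 2 + nm v| ≤ C₂)
    (v : HeightOneSpectrum (𝓞 K)) :
    |av v (xj a α n v)| ≤ |C₂| * (nm v : ℝ) ^ (-(3 / 2) : ℝ) := by
  have hq := nm_pos v
  have hqn : (0 : ℝ) < (nm v : ℝ) ^ n := by positivity
  have h3 : av v (xj a α n v) = -(Ev a α n v 2 + nm v) / (2 * (nm v : ℝ) ^ 2) := by
    have h6 := av_tq (a := a) (α := α) (n := n) v 2
    unfold av at h6 ⊢
    rw [div_eq_iff hqn.ne'] at h6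
    unfold xj
    rw [← Finset.sum_div, Finset.sum_neg_distrib, Finset.sum_add_distrib, h6, Finset.sum_const,
      card_univ, card_loc, nsmul_eq_mul]
    push_cast
    field_simp
  rw [h3, abs_div, abs_of_pos (show (0 : ℝ) < 2 * (nm v : ℝ) ^ 2 by positivity), abs_neg,
    div_eq_mul_inv]
  refine mul_le_mul ((h2 v).trans (le_abs_self _)) ?_ (by positivity) (abs_nonneg _)
  refine le_trans ?_ (rp_two v)
  refine inv_anti₀ (by positivity) ?_
  have : 0 ≤ (nm v : ℝ) ^ 2 := by positivity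
  linarith

/-- the Jacobians -/
theorem clt_jac {y : Fin r → 𝓞 K} (ha : a.Monic) (hd : a.natDegree = 2 * g + 1)
    (hn : n + 2 + r = 2 * g + 1) (hα : Function.Injective α) (hy : ∀ j, a.eval (α j) = y j ^ 2)
    (hy0 : ∀ j, y j ≠ 0) {c : ℝ} (hc : 0 < c) (hc3 : c < 1 / 3) :
    IsNormal b fun N (x : Fin (n + 2) → 𝓞 K) => ((∑ v ∈ PX K ((N : ℝ) ^ c),
      -jl a α (n + 2) v (rho v (n + 2) x)) - (r + 1 / 2) * LL N) / √(LL N) := by
  obtain ⟨C', -, hC3⟩ := ev_asym ha hd hn hα hy hy0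
  obtain ⟨D₁, hD₁, hjl⟩ := jl_near (α := α) ha hd hn.le
  obtain ⟨C, hC⟩ := MX_pow K hc
  set S : ℝ := ∑' v : HeightOneSpectrum (𝓞 K), (nm v : ℝ) ^ (-(3 / 2) : ℝ) with hS
  set D : ℝ := (1 + 2 * g) + |C'| with hD
  have hD0 : 0 ≤ D := by positivity
  have h1 := clt_gen (b := b) (R := fun N x => (∑ v ∈ PX K ((N : ℝ) ^ c),
    -jl a α (n + 2) v (rho v (n + 2) x)) + (∑ v ∈ PX K ((N : ℝ) ^ c),
    lam (mem a α x) v 1 / nm v) - LL N / 2) ha hd hn hα hy hy0 hc hc3 (by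
    refine pert (b := b) hc hc3 (ξ := xj a α (n + 2)) (ζ := fun _ _ => 0) (D := D)
      (D' := D₁ * S + C / 2) hD0 (fun v q => ?_) (fun v => ?_) (fun v q => ?_) (fun v => ?_) ?_
    · refine (xj_bd ha hd hn.le v q).trans ?_
      refine div_le_div_of_nonneg_right ?_ (nm_pos v).le
      rw [hD]
      have := abs_nonneg C'
      linarith
    · refine (xj_av hC3 v).trans (mul_le_mul_of_nonneg_right ?_ (by positivity))
      rw [hD]
      have : (0 : ℝ) ≤ 1 + 2 * g := by positivity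
      linarith
    · have := nm_pos v
      simp only [abs_zero]
      positivity
    · unfold av
      simp only [Finset.sum_const_zero, zero_div]
      positivity
    · filter_upwards [hC] with N hN x
      set X : ℝ := (N : ℝ) ^ c with hX
      have e1 : (∑ v ∈ PX K X, -jl a α (n + 2) v (rho v (n + 2) x)) +
          (∑ v ∈ PX K X, lam (mem a α x) v 1 / nm v) - LL N / 2 -
          ∑ v ∈ PX K X, xj a α (n + 2) v (rho v (n + 2) x) =
          -(∑ v ∈ PX K X, (jl a α (n + 2) v (rho v (n + 2) x) -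
            tq a α (n + 2) 1 v (rho v (n + 2) x) / nm v -
            tq a α (n + 2) 2 v (rho v (n + 2) x) / (2 * (nm v : ℝ) ^ 2))) +
            (MX K X - LL N) / 2 := by
        have e4 : ∑ v ∈ PX K X, xj a α (n + 2) v (rho v (n + 2) x) =
            -(∑ v ∈ PX K X, tq a α (n + 2) 2 v (rho v (n + 2) x) / (2 * (nm v : ℝ) ^ 2)) -
              MX K X / 2 := by
          rw [← half_sum, ← Finset.sum_neg_distrib, ← Finset.sum_sub_distrib]
          refine Finset.sum_congr rfl fun v _ => ?_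
          unfold xj
          have := nm_pos v
          field_simp
          ring
        rw [e4, Finset.sum_sub_distrib, Finset.sum_sub_distrib, Finset.sum_neg_distrib]
        simp only [lam_tq]
        ring
      rw [e1, Finset.sum_const_zero, add_zero]
      refine (abs_add_le _ _).trans ?_
      rw [abs_neg]
      have e2 : |(MX K X - LL N) / 2| ≤ C / 2 := by
        rw [abs_div, abs_two]
        linarith
      refine add_le_add ?_ e2
      refine (Finset.abs_sum_le_sum_abs _ _).trans ?_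
      refine (Finset.sum_le_sum fun v _ => hjl v _).trans (sum_S _ hD₁))
  have e : (fun (N : ℕ) (x : Fin (n + 2) → 𝓞 K) => ((∑ v ∈ PX K ((N : ℝ) ^ c),
      -jl a α (n + 2) v (rho v (n + 2) x)) - (r + 1 / 2) * LL N) / √(LL N)) =
      fun N x => (√(LL N))⁻¹ * ((∑ v ∈ PX K ((N : ℝ) ^ c), -lam (mem a α x) v 1 / nm v) +
      ((∑ v ∈ PX K ((N : ℝ) ^ c), -jl a α (n + 2) v (rho v (n + 2) x)) +
        (∑ v ∈ PX K ((N : ℝ) ^ c), lam (mem a α x) v 1 / nm v) - LL N / 2) - r * LL N) := by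
    funext N x
    rw [div_eq_inv_mul]
    congr 1
    have : ∑ v ∈ PX K ((N : ℝ) ^ c), -lam (mem a α x) v 1 / nm v =
        -∑ v ∈ PX K ((N : ℝ) ^ c), lam (mem a α x) v 1 / nm v := by
      rw [← Finset.sum_neg_distrib]
      exact Finset.sum_congr rfl fun v _ => neg_div _ _
    rw [this]
    ring
  rw [e]
  exact h1

end Pool.Agent.W5h26.CL
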