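import Pool.Agent.W5h26.CL.Mom

/-!
# Taylor expansions of characteristic functions
-/

set_option autoImplicit false
set_option linter.unusedSectionVars false
set_option maxHeartbeats 400000

open Filter Topology Finset Complex

namespace Pool.Agent.W5h26.CL

open Pool.Agent.W5h26.AO

theorem taylor_nonneg (k : ℕ) : ∀ x : ℝ, 0 ≤ x →
    ‖cexp (x * I) - ∑ m ∈ range k, ((x : ℂ) * I) ^ m / (m.factorial : ℂ)‖ ≤
      x ^ k / (k.factorial : ℝ) := by
  induction k with
  | zero =>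
    intro x _
    simp [Complex.norm_exp_ofReal_mul_I]
  | succ k ih =>
    intro x hx
    have hder : ∀ y : ℝ, HasDerivAt (fun y : ℝ => cexp (y * I) -
        ∑ m ∈ range (k + 1), ((y : ℂ) * I) ^ m / (m.factorial : ℂ))
        (I * (cexp (y * I) - ∑ m ∈ range k, ((y : ℂ) * I) ^ m / (m.factorial : ℂ))) y := by
      intro y
      have h1 : HasDerivAt (fun y : ℝ => (y : ℂ) * I) (1 * I) y :=
        (Complex.ofRealCLM.hasDerivAt (x := y)).mul_const I
      have h2 := h1.cexp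
      have h3 : HasDerivAt (fun y : ℝ => ∑ m ∈ range (k + 1), ((y : ℂ) * I) ^ m /
          (m.factorial : ℂ)) (∑ m ∈ range (k + 1), (m : ℂ) * ((y : ℂ) * I) ^ (m - 1) * (1 * I) /
            (m.factorial : ℂ)) y := by
        refine HasDerivAt.fun_sum fun m _ => ?_
        exact (h1.pow m).div_const _
      have h4 := h2.sub h3
      refine h4.congr_deriv ?_
      rw [Finset.sum_range_succ', mul_sub, Finset.mul_sum]
      simp only [Nat.cast_zero, zero_mul, zero_div, add_zero, Nat.add_sub_cancel]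
      congr 1
      · ring
      · refine Finset.sum_congr rfl fun m _ => ?_
        rw [Nat.factorial_succ]
        have h5 : ((m + 1 : ℕ) : ℂ) ≠ 0 := by exact_mod_cast Nat.succ_ne_zero m
        have h6 : ((m.factorial : ℕ) : ℂ) ≠ 0 := by exact_mod_cast Nat.factorial_ne_zero m
        push_cast at h5 ⊢
        field_simp
    have hB : ∀ y : ℝ, HasDerivAt (fun y : ℝ => y ^ (k + 1) / ((k + 1).factorial : ℝ))
        (y ^ k / (k.factorial : ℝ)) y := by
      intro y
      have h1 := (hasDerivAt_pow (k + 1) y).div_const ((k + 1).factorial : ℝ)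
      refine h1.congr_deriv ?_
      rw [Nat.factorial_succ]
      have h6 : ((k.factorial : ℕ) : ℝ) ≠ 0 := by exact_mod_cast Nat.factorial_ne_zero k
      push_cast
      field_simp
    have h := image_norm_le_of_norm_deriv_right_le_deriv_boundary (a := 0) (b := x)
      (f := fun y : ℝ => cexp (y * I) - ∑ m ∈ range (k + 1), ((y : ℂ) * I) ^ m / (m.factorial : ℂ))
      (f' := fun y : ℝ => I * (cexp (y * I) - ∑ m ∈ range k, ((y : ℂ) * I) ^ m / (m.factorial : ℂ)))
      (B := fun y : ℝ => y ^ (k + 1) / ((k + 1).factorial : ℝ))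
      (B' := fun y : ℝ => y ^ k / (k.factorial : ℝ))
      (fun y _ => (hder y).continuousAt.continuousWithinAt)
      (fun y _ => (hder y).hasDerivWithinAt) ?_ hB (fun y hy => ?_)
    · exact h ⟨hx, le_rfl⟩
    · rw [Finset.sum_range_succ']
      simp
    · rw [norm_mul, Complex.norm_I, one_mul]
      exact ih y hy.1

theorem taylor (k : ℕ) (x : ℝ) :
    ‖cexp (x * I) - ∑ m ∈ range k, ((x : ℂ) * I) ^ m / (m.factorial : ℂ)‖ ≤
      |x| ^ k / (k.factorial : ℝ) := by
  rcases le_total 0 x with h | h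
  · rw [abs_of_nonneg h]
    exact taylor_nonneg k x h
  · have h1 := taylor_nonneg k (-x) (by linarith)
    rw [abs_of_nonpos h]
    refine le_trans (le_of_eq ?_) h1
    rw [← Complex.norm_conj]
    congr 1
    rw [map_sub, ← Complex.exp_conj, map_sum]
    simp only [map_mul, map_div₀, map_pow, Complex.conj_ofReal, Complex.conj_I, map_natCast]
    push_cast
    simp only [neg_mul, mul_neg]

/-- the expansion of the mean of `exp (i θ Y)` -/
theorem four_mean {A : Type} [AddCommGroup A] (G : Finset A) (Y : A → ℝ) (θ : ℝ) (k : ℕ) :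
    ‖mean G (fun x => cexp ((θ * Y x : ℝ) * I)) -
      ∑ m ∈ range (2 * k), ((θ : ℂ) * I) ^ m / (m.factorial : ℂ) * mean G fun x => (Y x : ℂ) ^ m‖ ≤
      θ ^ (2 * k) / ((2 * k).factorial : ℝ) * ‖mean G fun x => (Y x : ℂ) ^ (2 * k)‖ := by
  have h1 : mean G (fun x => cexp ((θ * Y x : ℝ) * I)) -
      ∑ m ∈ range (2 * k), ((θ : ℂ) * I) ^ m / (m.factorial : ℂ) * mean G (fun x => (Y x : ℂ) ^ m) =
      mean G fun x => cexp ((θ * Y x : ℝ) * I) -
        ∑ m ∈ range (2 * k), (((θ * Y x : ℝ) : ℂ) * I) ^ m / (m.factorial : ℂ) := by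
    unfold mean
    rw [Finset.sum_sub_distrib, sub_div]
    congr 1
    rw [Finset.sum_comm, Finset.sum_div]
    refine Finset.sum_congr rfl fun m _ => ?_
    rw [← mul_div_assoc, Finset.mul_sum]
    congr 1
    refine Finset.sum_congr rfl fun x _ => ?_
    push_cast
    rw [mul_pow, mul_pow, mul_pow]
    ring
  rw [h1]
  refine (norm_mean_le _ _).trans ?_
  have h2 : (fun x => (Y x : ℂ) ^ (2 * k)) = fun x => ((Y x ^ (2 * k) : ℝ) : ℂ) := by
    funext x
    push_cast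
    rfl
  rw [h2, mean_real, Complex.norm_real, Real.norm_eq_abs, abs_of_nonneg (rmean_nonneg fun x _ => by
    rw [pow_mul]; positivity)]
  have h3 : θ ^ (2 * k) / ((2 * k).factorial : ℝ) * rmean G (fun x => Y x ^ (2 * k)) =
      rmean G fun x => θ ^ (2 * k) / ((2 * k).factorial : ℝ) * Y x ^ (2 * k) := by
    unfold rmean
    rw [← mul_div_assoc, Finset.mul_sum]
  rw [h3]
  refine rmean_mono fun x _ => ?_
  refine (taylor (2 * k) (θ * Y x)).trans (le_of_eq ?_)
  rw [abs_mul, mul_pow, pow_mul, sq_abs, pow_mul |Y x|, sq_abs, ← pow_mul, ← pow_mul]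
  ring

/-- products of numbers of absolute value at most one -/
theorem prod_sub_prod {σ : Type} (S : Finset σ) (a c : σ → ℂ) (ha : ∀ i ∈ S, ‖a i‖ ≤ 1)
    (hc : ∀ i ∈ S, ‖c i‖ ≤ 1) : ‖∏ i ∈ S, a i - ∏ i ∈ S, c i‖ ≤ ∑ i ∈ S, ‖a i - c i‖ := by
  classical
  induction S using Finset.induction_on with
  | empty => simp
  | insert i S hi ih =>
    rw [prod_insert hi, prod_insert hi, sum_insert hi]
    have h1 := ih (fun j hj => ha j (mem_insert_of_mem hj)) fun j hj => hc j (mem_insert_of_mem hj)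
    have h2 : a i * ∏ j ∈ S, a j - c i * ∏ j ∈ S, c j =
        (a i - c i) * ∏ j ∈ S, a j + c i * (∏ j ∈ S, a j - ∏ j ∈ S, c j) := by ring
    rw [h2]
    refine (norm_add_le _ _).trans (add_le_add ?_ ?_)
    · rw [norm_mul]
      refine mul_le_of_le_one_right (norm_nonneg _) ?_
      rw [norm_prod]
      exact Finset.prod_le_one (fun j _ => norm_nonneg _) fun j hj => ha j (mem_insert_of_mem hj)
    · rw [norm_mul]
      exact (mul_le_of_le_one_left (norm_nonneg _) (hc i (mem_insert_self _ _))).trans h1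

section loc

variable {Ω : Type} [Fintype Ω] [Nonempty Ω]

/-- the characteristic function of a small centred variable -/
theorem loc_char {ψ : Ω → ℝ} (h0 : ∑ x, ψ x = 0) {β : ℝ} (hβ : ∀ x, |ψ x| ≤ β) (t : ℝ) :
    ‖(∑ x, cexp ((t * ψ x : ℝ) * I)) / (Fintype.card Ω : ℂ) -
      cexp (-((t ^ 2 * ((∑ x, ψ x ^ 2) / (Fintype.card Ω : ℝ)) / 2 : ℝ) : ℂ))‖ ≤
      |t| ^ 3 * β ^ 3 + t ^ 4 * β ^ 4 := by
  have hc : (0 : ℝ) < Fintype.card Ω := by exact_mod_cast Fintype.card_pos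
  have hc' : (Fintype.card Ω : ℂ) ≠ 0 := by exact_mod_cast hc.ne'
  have hβ0 : 0 ≤ β := (abs_nonneg _).trans (hβ (Classical.arbitrary Ω))
  set σ : ℝ := (∑ x, ψ x ^ 2) / (Fintype.card Ω : ℝ) with hσ
  have hσ0 : 0 ≤ σ := div_nonneg (Finset.sum_nonneg fun x _ => sq_nonneg _) hc.le
  have hσ1 : σ ≤ β ^ 2 := by
    rw [hσ, div_le_iff₀ hc]
    refine (Finset.sum_le_card_nsmul _ _ (β ^ 2) fun x _ => ?_).trans (le_of_eq ?_)
    · rw [← sq_abs]
      exact pow_le_pow_left₀ (abs_nonneg _) (hβ x) 2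
    · rw [card_univ, nsmul_eq_mul, mul_comm]
  -- the first comparison
  have h1 : ‖(∑ x, cexp ((t * ψ x : ℝ) * I)) / (Fintype.card Ω : ℂ) -
      (1 - ((t ^ 2 * σ / 2 : ℝ) : ℂ))‖ ≤ |t| ^ 3 * β ^ 3 := by
    have h2 : (∑ x, cexp ((t * ψ x : ℝ) * I)) / (Fintype.card Ω : ℂ) -
        (1 - ((t ^ 2 * σ / 2 : ℝ) : ℂ)) = (∑ x, (cexp ((t * ψ x : ℝ) * I) -
          ∑ m ∈ range 3, (((t * ψ x : ℝ) : ℂ) * I) ^ m / (m.factorial : ℂ))) /
            (Fintype.card Ω : ℂ) := by
      have h3 : ∀ x, ∑ m ∈ range 3, (((t * ψ x : ℝ) : ℂ) * I) ^ m / (m.factorial : ℂ) =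
          1 + (t * I) * (ψ x : ℂ) - t ^ 2 / 2 * (ψ x : ℂ) ^ 2 := by
        intro x
        simp only [Finset.sum_range_succ, Finset.sum_range_zero, Nat.factorial]
        push_cast
        have e : ((t : ℂ) * (ψ x) * I) ^ 2 = -((t : ℂ) ^ 2 * (ψ x : ℂ) ^ 2) := by
          rw [mul_pow, mul_pow, Complex.I_sq]
          ring
        rw [e]
        ring
      have h4 : ∑ x, (1 + ((t : ℂ) * I) * (ψ x : ℂ) - (t : ℂ) ^ 2 / 2 * (ψ x : ℂ) ^ 2) =
          (Fintype.card Ω : ℂ) - (t : ℂ) ^ 2 / 2 * ∑ x, (ψ x : ℂ) ^ 2 := by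
        rw [Finset.sum_sub_distrib, Finset.sum_add_distrib, ← Finset.mul_sum, ← Finset.mul_sum]
        have : ∑ x, (ψ x : ℂ) = 0 := by
          rw [← Complex.ofReal_sum, h0, Complex.ofReal_zero]
        rw [this, mul_zero, add_zero, Finset.sum_const, card_univ, nsmul_eq_mul, mul_one]
      rw [Finset.sum_sub_distrib, Finset.sum_congr rfl fun x _ => h3 x, h4, hσ]
      generalize ∑ x, cexp ((t * ψ x : ℝ) * I) = Z
      push_cast
      field_simp
    rw [h2, norm_div, Complex.norm_natCast, div_le_iff₀ hc]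
    refine (norm_sum_le _ _).trans ((Finset.sum_le_card_nsmul _ _ (|t| ^ 3 * β ^ 3)
      fun x _ => ?_).trans (le_of_eq ?_))
    · refine (taylor 3 (t * ψ x)).trans ?_
      rw [abs_mul, mul_pow]
      have h5 : |ψ x| ^ 3 ≤ β ^ 3 := pow_le_pow_left₀ (abs_nonneg _) (hβ x) 3
      have h6 : |t| ^ 3 * |ψ x| ^ 3 ≤ |t| ^ 3 * β ^ 3 := mul_le_mul_of_nonneg_left h5 (by positivity)
      refine (div_le_self (by positivity) ?_).trans h6
      norm_num [Nat.factorial]
    · rw [card_univ, nsmul_eq_mul, mul_comm]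
  -- the second comparison
  have h2 : ‖(1 - ((t ^ 2 * σ / 2 : ℝ) : ℂ)) - cexp (-((t ^ 2 * σ / 2 : ℝ) : ℂ))‖ ≤
      t ^ 4 * β ^ 4 := by
    set y : ℝ := t ^ 2 * σ / 2 with hy
    have hy0 : 0 ≤ y := by positivity
    have h3 : (1 - (y : ℂ)) - cexp (-(y : ℂ)) = ((1 - y - Real.exp (-y) : ℝ) : ℂ) := by
      push_cast
      rfl
    have h5 : |1 - y - Real.exp (-y)| ≤ y ^ 2 := by
      have e1 := Real.add_one_le_exp (-y)
      have e2 : Real.exp (-y) ≤ 1 - y + y ^ 2 := by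
        rcases le_or_gt y 1 with h | h
        · have h6 := Real.abs_exp_sub_one_sub_id_le (x := -y) (by rw [abs_neg, abs_of_nonneg hy0]; exact h)
          have := (abs_le.1 h6).2
          nlinarith
        · have h6 : Real.exp (-y) ≤ 1 := Real.exp_le_one_iff.2 (by linarith)
          nlinarith
      rw [abs_le]
      constructor <;> nlinarith
    rw [h3, Complex.norm_real, Real.norm_eq_abs]
    refine h5.trans ?_
    have h6 : y ≤ t ^ 2 * β ^ 2 := by
      rw [hy]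
      have := mul_le_mul_of_nonneg_left hσ1 (sq_nonneg t)
      have h7 : 0 ≤ t ^ 2 * σ := by positivity
      linarith
    calc y ^ 2 ≤ (t ^ 2 * β ^ 2) ^ 2 := pow_le_pow_left₀ hy0 h6 2
      _ = _ := by ring
  calc _ = ‖((∑ x, cexp ((t * ψ x : ℝ) * I)) / (Fintype.card Ω : ℂ) -
      (1 - ((t ^ 2 * σ / 2 : ℝ) : ℂ))) +
        ((1 - ((t ^ 2 * σ / 2 : ℝ) : ℂ)) - cexp (-((t ^ 2 * σ / 2 : ℝ) : ℂ)))‖ := by
        congr 1
        ring
    _ ≤ _ := (norm_add_le _ _).trans (add_le_add h1 h2)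

theorem loc_char_norm (ψ : Ω → ℝ) (t : ℝ) :
    ‖(∑ x, cexp ((t * ψ x : ℝ) * I)) / (Fintype.card Ω : ℂ)‖ ≤ 1 := by
  have hc : (0 : ℝ) < Fintype.card Ω := by exact_mod_cast Fintype.card_pos
  rw [norm_div, Complex.norm_natCast, div_le_one hc]
  refine (norm_sum_le _ _).trans ?_
  simp only [Complex.norm_exp_ofReal_mul_I]
  simp

/-- the exponential moments of a small centred variable -/
theorem loc_exp {ψ : Ω → ℝ} (h0 : ∑ x, ψ x = 0) {β : ℝ} (hβ : ∀ x, |ψ x| ≤ β) (t : ℝ) :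
    (∑ x, Real.exp (t * ψ x)) / (Fintype.card Ω : ℝ) ≤
      Real.exp (t ^ 2 * β ^ 2 * Real.exp (|t| * β)) := by
  have hc : (0 : ℝ) < Fintype.card Ω := by exact_mod_cast Fintype.card_pos
  have hβ0 : 0 ≤ β := (abs_nonneg _).trans (hβ (Classical.arbitrary Ω))
  have h1 : ∀ x, Real.exp (t * ψ x) ≤ 1 + t * ψ x + t ^ 2 * β ^ 2 * Real.exp (|t| * β) := by
    intro x
    have h2 := Complex.norm_exp_sub_sum_le_norm_mul_exp ((t * ψ x : ℝ) : ℂ) 2
    have h3 : ∑ m ∈ range 2, ((t * ψ x : ℝ) : ℂ) ^ m / (m.factorial : ℂ) =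
        ((1 + t * ψ x : ℝ) : ℂ) := by
      simp [Finset.sum_range_succ, Nat.factorial]
    rw [h3, ← Complex.ofReal_exp, ← Complex.ofReal_sub, Complex.norm_real, Complex.norm_real,
      Real.norm_eq_abs, Real.norm_eq_abs] at h2
    have h4 := (abs_le.1 h2).2
    have h5 : |t * ψ x| ≤ |t| * β := by
      rw [abs_mul]
      exact mul_le_mul_of_nonneg_left (hβ x) (abs_nonneg _)
    have h6 : |t * ψ x| ^ 2 * Real.exp |t * ψ x| ≤ (|t| * β) ^ 2 * Real.exp (|t| * β) :=
      mul_le_mul (pow_le_pow_left₀ (abs_nonneg _) h5 2) (Real.exp_le_exp.2 h5) (Real.exp_pos _).le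
        (by positivity)
    rw [mul_pow |t|, sq_abs t] at h6
    linarith
  have h2 : (∑ x, Real.exp (t * ψ x)) / (Fintype.card Ω : ℝ) ≤
      1 + t ^ 2 * β ^ 2 * Real.exp (|t| * β) := by
    rw [div_le_iff₀ hc]
    refine (Finset.sum_le_sum fun x _ => h1 x).trans (le_of_eq ?_)
    rw [Finset.sum_add_distrib, Finset.sum_add_distrib, ← Finset.mul_sum, h0, mul_zero, add_zero,
      Finset.sum_const, Finset.sum_const, card_univ, nsmul_eq_mul, nsmul_eq_mul]
    ring
  refine h2.trans ?_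
  have := Real.add_one_le_exp (t ^ 2 * β ^ 2 * Real.exp (|t| * β))
  linarith

end loc

end Pool.Agent.W5h26.CL
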