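import Pool.Agent.W5h26.CL.Four
import Pool.Agent.W5h26.CL.Asym

/-!
# The central limit theorem for sums of local functions over boxes
-/

set_option autoImplicit false
set_option linter.unusedSectionVars false
set_option maxHeartbeats 400000

open Filter Topology Finset Complex
open NumberField IsDedekindDomain Pool.Agent.H921R2.TatePole

namespace Pool.Agent.W5h26.CL

open Pool.Agent.W5h26.EP Pool.Agent.W5h26.AO

variable {K : Type} [Field K] [NumberField K] {n : ℕ} {κ : Type} [Fintype κ] [DecidableEq κ]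
  {b : Module.Basis κ ℤ (𝓞 K)}

/-- small centred local functions of variance close to `1 / q_v` -/
structure Loc (ψ : ∀ v : HeightOneSpectrum (𝓞 K), (Fin n → 𝓞 K ⧸ v.asIdeal) → ℝ) (B C : ℝ) :
    Prop where
  zero : ∀ v, ∑ h, ψ v h = 0
  bd : ∀ v h, |ψ v h| ≤ B / √(nm v : ℝ)
  var : ∀ v, |av v (fun h => ψ v h ^ 2) - (nm v : ℝ)⁻¹| ≤ C * (nm v : ℝ) ^ (-(3 / 2) : ℝ)

theorem card_loc (v : HeightOneSpectrum (𝓞 K)) (n : ℕ) :
    Fintype.card (Fin n → 𝓞 K ⧸ v.asIdeal) = nm v ^ n := by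
  rw [Fintype.card_fun, Fintype.card_fin, card_q]

/-- the local characteristic function -/
noncomputable def cv (ψ : ∀ v : HeightOneSpectrum (𝓞 K), (Fin n → 𝓞 K ⧸ v.asIdeal) → ℝ)
    (v : HeightOneSpectrum (𝓞 K)) (t : ℝ) : ℂ :=
  (∑ h, cexp ((t * ψ v h : ℝ) * I)) / (nm v : ℂ) ^ n

/-- the local exponential moment -/
noncomputable def ev (ψ : ∀ v : HeightOneSpectrum (𝓞 K), (Fin n → 𝓞 K ⧸ v.asIdeal) → ℝ)
    (v : HeightOneSpectrum (𝓞 K)) (t : ℝ) : ℝ :=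
  (∑ h, Real.exp (t * ψ v h)) / (nm v : ℝ) ^ n

variable {ψ : ∀ v : HeightOneSpectrum (𝓞 K), (Fin n → 𝓞 K ⧸ v.asIdeal) → ℝ} {B C : ℝ}

theorem char_lim (T : Finset (HeightOneSpectrum (𝓞 K))) (t : ℝ) :
    Tendsto (fun M => mean (fo b n M) fun h => cexp ((t * ∑ v ∈ T, ψ v (rho v n h) : ℝ) * I)) atTop
      (𝓝 (∏ v ∈ T, cv ψ v t)) := by
  have h1 := mean_prod (fo_folner b n) T fun v h => cexp ((t * ψ v h : ℝ) * I)
  unfold cv
  refine h1.congr fun M => ?_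
  congr 1
  funext h
  rw [← Complex.exp_sum]
  congr 1
  push_cast
  rw [Finset.mul_sum, Finset.sum_mul]

theorem exp_lim (T : Finset (HeightOneSpectrum (𝓞 K))) (t : ℝ) :
    Tendsto (fun M => rmean (fo b n M) fun h => Real.exp (t * ∑ v ∈ T, ψ v (rho v n h))) atTop
      (𝓝 (∏ v ∈ T, ev ψ v t)) := by
  have h1 := mean_prod (fo_folner b n) T fun v h => ((Real.exp (t * ψ v h) : ℝ) : ℂ)
  have h2 : ∀ M, mean (fo b n M) (fun h => ∏ v ∈ T, ((Real.exp (t * ψ v (rho v n h)) : ℝ) : ℂ)) =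
      ((rmean (fo b n M) fun h => Real.exp (t * ∑ v ∈ T, ψ v (rho v n h)) : ℝ) : ℂ) := by
    intro M
    rw [← mean_real]
    congr 1
    funext h
    rw [Finset.mul_sum, Real.exp_sum]
    push_cast
    rfl
  simp only [h2] at h1
  have h3 : ∏ v ∈ T, (∑ h' : Fin n → 𝓞 K ⧸ v.asIdeal, ((Real.exp (t * ψ v h') : ℝ) : ℂ)) /
      (nm v : ℂ) ^ n = ((∏ v ∈ T, ev ψ v t : ℝ) : ℂ) := by
    unfold ev
    push_cast
    rfl
  rw [h3] at h1
  exact (Complex.continuous_re.tendsto _).comp h1 |>.congr fun M => by simp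

section
variable (h : Loc ψ B C)
include h

theorem Loc.bd2 (v : HeightOneSpectrum (𝓞 K)) (q : Fin n → 𝓞 K ⧸ v.asIdeal) : |ψ v q| ≤ B := by
  have h1 : (1 : ℝ) ≤ √(nm v : ℝ) := Real.one_le_sqrt.2 (nm1 v)
  have h2 := h.bd v q
  have hB : 0 ≤ B / √(nm v : ℝ) := (abs_nonneg _).trans h2
  refine h2.trans ?_
  rw [div_le_iff₀ (by linarith)]
  have h3 : 0 ≤ B := by
    by_contra h4
    push Not at h4
    have : B / √(nm v : ℝ) < 0 := div_neg_of_neg_of_pos h4 (by linarith)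
    linarith
  nlinarith

theorem Loc.B0 (v : HeightOneSpectrum (𝓞 K)) : 0 ≤ B := (abs_nonneg _).trans (h.bd2 v 0)

theorem char_near (T : Finset (HeightOneSpectrum (𝓞 K))) (t : ℝ) :
    ‖∏ v ∈ T, cv ψ v t - cexp (-((t ^ 2 * (∑ v ∈ T, av v (fun q => ψ v q ^ 2)) / 2 : ℝ) : ℂ))‖ ≤
      (|t| ^ 3 * |B| ^ 3 + t ^ 4 * |B| ^ 4) * ∑' v : HeightOneSpectrum (𝓞 K),
        (nm v : ℝ) ^ (-(3 / 2) : ℝ) := by
  have hS : Summable fun v : HeightOneSpectrum (𝓞 K) => (nm v : ℝ) ^ (-(3 / 2) : ℝ) :=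
    nm_summable (K := K) (by norm_num)
  have e1 : cexp (-((t ^ 2 * (∑ v ∈ T, av v (fun q => ψ v q ^ 2)) / 2 : ℝ) : ℂ)) =
      ∏ v ∈ T, cexp (-((t ^ 2 * av v (fun q => ψ v q ^ 2) / 2 : ℝ) : ℂ)) := by
    rw [← Complex.exp_sum, Finset.sum_neg_distrib]
    congr 2
    rw [← Complex.ofReal_sum, ← Finset.sum_div, Finset.mul_sum]
  rw [e1]
  refine (prod_sub_prod T _ _ (fun v _ => ?_) (fun v _ => ?_)).trans ?_
  · have := loc_char_norm (ψ v) t
    rw [card_loc] at this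
    unfold cv
    push_cast at this ⊢
    exact this
  · rw [← Complex.ofReal_neg, Complex.norm_exp_ofReal]
    refine Real.exp_le_one_iff.2 ?_
    have : 0 ≤ av v (fun q => ψ v q ^ 2) := by
      unfold av
      have := nm_pos v
      exact div_nonneg (Finset.sum_nonneg fun h _ => sq_nonneg _) (by positivity)
    have h2 : 0 ≤ t ^ 2 * av v (fun q => ψ v q ^ 2) := by positivity
    linarith
  · have h1 : ∀ v ∈ T, ‖cv ψ v t - cexp (-((t ^ 2 * av v (fun q => ψ v q ^ 2) / 2 : ℝ) : ℂ))‖ ≤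
        (|t| ^ 3 * |B| ^ 3 + t ^ 4 * |B| ^ 4) * (nm v : ℝ) ^ (-(3 / 2) : ℝ) := by
      intro v _
      have h2 := loc_char (h.zero v) (h.bd v) t
      rw [card_loc] at h2
      have h3 : ‖cv ψ v t - cexp (-((t ^ 2 * av v (fun q => ψ v q ^ 2) / 2 : ℝ) : ℂ))‖ ≤
          |t| ^ 3 * (B / √(nm v : ℝ)) ^ 3 + t ^ 4 * (B / √(nm v : ℝ)) ^ 4 := by
        unfold cv av
        push_cast at h2 ⊢
        exact h2
      refine h3.trans ?_
      have hq := nm_pos v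
      have hB := h.B0 v
      have hsq : √(nm v : ℝ) = (nm v : ℝ) ^ (1 / 2 : ℝ) := Real.sqrt_eq_rpow _
      have e3 : (B / √(nm v : ℝ)) ^ 3 = |B| ^ 3 * (nm v : ℝ) ^ (-(3 / 2) : ℝ) := by
        rw [div_pow, abs_of_nonneg hB, hsq, ← Real.rpow_natCast ((nm v : ℝ) ^ (1 / 2 : ℝ)) 3,
          ← Real.rpow_mul hq.le, Real.rpow_neg hq.le, div_eq_mul_inv]
        norm_num
      have e4 : (B / √(nm v : ℝ)) ^ 4 ≤ |B| ^ 4 * (nm v : ℝ) ^ (-(3 / 2) : ℝ) := by
        have : (B / √(nm v : ℝ)) ^ 4 = |B| ^ 4 * (nm v : ℝ) ^ (-2 : ℝ) := by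
          rw [div_pow, abs_of_nonneg hB, hsq, ← Real.rpow_natCast ((nm v : ℝ) ^ (1 / 2 : ℝ)) 4,
            ← Real.rpow_mul hq.le, Real.rpow_neg hq.le, div_eq_mul_inv]
          norm_num
        rw [this]
        refine mul_le_mul_of_nonneg_left ?_ (by positivity)
        exact Real.rpow_le_rpow_of_exponent_le (nm1 v) (by norm_num)
      rw [e3, add_mul]
      have := mul_le_mul_of_nonneg_left e4 (show 0 ≤ t ^ 4 by positivity)
      linarith
    refine (Finset.sum_le_sum h1).trans ?_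
    rw [← Finset.mul_sum]
    refine mul_le_mul_of_nonneg_left ?_ (by positivity)
    exact hS.sum_le_tsum _ fun v _ => by positivity

theorem var_near (T : Finset (HeightOneSpectrum (𝓞 K))) :
    |∑ v ∈ T, av v (fun q => ψ v q ^ 2) - ∑ v ∈ T, (nm v : ℝ)⁻¹| ≤
      |C| * ∑' v : HeightOneSpectrum (𝓞 K), (nm v : ℝ) ^ (-(3 / 2) : ℝ) := by
  have hS : Summable fun v : HeightOneSpectrum (𝓞 K) => (nm v : ℝ) ^ (-(3 / 2) : ℝ) :=
    nm_summable (K := K) (by norm_num)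
  rw [← Finset.sum_sub_distrib]
  refine (Finset.abs_sum_le_sum_abs _ _).trans ((Finset.sum_le_sum fun v _ => h.var v).trans ?_)
  rw [← Finset.mul_sum]
  refine mul_le_mul (le_abs_self C) (hS.sum_le_tsum _ fun v _ => by positivity) ?_ (abs_nonneg _)
  exact Finset.sum_nonneg fun v _ => by positivity

theorem ev_le (T : Finset (HeightOneSpectrum (𝓞 K))) (t : ℝ) :
    ∏ v ∈ T, ev ψ v t ≤ Real.exp (t ^ 2 * B ^ 2 * Real.exp (|t| * |B|) * ∑ v ∈ T, (nm v : ℝ)⁻¹) := by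
  rw [Finset.mul_sum, Real.exp_sum]
  refine Finset.prod_le_prod (fun v _ => ?_) fun v _ => ?_
  · unfold ev
    have := nm_pos v
    exact div_nonneg (Finset.sum_nonneg fun h _ => (Real.exp_pos _).le) (by positivity)
  · have h1 := loc_exp (h.zero v) (h.bd v) t
    rw [card_loc] at h1
    have hB := h.B0 v
    have hq := nm_pos v
    have hs : (1 : ℝ) ≤ √(nm v : ℝ) := Real.one_le_sqrt.2 (nm1 v)
    have h2 : ev ψ v t ≤ Real.exp (t ^ 2 * (B / √(nm v : ℝ)) ^ 2 *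
        Real.exp (|t| * (B / √(nm v : ℝ)))) := by
      unfold ev
      push_cast at h1 ⊢
      exact h1
    refine h2.trans (Real.exp_le_exp.2 ?_)
    have e2 : (B / √(nm v : ℝ)) ^ 2 = B ^ 2 * (nm v : ℝ)⁻¹ := by
      rw [div_pow, Real.sq_sqrt hq.le, div_eq_mul_inv]
    have e3 : B / √(nm v : ℝ) ≤ |B| := by
      rw [abs_of_nonneg hB]
      exact div_le_self hB hs
    have e4 : Real.exp (|t| * (B / √(nm v : ℝ))) ≤ Real.exp (|t| * |B|) :=
      Real.exp_le_exp.2 (mul_le_mul_of_nonneg_left e3 (abs_nonneg t))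
    rw [e2]
    calc t ^ 2 * (B ^ 2 * (nm v : ℝ)⁻¹) * Real.exp (|t| * (B / √(nm v : ℝ)))
        ≤ t ^ 2 * (B ^ 2 * (nm v : ℝ)⁻¹) * Real.exp (|t| * |B|) :=
          mul_le_mul_of_nonneg_left e4 (by positivity)
      _ = _ := by ring

end

/-- the moments in the limit -/
theorem mom_le (T : Finset (HeightOneSpectrum (𝓞 K))) {t : ℝ} (ht : 0 < t) (k : ℕ) {μ : ℂ}
    (hμ : Tendsto (fun M => mean (fo b n M) fun h =>
      ((∑ v ∈ T, ψ v (rho v n h) : ℝ) : ℂ) ^ (2 * k)) atTop (𝓝 μ)) :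
    t ^ (2 * k) * ‖μ‖ ≤ ((2 * k).factorial : ℝ) * (∏ v ∈ T, ev ψ v t + ∏ v ∈ T, ev ψ v (-t)) := by
  have h1 : Tendsto (fun M => t ^ (2 * k) * ‖mean (fo b n M) fun h =>
      ((∑ v ∈ T, ψ v (rho v n h) : ℝ) : ℂ) ^ (2 * k)‖) atTop (𝓝 (t ^ (2 * k) * ‖μ‖)) :=
    hμ.norm.const_mul _
  have h2 := ((exp_lim (b := b) (ψ := ψ) T t).add (exp_lim (b := b) (ψ := ψ) T (-t))).const_mul
    ((2 * k).factorial : ℝ)
  refine le_of_tendsto_of_tendsto' h1 h2 fun M => ?_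
  have h3 : mean (fo b n M) (fun h => ((∑ v ∈ T, ψ v (rho v n h) : ℝ) : ℂ) ^ (2 * k)) =
      ((rmean (fo b n M) fun h => (∑ v ∈ T, ψ v (rho v n h)) ^ (2 * k) : ℝ) : ℂ) := by
    rw [← mean_real]
    congr 1
    funext h
    push_cast
    rfl
  rw [h3, Complex.norm_real, Real.norm_eq_abs, abs_of_nonneg (rmean_nonneg fun x _ => by
    rw [pow_mul]; positivity)]
  unfold rmean
  rw [← add_div, ← mul_div_assoc, ← mul_div_assoc]
  refine div_le_div_of_nonneg_right ?_ (Nat.cast_nonneg _)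
  rw [← Finset.sum_add_distrib, Finset.mul_sum, Finset.mul_sum]
  refine Finset.sum_le_sum fun h _ => ?_
  set S := ∑ v ∈ T, ψ v (rho v n h) with hS
  have hf : (0 : ℝ) < ((2 * k).factorial : ℝ) := by exact_mod_cast Nat.factorial_pos _
  have h4 := Real.pow_div_factorial_le_exp |t * S| (abs_nonneg _) (2 * k)
  rw [div_le_iff₀ hf, pow_mul, sq_abs, ← pow_mul, mul_pow] at h4
  have h5 : Real.exp |t * S| ≤ Real.exp (t * S) + Real.exp (-t * S) := by
    rcases abs_cases (t * S) with ⟨h6, -⟩ | ⟨h6, -⟩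
    · rw [h6]
      have := Real.exp_pos (-t * S)
      linarith
    · rw [h6, ← neg_mul]
      have := Real.exp_pos (t * S)
      linarith
  calc t ^ (2 * k) * S ^ (2 * k) ≤ Real.exp |t * S| * ((2 * k).factorial : ℝ) := h4
    _ ≤ (Real.exp (t * S) + Real.exp (-t * S)) * ((2 * k).factorial : ℝ) :=
      mul_le_mul_of_nonneg_right h5 hf.le
    _ = _ := by ring

end Pool.Agent.W5h26.CL
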