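import Pool.Agent.W5h26.AO.MomB

/-!
# Mertens' theorem for the prime ideals of a number field
-/

set_option autoImplicit false
set_option linter.unusedSectionVars false
set_option maxHeartbeats 400000

open MeasureTheory Filter Topology Complex Set
open NumberField IsDedekindDomain Pool.Agent.H921R2.TatePole

namespace Pool.Agent.W5h26.CL

open Pool.Agent.W5h26.EP Pool.Agent.W5h26.AO

variable {K : Type} [Field K] [NumberField K]

theorem finite_le (X : ℝ) : {v : HeightOneSpectrum (𝓞 K) | (nm v : ℝ) ≤ X}.Finite := by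
  have h1 : {I : Ideal (𝓞 K) | Ideal.absNorm I ≤ ⌊X⌋₊}.Finite := Ideal.finite_setOfPred_absNorm_le _
  refine Set.Finite.of_finite_image (f := fun v : HeightOneSpectrum (𝓞 K) => v.asIdeal)
    (h1.subset ?_) fun v _ w _ h => HeightOneSpectrum.ext h
  rintro _ ⟨v, hv, rfl⟩
  exact Nat.le_floor hv

/-- the primes of norm at most `X` -/
noncomputable def PX (K : Type) [Field K] [NumberField K] (X : ℝ) :
    Finset (HeightOneSpectrum (𝓞 K)) := (finite_le (K := K) X).toFinset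

theorem mem_PX {X : ℝ} {v : HeightOneSpectrum (𝓞 K)} : v ∈ PX K X ↔ (nm v : ℝ) ≤ X := by
  unfold PX
  rw [Set.Finite.mem_toFinset]
  rfl

/-- the sum of the reciprocals -/
noncomputable def MX (K : Type) [Field K] [NumberField K] (X : ℝ) : ℝ :=
  ∑ v ∈ PX K X, (nm v : ℝ)⁻¹

theorem pz_real {σ : ℝ} (hσ : 1 < σ) :
    HasSum (fun v : HeightOneSpectrum (𝓞 K) => (nm v : ℝ) ^ (-σ)) (PZ K σ).re := by
  have h1 := Complex.hasSum_re (pz_sum (K := K) (s := (σ : ℂ)) (by simpa using hσ))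
  refine h1.congr_fun ?_ |> fun h => h
  intro v
  rw [← Complex.ofReal_natCast, ← Complex.ofReal_neg, ← Complex.ofReal_cpow (nm_pos v).le,
    Complex.ofReal_re]

/-- the sum near `s = 1` -/
theorem pz_near : ∃ C : ℝ, ∀ δ : ℝ, 0 < δ → δ ≤ 1 → |(PZ K (1 + δ : ℝ)).re + Real.log δ| ≤ C := by
  obtain ⟨V, hV, hV0, hVe⟩ := exists_V K
  have hopen : IsOpen {s : ℂ | (1 / 2 : ℝ) < s.re} := isOpen_lt continuous_const Complex.continuous_re
  have hc : ContinuousOn (fun δ : ℝ => Real.log ‖V ((1 + δ : ℝ) : ℂ)‖) (Icc 0 1) := by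
    intro δ hδ
    have h1 : ContinuousAt V ((1 + δ : ℝ) : ℂ) := by
      refine (hV.differentiableAt (hopen.mem_nhds ?_)).continuousAt
      show (1 / 2 : ℝ) < ((1 + δ : ℝ) : ℂ).re
      rw [Complex.ofReal_re]
      linarith [hδ.1]
    have h2 : V ((1 + δ : ℝ) : ℂ) ≠ 0 := hV0 _ (by rw [Complex.ofReal_re]; linarith [hδ.1])
    have h3 : ContinuousAt (fun δ : ℝ => V ((1 + δ : ℝ) : ℂ)) δ :=
      ContinuousAt.comp (g := V) (f := fun δ : ℝ => ((1 + δ : ℝ) : ℂ)) h1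
        (by fun_prop)
    exact (h3.norm.log (norm_ne_zero_iff.2 h2)).continuousWithinAt
  obtain ⟨C, hC⟩ := isCompact_Icc.exists_bound_of_continuousOn hc
  refine ⟨C, fun δ h0 h1 => ?_⟩
  have h2 := hVe ((1 + δ : ℝ) : ℂ) (by rw [Complex.ofReal_re]; linarith)
  have h3 := congrArg norm h2
  have h4 : ((1 + δ : ℝ) : ℂ) - 1 = (δ : ℂ) := by push_cast; ring
  rw [Complex.norm_exp, norm_div, h4, Complex.norm_real, Real.norm_eq_abs, abs_of_pos h0] at h3
  have h5 : V ((1 + δ : ℝ) : ℂ) ≠ 0 := hV0 _ (by rw [Complex.ofReal_re]; linarith)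
  have h6 : (PZ K (1 + δ : ℝ)).re = Real.log ‖V ((1 + δ : ℝ) : ℂ)‖ - Real.log δ := by
    rw [← Real.log_div (norm_ne_zero_iff.2 h5) h0.ne', ← h3, Real.log_exp]
  rw [h6, sub_add_cancel]
  exact hC δ ⟨h0.le, h1⟩

/-- the sum with logarithms near `s = 1` -/
theorem d_near : ∃ C : ℝ, 0 < C ∧ ∃ δ₀ : ℝ, 0 < δ₀ ∧ ∀ δ : ℝ, 0 < δ → δ ≤ δ₀ →
    Summable (fun v : HeightOneSpectrum (𝓞 K) => Real.log (nm v) * (nm v : ℝ) ^ (-(1 + δ))) ∧
    δ * ∑' v : HeightOneSpectrum (𝓞 K), Real.log (nm v) * (nm v : ℝ) ^ (-(1 + δ)) ≤ C := by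
  obtain ⟨D, -, -, ⟨H, hH, hDH⟩, hsum⟩ := exists_D K
  have h1 := hH.continuousAt.norm
  have h2 : ∀ᶠ s in 𝓝 (1 : ℂ), ‖H s‖ < ‖H 1‖ + 1 := h1.eventually (gt_mem_nhds (by linarith))
  obtain ⟨ε, hε, hε2⟩ := Metric.eventually_nhds_iff.1 h2
  refine ⟨1 + (‖H 1‖ + 1), by positivity, min 1 (ε / 2), by positivity, fun δ h0 hδ => ?_⟩
  have hδ1 : δ ≤ 1 := hδ.trans (min_le_left _ _)
  have hδε : δ < ε := by
    have := hδ.trans (min_le_right _ _)
    linarith
  have h3 := hsum ((1 + δ : ℝ) : ℂ) (by rw [Complex.ofReal_re]; linarith)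
  have h4 := Complex.hasSum_re h3
  have h5 : HasSum (fun v : HeightOneSpectrum (𝓞 K) => Real.log (nm v) * (nm v : ℝ) ^ (-(1 + δ)))
      (D ((1 + δ : ℝ) : ℂ)).re := by
    refine h4.congr_fun ?_ |> fun h => h
    intro v
    rw [← Complex.ofReal_natCast, ← Complex.ofReal_neg, ← Complex.ofReal_cpow (nm_pos v).le,
      ← Complex.ofReal_mul, Complex.ofReal_re]
  refine ⟨h5.summable, ?_⟩
  rw [h5.tsum_eq, hDH]
  have h6 : ((1 + δ : ℝ) : ℂ) - 1 = (δ : ℂ) := by push_cast; ring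
  have h7 : ‖H ((1 + δ : ℝ) : ℂ)‖ < ‖H 1‖ + 1 := by
    apply hε2
    rw [Complex.dist_eq, h6, Complex.norm_real, Real.norm_eq_abs, abs_of_pos h0]
    exact hδε
  rw [h6, Complex.add_re]
  have h8 : (1 / (δ : ℂ)).re = 1 / δ := by
    rw [← Complex.ofReal_one, ← Complex.ofReal_div, Complex.ofReal_re]
  rw [h8, mul_add, mul_one_div_cancel h0.ne']
  have h9 : (H ((1 + δ : ℝ) : ℂ)).re ≤ ‖H 1‖ + 1 := (Complex.re_le_norm _).trans h7.le
  have h10 : 0 ≤ ‖H 1‖ + 1 := by positivity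
  nlinarith

/-- **Mertens' theorem.** -/
theorem mertens (K : Type) [Field K] [NumberField K] :
    ∃ C : ℝ, ∀ᶠ X : ℝ in atTop, |MX K X - Real.log (Real.log X)| ≤ C := by
  classical
  obtain ⟨C1, hC1⟩ := pz_near (K := K)
  obtain ⟨C2, hC2, δ₀, hδ₀, hD⟩ := d_near (K := K)
  refine ⟨C1 + (Real.exp 1 * C2 + C2), ?_⟩
  have hlog : Tendsto Real.log atTop atTop := Real.tendsto_log_atTop
  filter_upwards [hlog.eventually (eventually_ge_atTop (max 1 (1 / δ₀))), eventually_gt_atTop 1]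
    with X hX hX1
  have hX0 : 0 < X := by linarith
  have hL1 : 1 ≤ Real.log X := (le_max_left _ _).trans hX
  have hL0 : 0 < Real.log X := by linarith
  obtain ⟨δ, hδ⟩ : ∃ δ : ℝ, δ = (Real.log X)⁻¹ := ⟨_, rfl⟩
  have hδ0 : 0 < δ := by rw [hδ]; positivity
  have hδ1 : δ ≤ 1 := by rw [hδ]; exact inv_le_one_of_one_le₀ hL1
  have hδδ : δ ≤ δ₀ := by
    rw [hδ]
    have := (le_max_right _ _).trans hX
    rw [one_div] at this
    exact inv_le_of_inv_le₀ hδ₀ this
  have hδL : δ * Real.log X = 1 := by rw [hδ]; exact inv_mul_cancel₀ hL0.ne'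
  obtain ⟨hs, hb⟩ := hD δ hδ0 hδδ
  have h1 := hC1 δ hδ0 hδ1
  have hlogδ : Real.log δ = -Real.log (Real.log X) := by rw [hδ, Real.log_inv]
  rw [hlogδ] at h1
  have hP := pz_real (K := K) (σ := 1 + δ) (by linarith)
  -- the comparison
  set p : HeightOneSpectrum (𝓞 K) → ℝ := fun v => (nm v : ℝ) ^ (-(1 + δ)) with hp
  have hsplit : (PZ K (1 + δ : ℝ)).re = ∑ v ∈ PX K X, p v +
      ∑' v : {v // v ∉ PX K X}, p v := by
    rw [← hP.tsum_eq]
    exact (hP.summable.sum_add_tsum_subtype_compl (PX K X)).symm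
  have hl : ∀ v : HeightOneSpectrum (𝓞 K), 0 ≤ Real.log (nm v) * p v := fun v =>
    mul_nonneg (log_nonneg v) (by positivity)
  have e1 : ∀ v : HeightOneSpectrum (𝓞 K), p v = (nm v : ℝ)⁻¹ * Real.exp (-(δ * Real.log (nm v))) := by
    intro v
    rw [hp]
    simp only
    rw [neg_add, Real.rpow_add (nm_pos v), Real.rpow_neg_one, Real.rpow_def_of_pos (nm_pos v)]
    congr 2
    ring
  have h2 : ∑ v ∈ PX K X, ((nm v : ℝ)⁻¹ - p v) ≤ Real.exp 1 * C2 := by
    have h3 : ∀ v ∈ PX K X, (nm v : ℝ)⁻¹ - p v ≤ Real.exp 1 * (δ * (Real.log (nm v) * p v)) := by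
      intro v hv
      have h4 : Real.log (nm v) ≤ Real.log X := Real.log_le_log (nm_pos v) (mem_PX.1 hv)
      have h5 : δ * Real.log (nm v) ≤ 1 := by
        rw [← hδL]
        exact mul_le_mul_of_nonneg_left h4 hδ0.le
      have h6 : 0 < (nm v : ℝ)⁻¹ := inv_pos.2 (nm_pos v)
      have h7 : 0 ≤ δ * Real.log (nm v) := mul_nonneg hδ0.le (log_nonneg v)
      have h8 : 1 - Real.exp (-(δ * Real.log (nm v))) ≤ δ * Real.log (nm v) := by
        have := Real.add_one_le_exp (-(δ * Real.log (nm v)))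
        linarith
      have h9 : 1 ≤ Real.exp 1 * Real.exp (-(δ * Real.log (nm v))) := by
        rw [← Real.exp_add]
        exact Real.one_le_exp (by linarith)
      rw [e1]
      calc (nm v : ℝ)⁻¹ - (nm v : ℝ)⁻¹ * Real.exp (-(δ * Real.log (nm v)))
          = (nm v : ℝ)⁻¹ * (1 - Real.exp (-(δ * Real.log (nm v)))) := by ring
        _ ≤ (nm v : ℝ)⁻¹ * (δ * Real.log (nm v)) := mul_le_mul_of_nonneg_left h8 h6.le
        _ = (nm v : ℝ)⁻¹ * (δ * Real.log (nm v)) * 1 := by ring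
        _ ≤ (nm v : ℝ)⁻¹ * (δ * Real.log (nm v)) *
            (Real.exp 1 * Real.exp (-(δ * Real.log (nm v)))) :=
          mul_le_mul_of_nonneg_left h9 (by positivity)
        _ = _ := by ring
    refine (Finset.sum_le_sum h3).trans ?_
    rw [← Finset.mul_sum, ← Finset.mul_sum]
    refine mul_le_mul_of_nonneg_left ?_ (Real.exp_pos _).le
    refine le_trans (mul_le_mul_of_nonneg_left ?_ hδ0.le) hb
    exact hs.sum_le_tsum _ fun v _ => hl v
  have h2' : 0 ≤ ∑ v ∈ PX K X, ((nm v : ℝ)⁻¹ - p v) := by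
    refine Finset.sum_nonneg fun v _ => ?_
    rw [e1, ← mul_one_sub]
    refine mul_nonneg (inv_nonneg.2 (nm_pos v).le) (sub_nonneg.2 (Real.exp_le_one_iff.2 ?_))
    have : 0 ≤ δ * Real.log (nm v) := mul_nonneg hδ0.le (log_nonneg v)
    linarith
  have h3 : ∑' v : {v // v ∉ PX K X}, p v ≤ C2 := by
    refine le_trans ?_ hb
    rw [← tsum_mul_left]
    have h4 : Summable fun v : {v // v ∉ PX K X} => δ * (Real.log (nm v.1) * p v.1) :=
      (hs.mul_left δ).subtype _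
    have h5 : ∑' v : {v // v ∉ PX K X}, p v ≤
        ∑' v : {v // v ∉ PX K X}, δ * (Real.log (nm v.1) * p v.1) := by
      refine Summable.tsum_le_tsum (fun v => ?_) (hP.summable.subtype _) h4
      have h6 : X < nm v.1 := by
        have := v.2
        rw [mem_PX, not_le] at this
        exact this
      have h7 : Real.log X ≤ Real.log (nm v.1) := Real.log_le_log hX0 h6.le
      have h8 : 1 ≤ δ * Real.log (nm v.1) := by
        rw [← hδL]
        exact mul_le_mul_of_nonneg_left h7 hδ0.le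
      have h9 : 0 ≤ p v.1 := by positivity
      calc p v.1 = 1 * p v.1 := (one_mul _).symm
        _ ≤ (δ * Real.log (nm v.1)) * p v.1 := mul_le_mul_of_nonneg_right h8 h9
        _ = _ := by ring
    refine h5.trans ?_
    exact Summable.tsum_subtype_le (fun v => δ * (Real.log (nm v) * p v)) _
      (fun v => mul_nonneg hδ0.le (hl v)) (hs.mul_left δ)
  have h3' : 0 ≤ ∑' v : {v // v ∉ PX K X}, p v := tsum_nonneg fun v => by positivity
  have h4 : MX K X - Real.log (Real.log X) = ((PZ K (1 + δ : ℝ)).re + -Real.log (Real.log X)) +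
      (∑ v ∈ PX K X, ((nm v : ℝ)⁻¹ - p v) - ∑' v : {v // v ∉ PX K X}, p v) := by
    rw [hsplit, Finset.sum_sub_distrib]
    unfold MX
    ring
  rw [h4]
  refine (abs_add_le _ _).trans (add_le_add h1 ?_)
  rw [abs_le]
  have hC20 := hC2.le
  have he : 0 < Real.exp 1 := Real.exp_pos 1
  have hee : 0 ≤ Real.exp 1 * C2 := by positivity
  constructor <;> linarith

end Pool.Agent.W5h26.CL
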