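import Pool.Agent.W5h26.CL.Prob

/-!
# Perturbations
-/

set_option autoImplicit false
set_option linter.unusedSectionVars false
set_option maxHeartbeats 400000

open Filter Topology Finset Complex
open NumberField IsDedekindDomain Pool.Agent.H921R2.TatePole

namespace Pool.Agent.W5h26.CL

open Pool.Agent.W5h26.EP Pool.Agent.W5h26.AO

variable {K : Type} [Field K] [NumberField K] {n : ℕ} {κ : Type} [Fintype κ] [DecidableEq κ]
  {b : Module.Basis κ ℤ (𝓞 K)}

theorem s_tendsto : Tendsto (fun N : ℕ => (√(LL N))⁻¹) atTop (𝓝 0) :=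
  tendsto_inv_atTop_zero.comp (Real.tendsto_sqrt_atTop.comp LL_tendsto)

/-- sums of `D / q_v` -/
theorem sum_inv {X D : ℝ} : ∑ v ∈ PX K X, D / (nm v : ℝ) = D * MX K X := by
  unfold MX
  rw [Finset.mul_sum]
  exact Finset.sum_congr rfl fun v _ => div_eq_mul_inv _ _

theorem pert {c : ℝ} (hc : 0 < c) (hc3 : c < 1 / 3)
    {ξ ζ : ∀ v : HeightOneSpectrum (𝓞 K), (Fin n → 𝓞 K ⧸ v.asIdeal) → ℝ} {D D' : ℝ}
    (hD : 0 ≤ D) (h1 : ∀ v q, |ξ v q| ≤ D / nm v)
    (h2 : ∀ v, |av v (ξ v)| ≤ D * (nm v : ℝ) ^ (-(3 / 2) : ℝ))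
    (h3 : ∀ v q, |ζ v q| ≤ D / nm v) (h4 : ∀ v, av v (ζ v) ≤ D * (nm v : ℝ) ^ (-(3 / 2) : ℝ))
    {R : ℕ → (Fin n → 𝓞 K) → ℝ}
    (hR : ∀ᶠ N : ℕ in atTop, ∀ x, |R N x - ∑ v ∈ PX K ((N : ℝ) ^ c), ξ v (rho v n x)| ≤
      D' + ∑ v ∈ PX K ((N : ℝ) ^ c), ζ v (rho v n x)) :
    Tendsto (fun N : ℕ => rmean (bx b n N) fun x => |(√(LL N))⁻¹ * R N x|) atTop (𝓝 0) := by
  set S : ℝ := ∑' v : HeightOneSpectrum (𝓞 K), (nm v : ℝ) ^ (-(3 / 2) : ℝ) with hS
  have hSs : Summable fun v : HeightOneSpectrum (𝓞 K) => (nm v : ℝ) ^ (-(3 / 2) : ℝ) :=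
    nm_summable (K := K) (by norm_num)
  have hS0 : 0 ≤ S := tsum_nonneg fun v => by positivity
  have hS1 : ∀ T : Finset (HeightOneSpectrum (𝓞 K)),
      ∑ v ∈ T, (nm v : ℝ) ^ (-(3 / 2) : ℝ) ≤ S := fun T =>
    hSs.sum_le_tsum _ fun v _ => by positivity
  set E : ℝ := √(D ^ 2 * S + (D * S) ^ 2 + 1) + (D' + (D * S + 1)) with hE
  have h5 : Tendsto (fun N : ℕ => (√(LL N))⁻¹ * E) atTop (𝓝 0) := by
    have := s_tendsto.mul_const E
    rwa [zero_mul] at this
  have h0 : Tendsto (fun N : ℕ => (N : ℝ) ^ c) atTop atTop :=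
    (tendsto_rpow_atTop hc).comp tendsto_natCast_atTop_atTop
  have hM1 : ∀ᶠ N : ℕ in atTop, 1 ≤ MX K ((N : ℝ) ^ c) := by
    obtain ⟨C, hC⟩ := MX_pow K hc
    filter_upwards [hC, LL_tendsto.eventually (eventually_ge_atTop (C + 1))] with N h6 h7
    have := (abs_le.1 h6).1
    linarith
  have he1 := (err_pow K hc hc3 (2 * (n * Fintype.card κ) * D ^ 2)).eventually
    (gt_mem_nhds one_pos)
  have he2 := (err_pow K hc hc3 (2 * (n * Fintype.card κ) * D)).eventually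
    (gt_mem_nhds one_pos)
  refine squeeze_zero' (Eventually.of_forall fun N => rmean_nonneg fun x _ => abs_nonneg _) ?_ h5
  filter_upwards [hR, h0.eventually (eventually_ge_atTop 1), hM1, he1, he2] with N h6 h7 h8 h9 h10
  set X : ℝ := (N : ℝ) ^ c with hX
  have hs0 : 0 ≤ (√(LL N))⁻¹ := inv_nonneg.2 (Real.sqrt_nonneg _)
  have e1 : (fun x : Fin n → 𝓞 K => |(√(LL N))⁻¹ * R N x|) = fun x => (√(LL N))⁻¹ * |R N x| := by
    funext x
    rw [abs_mul, abs_of_nonneg hs0]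
  rw [e1, rmean_const_mul]
  refine mul_le_mul_of_nonneg_left ?_ hs0
  have e2 : rmean (bx b n N) (fun x => |R N x|) ≤
      rmean (bx b n N) (fun x => |∑ v ∈ PX K X, ξ v (rho v n x)| +
        (D' + ∑ v ∈ PX K X, ζ v (rho v n x))) := by
    refine rmean_mono fun x _ => ?_
    have := h6 x
    have e3 : |R N x| ≤ |R N x - ∑ v ∈ PX K X, ξ v (rho v n x)| +
        |∑ v ∈ PX K X, ξ v (rho v n x)| := by
      have := abs_add_le (R N x - ∑ v ∈ PX K X, ξ v (rho v n x)) (∑ v ∈ PX K X, ξ v (rho v n x))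
      rwa [sub_add_cancel] at this
    linarith
  refine e2.trans ?_
  rw [rmean_add, rmean_add, rmean_const (bx_nonempty b n N)]
  have hN0 : (0 : ℝ) < 2 * N + 1 := by positivity
  -- the first part
  have e3 : rmean (bx b n N) (fun x => |∑ v ∈ PX K X, ξ v (rho v n x)|) ≤
      √(D ^ 2 * S + (D * S) ^ 2 + 1) := by
    refine (rmean_abs _ _).trans (Real.sqrt_le_sqrt ?_)
    refine (second (b := b) (PX K X) ξ h1 h7 (fun v hv => mem_PX.1 hv) N).trans ?_
    have f1 : ∑ v ∈ PX K X, av v (fun q => ξ v q ^ 2) ≤ D ^ 2 * S := by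
      refine le_trans ?_ (mul_le_mul_of_nonneg_left (hS1 (PX K X)) (sq_nonneg D))
      rw [Finset.mul_sum]
      refine Finset.sum_le_sum fun v _ => ?_
      unfold av
      have hq : (0 : ℝ) < (nm v : ℝ) ^ n := by
        have := nm_pos v
        positivity
      rw [div_le_iff₀ hq]
      refine (Finset.sum_le_card_nsmul _ _ (D ^ 2 * (nm v : ℝ) ^ (-(3 / 2) : ℝ))
        fun q _ => ?_).trans (le_of_eq ?_)
      · show ξ v q ^ 2 ≤ _
        rw [← sq_abs (ξ v q)]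
        refine (pow_le_pow_left₀ (abs_nonneg _) (h1 v q) 2).trans ?_
        rw [div_pow, div_eq_mul_inv]
        refine mul_le_mul_of_nonneg_left ?_ (sq_nonneg D)
        rw [← Real.rpow_natCast, ← Real.rpow_neg (nm_pos v).le]
        exact Real.rpow_le_rpow_of_exponent_le (nm1 v) (by norm_num)
      · rw [card_univ, card_loc, nsmul_eq_mul]
        push_cast
        ring
    have f2 : (∑ v ∈ PX K X, |av v (ξ v)|) ^ 2 ≤ (D * S) ^ 2 := by
      refine pow_le_pow_left₀ (Finset.sum_nonneg fun v _ => abs_nonneg _) ?_ 2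
      refine (Finset.sum_le_sum fun v _ => h2 v).trans ?_
      rw [← Finset.mul_sum]
      exact mul_le_mul_of_nonneg_left (hS1 _) hD
    have f3 : 2 * (n * Fintype.card κ : ℝ) * X ^ 2 * (∑ v ∈ PX K X, D / (nm v : ℝ)) ^ 2 /
        (2 * N + 1) ≤ 1 := by
      refine le_trans ?_ h9.le
      refine div_le_div_of_nonneg_right ?_ hN0.le
      rw [sum_inv, mul_pow]
      have f4 : X ^ 2 ≤ X ^ 3 := pow_le_pow_right₀ h7 (by norm_num)
      calc 2 * (n * Fintype.card κ : ℝ) * X ^ 2 * (D ^ 2 * MX K X ^ 2)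
          = (2 * (n * Fintype.card κ : ℝ) * D ^ 2 * MX K X ^ 2) * X ^ 2 := by ring
        _ ≤ (2 * (n * Fintype.card κ : ℝ) * D ^ 2 * MX K X ^ 2) * X ^ 3 :=
            mul_le_mul_of_nonneg_left f4 (by positivity)
        _ = _ := by ring
    linarith
  -- the second part
  have e4 : rmean (bx b n N) (fun x => ∑ v ∈ PX K X, ζ v (rho v n x)) ≤ D * S + 1 := by
    refine (first (b := b) (PX K X) ζ h3 h7 (fun v hv => mem_PX.1 hv) N).trans ?_
    have f1 : ∑ v ∈ PX K X, av v (ζ v) ≤ D * S := by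
      refine (Finset.sum_le_sum fun v _ => h4 v).trans ?_
      rw [← Finset.mul_sum]
      exact mul_le_mul_of_nonneg_left (hS1 _) hD
    have f3 : 2 * (n * Fintype.card κ : ℝ) * X * (∑ v ∈ PX K X, D / (nm v : ℝ)) /
        (2 * N + 1) ≤ 1 := by
      refine le_trans ?_ h10.le
      refine div_le_div_of_nonneg_right ?_ hN0.le
      rw [sum_inv]
      have f4 : X ≤ X ^ 3 := le_self_pow₀ h7 (by norm_num)
      have f5 : MX K X ≤ MX K X ^ 2 := le_self_pow₀ h8 (by norm_num)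
      have f6 : X * MX K X ≤ X ^ 3 * MX K X ^ 2 :=
        mul_le_mul f4 f5 (by linarith) (by positivity)
      calc 2 * (n * Fintype.card κ : ℝ) * X * (D * MX K X)
          = (2 * (n * Fintype.card κ : ℝ) * D) * (X * MX K X) := by ring
        _ ≤ (2 * (n * Fintype.card κ : ℝ) * D) * (X ^ 3 * MX K X ^ 2) :=
            mul_le_mul_of_nonneg_left f6 (by positivity)
        _ = _ := by ring
    linarith
  rw [hE]
  linarith

end Pool.Agent.W5h26.CL
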