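import Pool.Agent.W5h26.CL.Big

/-!
# From characteristic functions to distribution functions
-/

set_option autoImplicit false
set_option linter.unusedSectionVars false
set_option maxHeartbeats 400000

open Filter Topology Finset Complex MeasureTheory

namespace Pool.Agent.W5h26.CL

open Pool.Agent.W5h26.AO

/-- the distribution of `W` for the uniform measure on `F` -/
noncomputable def dist {A : Type} (F : Finset A) (W : A → ℝ) : Measure ℝ :=
  ((F.card : ENNReal)⁻¹) • ∑ x ∈ F, Measure.dirac (W x)

theorem dist_prob {A : Type} {F : Finset A} (hF : F.Nonempty) (W : A → ℝ) :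
    IsProbabilityMeasure (dist F W) := by
  constructor
  unfold dist
  have hc : (F.card : ENNReal) ≠ 0 := by
    exact_mod_cast (Finset.card_pos.2 hF).ne'
  rw [Measure.smul_apply, Measure.finsetSum_apply]
  simp only [measure_univ, Finset.sum_const, nsmul_eq_mul, mul_one, smul_eq_mul]
  exact ENNReal.inv_mul_cancel hc (ENNReal.natCast_ne_top _)

theorem dist_charFun {A : Type} [AddCommGroup A] (F : Finset A) (W : A → ℝ) (θ : ℝ) :
    charFun (dist F W) θ = mean F fun x => cexp ((θ * W x : ℝ) * I) := by
  rw [charFun_apply_real]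
  unfold dist mean
  rw [integral_smul_measure, integral_finsetSum_measure]
  · simp only [integral_dirac]
    rw [ENNReal.toReal_inv, ENNReal.toReal_natCast, Complex.real_smul]
    push_cast
    rw [inv_mul_eq_div]
  · intro x _
    exact integrable_dirac (by simp)

theorem dist_Iic {A : Type} (F : Finset A) (W : A → ℝ) (t : ℝ) [DecidablePred fun x => W x ≤ t] :
    (dist F W (Set.Iic t)).toReal = ((F.filter fun x => W x ≤ t).card : ℝ) / (F.card : ℝ) := by
  unfold dist
  rw [Measure.smul_apply, Measure.finsetSum_apply]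
  simp only [Measure.dirac_apply' _ measurableSet_Iic, smul_eq_mul]
  rw [ENNReal.toReal_mul, ENNReal.toReal_inv, ENNReal.toReal_natCast]
  have h1 : ∑ x ∈ F, (Set.Iic t).indicator (1 : ℝ → ENNReal) (W x) =
      ((F.filter fun x => W x ≤ t).card : ENNReal) := by
    rw [Finset.card_filter]
    push_cast
    refine Finset.sum_congr rfl fun x _ => ?_
    by_cases hx : W x ≤ t
    · rw [if_pos hx, Set.indicator_of_mem (show W x ∈ Set.Iic t from hx)]
      rfl
    · rw [if_neg hx, Set.indicator_of_notMem (show W x ∉ Set.Iic t from hx)]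
  rw [h1, ENNReal.toReal_natCast, inv_mul_eq_div]

/-- the distribution functions converge -/
theorem cdf_tendsto {A : Type} [AddCommGroup A] {F : ℕ → Finset A} (hF : ∀ N, (F N).Nonempty)
    {W : ℕ → A → ℝ} (h : ∀ θ : ℝ, Tendsto (fun N : ℕ => mean (F N) fun x =>
      cexp ((θ * W N x : ℝ) * I)) atTop (𝓝 (cexp (-((θ ^ 2 / 2 : ℝ) : ℂ))))) (t : ℝ)
    [∀ N, DecidablePred fun x => W N x ≤ t] :
    Tendsto (fun N => (((F N).filter fun x => W N x ≤ t).card : ℝ) / ((F N).card : ℝ)) atTop
      (𝓝 ((ProbabilityTheory.gaussianReal 0 1).real (Set.Iic t))) := by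
  let μ : ℕ → ProbabilityMeasure ℝ := fun N => ⟨dist (F N) (W N), dist_prob (hF N) (W N)⟩
  let μ₀ : ProbabilityMeasure ℝ := ⟨ProbabilityTheory.gaussianReal 0 1, inferInstance⟩
  have h1 : Tendsto μ atTop (𝓝 μ₀) := by
    rw [ProbabilityMeasure.tendsto_iff_tendsto_charFun]
    intro θ
    have h2 : charFun (μ₀ : Measure ℝ) θ = cexp (-((θ ^ 2 / 2 : ℝ) : ℂ)) := by
      show charFun (ProbabilityTheory.gaussianReal 0 1) θ = _
      rw [ProbabilityTheory.charFun_gaussianReal]
      congr 1
      push_cast
      ring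
    rw [h2]
    refine (h θ).congr fun N => ?_
    exact (dist_charFun (F N) (W N) θ).symm
  have h2 : Tendsto (fun N => (μ N : Measure ℝ) (Set.Iic t)) atTop
      (𝓝 ((μ₀ : Measure ℝ) (Set.Iic t))) := by
    refine ProbabilityMeasure.tendsto_measure_of_null_frontier_of_tendsto' h1 ?_
    rw [frontier_Iic]
    show ProbabilityTheory.gaussianReal 0 1 {t} = 0
    have := ProbabilityTheory.nullSingletonClass_gaussianReal (μ := 0) (v := 1) one_ne_zero
    exact measure_singleton t
  have h3 := (ENNReal.tendsto_toReal (measure_ne_top (μ₀ : Measure ℝ) (Set.Iic t))).comp h2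
  refine h3.congr fun N => ?_
  exact dist_Iic (F N) (W N) t

end Pool.Agent.W5h26.CL
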