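import Pool.Agent.W5h26.CL.Curve

/-!
# The products
-/

set_option autoImplicit false
set_option linter.unusedSectionVars false
set_option maxHeartbeats 400000

open Filter Topology Finset Complex Polynomial
open NumberField IsDedekindDomain Pool.Agent.H921R2.TatePole

namespace Pool.Agent.W5h26.CL

open Pool.Agent.W5h26.EP Pool.Agent.W5h26.AO

/-- the logarithm of the number of points -/
theorem log_near (g : ℕ) : ∃ D : ℝ, 0 ≤ D ∧ ∀ q t : ℝ, 1 ≤ q → |t| ≤ 2 * g * √q → 0 ≤ q - t →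
    |Real.log ((q - t + 1) / q) + t / q - 1 / (2 * q) - (q - t ^ 2) / (2 * q ^ 2)| ≤
      D * (√q)⁻¹ ^ 3 := by
  set A : ℝ := 1 + 2 * g with hA
  have hA0 : 1 ≤ A := by rw [hA]; have : (0 : ℝ) ≤ g := Nat.cast_nonneg g; linarith
  set M : ℝ := ((2 * A) ^ 2 + A) + A + A ^ 2 with hM
  refine ⟨2 * A ^ 3 + M * (2 * A) ^ 3 + 2 * A, by positivity, fun q t hq ht hqt => ?_⟩
  have hq0 : 0 < q := by linarith
  set x : ℝ := √q with hx
  have hx1 : 1 ≤ x := Real.one_le_sqrt.2 hq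
  have hx0 : 0 < x := by linarith
  have hxx : x ^ 2 = q := Real.sq_sqrt hq0.le
  set u : ℝ := (1 - t) / q with hu
  have hu1 : |u| ≤ A * x⁻¹ := by
    rw [hu, abs_div, abs_of_pos hq0, div_le_iff₀ hq0, ← hxx]
    have e1 : A * x⁻¹ * x ^ 2 = A * x := by field_simp
    rw [e1]
    refine (abs_sub _ _).trans ?_
    rw [abs_one, hA]
    nlinarith
  have h1u : 1 + u = (q - t + 1) / q := by
    rw [hu]
    field_simp
    ring
  have hpos : 1 / q ≤ 1 + u := by
    rw [h1u]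
    exact div_le_div_of_nonneg_right (by linarith) hq0.le
  have hpos' : 0 < 1 + u := lt_of_lt_of_le (by positivity) hpos
  have hxi : 0 < x⁻¹ := inv_pos.2 hx0
  have hxi1 : x⁻¹ ≤ 1 := inv_le_one_of_one_le₀ hx1
  -- the main expansion
  have key : |Real.log (1 + u) - u + u ^ 2 / 2| ≤ (2 * A ^ 3 + M * (2 * A) ^ 3) * x⁻¹ ^ 3 := by
    rcases le_or_gt |u| (1 / 2) with h | h
    · have h1 := Real.abs_log_sub_add_sum_range_le (x := -u) (by rw [abs_neg]; linarith) 2
      simp only [Finset.sum_range_succ, Finset.sum_range_zero, abs_neg] at h1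
      have h2 : |Real.log (1 + u) - u + u ^ 2 / 2| ≤ |u| ^ 3 / (1 - |u|) := by
        refine le_trans (le_of_eq ?_) h1
        congr 1
        rw [sub_neg_eq_add]
        push_cast
        ring
      have h3 : |u| ^ 3 / (1 - |u|) ≤ 2 * |u| ^ 3 := by
        rw [div_le_iff₀ (by linarith)]
        have : 0 ≤ |u| ^ 3 := by positivity
        nlinarith
      have h4 : |u| ^ 3 ≤ A ^ 3 * x⁻¹ ^ 3 := by
        rw [← mul_pow]
        exact pow_le_pow_left₀ (abs_nonneg _) hu1 3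
      have h5 : 0 ≤ M * (2 * A) ^ 3 * x⁻¹ ^ 3 := by positivity
      calc |Real.log (1 + u) - u + u ^ 2 / 2| ≤ 2 * |u| ^ 3 := h2.trans h3
        _ ≤ 2 * (A ^ 3 * x⁻¹ ^ 3) := by linarith
        _ ≤ _ := by nlinarith
    · have h1 : x < 2 * A := by
        have h2 : 1 / 2 < A * x⁻¹ := h.trans_le hu1
        rw [← div_eq_mul_inv, lt_div_iff₀ hx0] at h2
        linarith
      have h2 : q ≤ (2 * A) ^ 2 := by
        rw [← hxx]
        exact pow_le_pow_left₀ hx0.le h1.le 2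
      have hu2 : |u| ≤ A := hu1.trans (mul_le_of_le_one_right (by linarith) hxi1)
      have h3 : |Real.log (1 + u)| ≤ (2 * A) ^ 2 + A := by
        rw [abs_le]
        constructor
        · have h4 : Real.log (1 / q) ≤ Real.log (1 + u) := Real.log_le_log (by positivity) hpos
          rw [one_div, Real.log_inv] at h4
          have h5 : Real.log q ≤ q := (Real.log_le_sub_one_of_pos hq0).trans (by linarith)
          linarith
        · have h4 := Real.log_le_sub_one_of_pos hpos'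
          have h5 := (abs_le.1 hu2).2
          have h6 : 0 ≤ (2 * A) ^ 2 := by positivity
          linarith
      have h4 : |Real.log (1 + u) - u + u ^ 2 / 2| ≤ M := by
        have h5 : |u ^ 2 / 2| ≤ A ^ 2 := by
          rw [abs_div, abs_pow, abs_two]
          have : |u| ^ 2 ≤ A ^ 2 := pow_le_pow_left₀ (abs_nonneg _) hu2 2
          have h7 : 0 ≤ |u| ^ 2 := by positivity
          linarith
        refine (abs_add_le _ _).trans ?_
        refine (add_le_add (abs_sub _ _) le_rfl).trans ?_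
        rw [hM]
        linarith
      have h5 : 1 ≤ (2 * A) ^ 3 * x⁻¹ ^ 3 := by
        rw [← mul_pow]
        refine one_le_pow₀ ?_
        rw [← div_eq_mul_inv, one_le_div hx0]
        exact h1.le
      have hM0 : 0 ≤ M := by positivity
      have h6 : 0 ≤ 2 * A ^ 3 * x⁻¹ ^ 3 := by positivity
      calc |Real.log (1 + u) - u + u ^ 2 / 2| ≤ M := h4
        _ = M * 1 := (mul_one M).symm
        _ ≤ M * ((2 * A) ^ 3 * x⁻¹ ^ 3) := mul_le_mul_of_nonneg_left h5 hM0
        _ ≤ _ := by nlinarith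
  have h2 : |(2 * t - 1) / (2 * q ^ 2)| ≤ 2 * A * x⁻¹ ^ 3 := by
    rw [abs_div, abs_of_pos (show (0 : ℝ) < 2 * q ^ 2 by positivity), div_le_iff₀ (by positivity)]
    have e1 : 2 * A * x⁻¹ ^ 3 * (2 * q ^ 2) = 4 * A * x := by
      rw [← hxx]
      field_simp
      ring
    rw [e1]
    have h3 : |2 * t - 1| ≤ 2 * |t| + 1 := by
      refine (abs_sub _ _).trans ?_
      rw [abs_mul, abs_two, abs_one]
    rw [hA]
    have hg : (0 : ℝ) ≤ g := Nat.cast_nonneg g
    nlinarith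
  have e2 : Real.log ((q - t + 1) / q) + t / q - 1 / (2 * q) - (q - t ^ 2) / (2 * q ^ 2) =
      (Real.log (1 + u) - u + u ^ 2 / 2) + -((2 * t - 1) / (2 * q ^ 2)) * (-1) := by
    rw [← h1u, hu]
    field_simp
    ring
  rw [e2, neg_mul_neg, mul_one]
  refine (abs_add_le _ _).trans ?_
  linarith

variable {K : Type} [Field K] [NumberField K] {r n g : ℕ} {a : (𝓞 K)[X]} {α : Fin r → 𝓞 K}

open Classical in
/-- the logarithm of the number of points, at the primes of good reduction -/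
noncomputable def bl (a : (𝓞 K)[X]) (α : Fin r → 𝓞 K) (n : ℕ) (v : HeightOneSpectrum (𝓞 K))
    (q : Fin n → 𝓞 K ⧸ v.asIdeal) : ℝ :=
  if ringChar (𝓞 K ⧸ v.asIdeal) ≠ 2 ∧
    (mem (red v a) (fun j => Ideal.Quotient.mk v.asIdeal (α j)) q).Separable
  then Real.log (((nm v : ℝ) - tq a α n 1 v q + 1) / nm v) else 0

open Classical in
/-- the indicator function of the bad fibres, divided by `q_v` -/
noncomputable def bad (a : (𝓞 K)[X]) (α : Fin r → 𝓞 K) (n : ℕ) (v : HeightOneSpectrum (𝓞 K))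
    (q : Fin n → 𝓞 K ⧸ v.asIdeal) : ℝ :=
  if ringChar (𝓞 K ⧸ v.asIdeal) ≠ 2 ∧
    (mem (red v a) (fun j => Ideal.Quotient.mk v.asIdeal (α j)) q).Separable
  then 0 else 1 / nm v

theorem bad_bd (v : HeightOneSpectrum (𝓞 K)) (q : Fin n → 𝓞 K ⧸ v.asIdeal) :
    |bad a α n v q| ≤ 1 / nm v := by
  have := nm_pos v
  unfold bad
  split_ifs
  · rw [abs_zero]
    positivity
  · rw [abs_of_pos (by positivity)]

/-- the second-order term -/
noncomputable def xi (a : (𝓞 K)[X]) (α : Fin r → 𝓞 K) (n : ℕ) (v : HeightOneSpectrum (𝓞 K))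
    (q : Fin n → 𝓞 K ⧸ v.asIdeal) : ℝ :=
  ((nm v : ℝ) - tq a α n 1 v q ^ 2) / (2 * (nm v : ℝ) ^ 2)

theorem xi_bd (ha : a.Monic) (hd : a.natDegree = 2 * g + 1) (hn : n + r ≤ 2 * g + 1)
    (v : HeightOneSpectrum (𝓞 K)) (q : Fin n → 𝓞 K ⧸ v.asIdeal) :
    |xi a α n v q| ≤ (1 + 4 * g ^ 2) / nm v := by
  have hq := nm_pos v
  unfold xi
  rw [abs_div, abs_of_pos (show (0 : ℝ) < 2 * (nm v : ℝ) ^ 2 by positivity),
    div_le_div_iff₀ (by positivity) hq]
  have h1 := tq_bd (α := α) ha hd hn v le_rfl q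
  rw [pow_one] at h1
  have h2 : tq a α n 1 v q ^ 2 ≤ 4 * g ^ 2 * nm v := by
    rw [← sq_abs]
    refine (pow_le_pow_left₀ (abs_nonneg _) h1 2).trans (le_of_eq ?_)
    rw [mul_pow, Real.sq_sqrt hq.le]
    ring
  have h3 : |(nm v : ℝ) - tq a α n 1 v q ^ 2| ≤ (1 + 4 * g ^ 2) * nm v := by
    refine (abs_sub _ _).trans ?_
    rw [abs_of_pos hq, abs_of_nonneg (sq_nonneg _)]
    linarith
  calc |(nm v : ℝ) - tq a α n 1 v q ^ 2| * (nm v : ℝ) ≤ (1 + 4 * g ^ 2) * nm v * nm v :=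
        mul_le_mul_of_nonneg_right h3 hq.le
    _ ≤ _ := by
        have : (0 : ℝ) ≤ (1 + 4 * g ^ 2) * (nm v : ℝ) ^ 2 := by positivity
        nlinarith

theorem xi_av {C₂ : ℝ} (h2 : ∀ v : HeightOneSpectrum (𝓞 K), |AO.Eq a α n v - nm v| ≤ C₂)
    (v : HeightOneSpectrum (𝓞 K)) :
    |av v (xi a α n v)| ≤ |C₂| * (nm v : ℝ) ^ (-(3 / 2) : ℝ) := by
  have hq := nm_pos v
  have hqn : (0 : ℝ) < (nm v : ℝ) ^ n := by positivity
  have h3 : av v (xi a α n v) = (nm v - AO.Eq a α n v) / (2 * (nm v : ℝ) ^ 2) := by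
    have h6 := av_sq (a := a) (α := α) (n := n) v
    unfold av at h6 ⊢
    rw [div_eq_iff hqn.ne'] at h6
    unfold xi
    rw [← Finset.sum_div, Finset.sum_sub_distrib, h6, Finset.sum_const, card_univ, card_loc,
      nsmul_eq_mul]
    push_cast
    field_simp
  rw [h3, abs_div, abs_of_pos (show (0 : ℝ) < 2 * (nm v : ℝ) ^ 2 by positivity), abs_sub_comm,
    div_eq_mul_inv]
  refine mul_le_mul ((h2 v).trans (le_abs_self _)) ?_ (by positivity) (abs_nonneg _)
  refine le_trans ?_ (rp_two v)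
  refine inv_anti₀ (by positivity) ?_
  have : 0 ≤ (nm v : ℝ) ^ 2 := by positivity
  linarith

theorem bl_near (ha : a.Monic) (hd : a.natDegree = 2 * g + 1) (hn : n + r ≤ 2 * g + 1) :
    ∃ D : ℝ, 0 ≤ D ∧ ∀ (v : HeightOneSpectrum (𝓞 K)) (q : Fin n → 𝓞 K ⧸ v.asIdeal),
      |bl a α n v q + tq a α n 1 v q / nm v - 1 / (2 * nm v) - xi a α n v q| ≤
        D * (nm v : ℝ) ^ (-(3 / 2) : ℝ) + bad a α n v q := by
  classical
  obtain ⟨D, hD, h⟩ := log_near g
  refine ⟨D, hD, fun v q => ?_⟩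
  have hq := nm_pos v
  by_cases hg : ringChar (𝓞 K ⧸ v.asIdeal) ≠ 2 ∧
    (mem (red v a) (fun j => Ideal.Quotient.mk v.asIdeal (α j)) q).Separable
  · have h1 := tq_bd (α := α) ha hd hn v le_rfl q
    rw [pow_one] at h1
    have h2 : 0 ≤ (nm v : ℝ) - tq a α n 1 v q := by
      unfold tq gtr
      rw [if_pos hg]
      unfold tr
      rw [pow_one]
      have h3 : Nat.card (𝓞 K ⧸ v.asIdeal) = nm v := by
        rw [Nat.card_eq_fintype_card, card_q]
      rw [h3]
      push_cast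
      rw [sub_sub_cancel]
      exact Nat.cast_nonneg _
    have h3 := h (nm v) (tq a α n 1 v q) (nm1 v) h1 h2
    rw [sq_inv] at h3
    unfold bl bad xi
    rw [if_pos hg, if_pos hg, add_zero]
    exact h3
  · have ht : tq a α n 1 v q = 0 := by
      unfold tq gtr
      rw [if_neg hg]
    unfold bl bad xi
    rw [if_neg hg, if_neg hg, ht]
    have e1 : (0 : ℝ) + 0 / (nm v : ℝ) - 1 / (2 * nm v) - ((nm v : ℝ) - 0 ^ 2) / (2 * (nm v : ℝ) ^ 2)
        = -(1 / nm v) := by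
      field_simp
      ring
    rw [e1, abs_neg, abs_of_pos (by positivity)]
    have : 0 ≤ D * (nm v : ℝ) ^ (-(3 / 2) : ℝ) := by positivity
    linarith

/-- the reductions of good type -/
theorem good_places {y : Fin r → 𝓞 K} (hα : Function.Injective α)
    (hy : ∀ j, a.eval (α j) = y j ^ 2) (hy0 : ∀ j, y j ≠ 0) (m : ℕ) (hm : m ≠ 0) :
    ∃ S : Finset (HeightOneSpectrum (𝓞 K)), ∀ v ∉ S,
      ringChar (𝓞 K ⧸ v.asIdeal) ≠ 2 ∧ ((m : 𝓞 K ⧸ v.asIdeal)) ≠ 0 ∧
      Function.Injective (fun j => Ideal.Quotient.mk v.asIdeal (α j)) ∧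
      (∀ j, (red v a).eval (Ideal.Quotient.mk v.asIdeal (α j)) =
        (Ideal.Quotient.mk v.asIdeal (y j)) ^ 2) ∧
      ∀ j, Ideal.Quotient.mk v.asIdeal (y j) ≠ 0 := by
  classical
  set d : 𝓞 K := 2 * (m : 𝓞 K) * (∏ j, y j) *
    ∏ z ∈ (Finset.univ : Finset (Fin r × Fin r)).filter (fun z => z.1 ≠ z.2), (α z.1 - α z.2) with hdd
  have hd0 : d ≠ 0 := by
    refine mul_ne_zero (mul_ne_zero (mul_ne_zero two_ne_zero ?_) ?_) ?_
    · exact_mod_cast hm
    · exact Finset.prod_ne_zero_iff.2 fun j _ => hy0 j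
    · refine Finset.prod_ne_zero_iff.2 fun z hz => ?_
      exact sub_ne_zero.2 fun h => (Finset.mem_filter.1 hz).2 (hα h)
  have hS := finite_mem hd0
  refine ⟨hS.toFinset, fun v hv => ?_⟩
  rw [hS.mem_toFinset] at hv
  have hv' : d ∉ v.asIdeal := hv
  have hmem : ∀ z : 𝓞 K, z ∣ d → z ∉ v.asIdeal := fun z hz h0 => hv' (Ideal.mem_of_dvd _ hz h0)
  refine ⟨(char_two v).2 (hmem 2 ?_), ?_, ?_, ?_, ?_⟩
  · exact ((dvd_mul_right _ _).mul_right _).mul_right _
  · have h1 : ((m : 𝓞 K)) ∉ v.asIdeal := by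
      refine hmem _ ?_
      exact ((dvd_mul_left _ _).mul_right _).mul_right _
    rw [← Ideal.Quotient.eq_zero_iff_mem, map_natCast] at h1
    exact h1
  · intro i j hij
    by_contra hne
    have h1 : α i - α j ∈ v.asIdeal := by
      rw [← Ideal.Quotient.eq_zero_iff_mem, map_sub]
      exact sub_eq_zero.2 hij
    refine hmem _ ?_ h1
    refine (Finset.dvd_prod_of_mem (fun z : Fin r × Fin r => α z.1 - α z.2)
      (a := (i, j)) (Finset.mem_filter.2 ⟨Finset.mem_univ _, hne⟩)).mul_left _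
  · intro j
    rw [eval_red, hy, map_pow]
  · intro j h1
    rw [Ideal.Quotient.eq_zero_iff_mem] at h1
    refine hmem _ ?_ h1
    exact ((Finset.dvd_prod_of_mem y (Finset.mem_univ j)).mul_left _).mul_right _

theorem bad_av {y : Fin r → 𝓞 K} (ha : a.Monic) (hd : a.natDegree = 2 * g + 1)
    (hn : n + 2 + r = 2 * g + 1) (hα : Function.Injective α) (hy : ∀ j, a.eval (α j) = y j ^ 2)
    (hy0 : ∀ j, y j ≠ 0) : ∃ D : ℝ, 0 ≤ D ∧ ∀ v : HeightOneSpectrum (𝓞 K),
      av v (bad a α (n + 2) v) ≤ D * (nm v : ℝ) ^ (-(3 / 2) : ℝ) := by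
  classical
  obtain ⟨S, hS⟩ := good_places hα hy hy0 (n + 2) (by omega)
  refine ⟨∑ v ∈ S, √(nm v : ℝ) + (2 * g + r), by positivity, fun v => ?_⟩
  have hq := nm_pos v
  have hqn : (0 : ℝ) < (nm v : ℝ) ^ (n + 2) := by positivity
  by_cases hv : v ∈ S
  · have h1 : av v (bad a α (n + 2) v) ≤ 1 / nm v := by
      unfold av
      rw [div_le_iff₀ hqn]
      refine (Finset.sum_le_card_nsmul _ _ (1 / (nm v : ℝ)) fun q _ =>
        (le_abs_self _).trans (bad_bd v q)).trans (le_of_eq ?_)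
      rw [card_univ, card_loc, nsmul_eq_mul]
      push_cast
      ring
    refine h1.trans ?_
    have h2 : √(nm v : ℝ) ≤ ∑ v ∈ S, √(nm v : ℝ) + (2 * g + r) := by
      have := Finset.single_le_sum (f := fun v : HeightOneSpectrum (𝓞 K) => √(nm v : ℝ))
        (fun v _ => Real.sqrt_nonneg _) hv
      have h3 : (0 : ℝ) ≤ 2 * g + r := by positivity
      linarith
    refine le_trans (le_of_eq ?_) (mul_le_mul_of_nonneg_right h2 (by positivity))
    rw [Real.sqrt_eq_rpow, ← Real.rpow_add hq, one_div, ← Real.rpow_neg_one]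
    norm_num
  · obtain ⟨g1, g2, g3, g4, g5⟩ := hS v hv
    obtain ⟨e1, e2⟩ := red_deg ha hd v
    have h1 := bad_card (m := n + 1) e1 e2 hn g2 g4 g5
    have h2 : av v (bad a α (n + 2) v) ≤ (2 * g + r) * ((nm v : ℝ) ^ 2)⁻¹ := by
      unfold av
      rw [div_le_iff₀ hqn]
      have h3 : ∑ q : Fin (n + 2) → 𝓞 K ⧸ v.asIdeal, bad a α (n + 2) v q =
          ((univ.filter fun h : Fin (n + 1 + 1) → 𝓞 K ⧸ v.asIdeal => ¬ (mem (red v a)
            (fun j => Ideal.Quotient.mk v.asIdeal (α j)) h).Separable).card : ℝ) * (1 / nm v) := by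
        rw [← nsmul_eq_mul, ← Finset.sum_const, Finset.sum_filter]
        refine Finset.sum_congr rfl fun q _ => ?_
        unfold bad
        by_cases hs : (mem (red v a) (fun j => Ideal.Quotient.mk v.asIdeal (α j)) q).Separable
        · rw [if_pos ⟨g1, hs⟩, if_neg (not_not.2 hs)]
        · rw [if_neg (fun h => hs h.2), if_pos hs]
      rw [h3]
      have h4 : (((univ.filter fun h : Fin (n + 1 + 1) → 𝓞 K ⧸ v.asIdeal => ¬ (mem (red v a)
            (fun j => Ideal.Quotient.mk v.asIdeal (α j)) h).Separable).card : ℕ) : ℝ) ≤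
          (2 * g + r) * (nm v : ℝ) ^ (n + 1) := by
        rw [card_q] at h1
        exact_mod_cast h1
      calc _ ≤ (2 * g + r) * (nm v : ℝ) ^ (n + 1) * (1 / nm v) :=
            mul_le_mul_of_nonneg_right h4 (by positivity)
        _ = _ := by
            rw [pow_succ (nm v : ℝ) (n + 1)]
            field_simp
    have h5 : 0 ≤ ∑ v ∈ S, √(nm v : ℝ) := Finset.sum_nonneg fun v _ => Real.sqrt_nonneg _
    have h6 : (0 : ℝ) ≤ 2 * g + r := by positivity
    have h7 : (0 : ℝ) ≤ (nm v : ℝ) ^ (-(3 / 2) : ℝ) := (Real.rpow_pos_of_pos hq _).le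
    have h8 := rp_two v
    have h9 := mul_le_mul_of_nonneg_left h8 h6
    have h10 := mul_nonneg h5 h7
    rw [add_mul]
    exact h2.trans (h9.trans (le_add_of_nonneg_left h10))

end Pool.Agent.W5h26.CL
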