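import Pool.Agent.W5h26.CL.Lim

/-!
# The central limit theorem at the small scale
-/

set_option autoImplicit false
set_option linter.unusedSectionVars false
set_option maxHeartbeats 400000

open Filter Topology Finset Complex
open NumberField IsDedekindDomain Pool.Agent.H921R2.TatePole

namespace Pool.Agent.W5h26.CL

open Pool.Agent.W5h26.EP Pool.Agent.W5h26.AO

variable {K : Type} [Field K] [NumberField K] {n : ℕ} {κ : Type} [Fintype κ] [DecidableEq κ]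
  {b : Module.Basis κ ℤ (𝓞 K)}
  {ψ : ∀ v : HeightOneSpectrum (𝓞 K), (Fin n → 𝓞 K ⧸ v.asIdeal) → ℝ} {B C : ℝ}

/-- the error term of the `m`-th moment -/
noncomputable def Er (κ : Type) [Fintype κ] (n : ℕ) (X β : ℝ) (N m : ℕ) : ℝ :=
  2 * (n * Fintype.card κ) * X ^ m * β ^ m / (2 * N + 1)

theorem cmp_four (T : Finset (HeightOneSpectrum (𝓞 K))) {β : HeightOneSpectrum (𝓞 K) → ℝ}
    (hβ : ∀ v q, |ψ v q| ≤ β v) {X : ℝ} (hX : 1 ≤ X) (hT : ∀ v ∈ T, (nm v : ℝ) ≤ X)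
    (θ : ℝ) {s : ℝ} (hs0 : 0 < s) (hs1 : s ≤ 1) (k N : ℕ) :
    ∃ μ : ℂ, Tendsto (fun M => mean (fo b n M) fun h =>
      ((∑ v ∈ T, ψ v (rho v n h) : ℝ) : ℂ) ^ (2 * k)) atTop (𝓝 μ) ∧
    ‖mean (bx b n N) (fun h => cexp ((θ * (s * ∑ v ∈ T, ψ v (rho v n h)) : ℝ) * I)) -
      ∏ v ∈ T, cv ψ v (θ * s)‖ ≤
      ∑ m ∈ range (2 * k + 1), |θ| ^ m * Er κ n X (∑ v ∈ T, β v) N m +
        2 * (θ ^ (2 * k) / ((2 * k).factorial : ℝ) * (s ^ (2 * k) * ‖μ‖)) := by
  have h1 := fun m => cmp_pow (b := b) T ψ hβ hX hT m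
  choose μ hμ1 hμ2 using h1
  refine ⟨μ (2 * k), hμ1 (2 * k), ?_⟩
  set S : (Fin n → 𝓞 K) → ℝ := fun h => ∑ v ∈ T, ψ v (rho v n h) with hS
  have hE0 : ∀ m, 0 ≤ Er κ n X (∑ v ∈ T, β v) N m := by
    intro m
    unfold Er
    have : 0 ≤ ∑ v ∈ T, β v := Finset.sum_nonneg fun v _ => (abs_nonneg _).trans (hβ v 0)
    positivity
  have hpw : ∀ (F : Finset (Fin n → 𝓞 K)) (m : ℕ), mean F (fun x => ((s * S x : ℝ) : ℂ) ^ m) =
      (s : ℂ) ^ m * mean F fun x => ((S x : ℝ) : ℂ) ^ m := by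
    intro F m
    unfold mean
    rw [← mul_div_assoc, Finset.mul_sum]
    congr 1
    refine Finset.sum_congr rfl fun x _ => ?_
    push_cast
    rw [mul_pow]
  -- the box
  have h2 := four_mean (bx b n N) (fun x => s * S x) θ k
  simp only [hpw] at h2
  -- the limit
  have h3 : ‖∏ v ∈ T, cv ψ v (θ * s) - ∑ m ∈ range (2 * k), ((θ : ℂ) * I) ^ m / (m.factorial : ℂ) *
      ((s : ℂ) ^ m * μ m)‖ ≤ θ ^ (2 * k) / ((2 * k).factorial : ℝ) *
        ‖(s : ℂ) ^ (2 * k) * μ (2 * k)‖ := by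
    have h4 := char_lim (b := b) (ψ := ψ) T (θ * s)
    have h5 : Tendsto (fun M => ‖mean (fo b n M) (fun x => cexp ((θ * (s * S x) : ℝ) * I)) -
        ∑ m ∈ range (2 * k), ((θ : ℂ) * I) ^ m / (m.factorial : ℂ) *
          ((s : ℂ) ^ m * mean (fo b n M) fun x => ((S x : ℝ) : ℂ) ^ m)‖) atTop
        (𝓝 ‖∏ v ∈ T, cv ψ v (θ * s) - ∑ m ∈ range (2 * k), ((θ : ℂ) * I) ^ m / (m.factorial : ℂ) *
          ((s : ℂ) ^ m * μ m)‖) := by
      refine (Tendsto.sub ?_ (tendsto_finsetSum _ fun m _ => ?_)).norm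
      · refine h4.congr fun M => ?_
        congr 1
        funext x
        rw [mul_assoc]
      · exact ((hμ1 m).const_mul _).const_mul _
    have h6 : Tendsto (fun M => θ ^ (2 * k) / ((2 * k).factorial : ℝ) *
        ‖(s : ℂ) ^ (2 * k) * mean (fo b n M) fun x => ((S x : ℝ) : ℂ) ^ (2 * k)‖) atTop
        (𝓝 (θ ^ (2 * k) / ((2 * k).factorial : ℝ) * ‖(s : ℂ) ^ (2 * k) * μ (2 * k)‖)) :=
      (((hμ1 (2 * k)).const_mul _).norm).const_mul _
    refine le_of_tendsto_of_tendsto' h5 h6 fun M => ?_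
    have h7 := four_mean (fo b n M) (fun x => s * S x) θ k
    simp only [hpw] at h7
    exact h7
  -- the moments
  have hc : ∀ m, ‖((θ : ℂ) * I) ^ m / (m.factorial : ℂ)‖ ≤ |θ| ^ m := by
    intro m
    rw [norm_div, norm_pow, norm_mul, Complex.norm_I, mul_one, Complex.norm_real,
      Complex.norm_natCast, Real.norm_eq_abs]
    refine div_le_self (by positivity) ?_
    exact_mod_cast Nat.one_le_iff_ne_zero.2 (Nat.factorial_ne_zero m)
  have hsp : ∀ m, ‖(s : ℂ) ^ m‖ ≤ 1 := by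
    intro m
    rw [norm_pow, Complex.norm_real, Real.norm_eq_abs, abs_of_pos hs0]
    exact pow_le_one₀ hs0.le hs1
  have h4 : ‖∑ m ∈ range (2 * k), ((θ : ℂ) * I) ^ m / (m.factorial : ℂ) *
      ((s : ℂ) ^ m * mean (bx b n N) fun x => ((S x : ℝ) : ℂ) ^ m) -
      ∑ m ∈ range (2 * k), ((θ : ℂ) * I) ^ m / (m.factorial : ℂ) * ((s : ℂ) ^ m * μ m)‖ ≤
      ∑ m ∈ range (2 * k), |θ| ^ m * Er κ n X (∑ v ∈ T, β v) N m := by
    rw [← Finset.sum_sub_distrib]
    refine norm_sum_le_of_le _ fun m _ => ?_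
    rw [← mul_sub, ← mul_sub, norm_mul, norm_mul]
    refine mul_le_mul (hc m) ?_ (by positivity) (by positivity)
    exact (mul_le_of_le_one_left (norm_nonneg _) (hsp m)).trans (hμ2 m N)
  -- the last moment
  have h5 : ‖mean (bx b n N) fun x => ((S x : ℝ) : ℂ) ^ (2 * k)‖ ≤
      ‖μ (2 * k)‖ + Er κ n X (∑ v ∈ T, β v) N (2 * k) := by
    have h6 := hμ2 (2 * k) N
    have h7 := norm_sub_norm_le (mean (bx b n N) fun x => ((S x : ℝ) : ℂ) ^ (2 * k)) (μ (2 * k))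
    have h8 : ‖(mean (bx b n N) fun x => ((S x : ℝ) : ℂ) ^ (2 * k)) - μ (2 * k)‖ ≤
        Er κ n X (∑ v ∈ T, β v) N (2 * k) := h6
    linarith
  set P := ∑ m ∈ range (2 * k), ((θ : ℂ) * I) ^ m / (m.factorial : ℂ) *
      ((s : ℂ) ^ m * mean (bx b n N) fun x => ((S x : ℝ) : ℂ) ^ m) with hP
  set P' := ∑ m ∈ range (2 * k), ((θ : ℂ) * I) ^ m / (m.factorial : ℂ) * ((s : ℂ) ^ m * μ m) with hP'
  set A := mean (bx b n N) (fun h => cexp ((θ * (s * S h) : ℝ) * I)) with hA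
  set Q := ∏ v ∈ T, cv ψ v (θ * s) with hQ
  have hsn : ∀ z : ℂ, ‖(s : ℂ) ^ (2 * k) * z‖ = s ^ (2 * k) * ‖z‖ := by
    intro z
    rw [norm_mul, norm_pow, Complex.norm_real, Real.norm_eq_abs, abs_of_pos hs0]
  rw [hsn] at h2 h3
  have hfac : (1 : ℝ) ≤ ((2 * k).factorial : ℝ) := by
    exact_mod_cast Nat.one_le_iff_ne_zero.2 (Nat.factorial_ne_zero _)
  have hθ : 0 ≤ θ ^ (2 * k) := by rw [pow_mul]; positivity
  have hfin : θ ^ (2 * k) / ((2 * k).factorial : ℝ) *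
      (s ^ (2 * k) * ‖mean (bx b n N) fun x => ((S x : ℝ) : ℂ) ^ (2 * k)‖) ≤
      θ ^ (2 * k) / ((2 * k).factorial : ℝ) * (s ^ (2 * k) * ‖μ (2 * k)‖) +
        |θ| ^ (2 * k) * Er κ n X (∑ v ∈ T, β v) N (2 * k) := by
    have e1 := mul_le_mul_of_nonneg_left h5 (show 0 ≤ θ ^ (2 * k) / ((2 * k).factorial : ℝ) *
      s ^ (2 * k) by positivity)
    have e2 : θ ^ (2 * k) / ((2 * k).factorial : ℝ) * s ^ (2 * k) ≤ |θ| ^ (2 * k) := by
      rw [pow_mul |θ|, sq_abs, ← pow_mul]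
      calc θ ^ (2 * k) / ((2 * k).factorial : ℝ) * s ^ (2 * k)
          ≤ θ ^ (2 * k) / ((2 * k).factorial : ℝ) * 1 :=
            mul_le_mul_of_nonneg_left (pow_le_one₀ hs0.le hs1) (by positivity)
        _ ≤ θ ^ (2 * k) := by
            rw [mul_one]
            exact div_le_self hθ hfac
    have e3 := mul_le_mul_of_nonneg_right e2 (hE0 (2 * k))
    calc _ = θ ^ (2 * k) / ((2 * k).factorial : ℝ) * s ^ (2 * k) *
          ‖mean (bx b n N) fun x => ((S x : ℝ) : ℂ) ^ (2 * k)‖ := by ring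
      _ ≤ θ ^ (2 * k) / ((2 * k).factorial : ℝ) * s ^ (2 * k) *
          (‖μ (2 * k)‖ + Er κ n X (∑ v ∈ T, β v) N (2 * k)) := e1
      _ = θ ^ (2 * k) / ((2 * k).factorial : ℝ) * (s ^ (2 * k) * ‖μ (2 * k)‖) +
          θ ^ (2 * k) / ((2 * k).factorial : ℝ) * s ^ (2 * k) *
            Er κ n X (∑ v ∈ T, β v) N (2 * k) := by ring
      _ ≤ _ := add_le_add le_rfl e3
  have htot : A - Q = (A - P) + (P - P') - (Q - P') := by ring
  rw [htot]
  refine (norm_sub_le _ _).trans ?_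
  refine (add_le_add (norm_add_le _ _) le_rfl).trans ?_
  rw [Finset.sum_range_succ]
  linarith

/-- the limit of the characteristic functions of the model -/
theorem char_tendsto (h : Loc ψ B C) (θ : ℝ) :
    Tendsto (fun N : ℕ => ∏ v ∈ PX K (XP N), cv ψ v (θ * (√(LL N))⁻¹)) atTop
      (𝓝 (cexp (-((θ ^ 2 / 2 : ℝ) : ℂ)))) := by
  set S : ℝ := ∑' v : HeightOneSpectrum (𝓞 K), (nm v : ℝ) ^ (-(3 / 2) : ℝ) with hSdef
  have ht : Tendsto (fun N : ℕ => θ * (√(LL N))⁻¹) atTop (𝓝 0) := by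
    have h1 : Tendsto (fun N : ℕ => (√(LL N))⁻¹) atTop (𝓝 0) :=
      tendsto_inv_atTop_zero.comp (Real.tendsto_sqrt_atTop.comp LL_tendsto)
    have h2 := h1.const_mul θ
    rwa [mul_zero] at h2
  -- the error
  have h1 : Tendsto (fun N : ℕ => (|θ * (√(LL N))⁻¹| ^ 3 * |B| ^ 3 +
      (θ * (√(LL N))⁻¹) ^ 4 * |B| ^ 4) * S) atTop (𝓝 0) := by
    have h2 : Continuous fun t : ℝ => (|t| ^ 3 * |B| ^ 3 + t ^ 4 * |B| ^ 4) * S := by fun_prop
    have h3 := (h2.tendsto 0).comp ht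
    have e : (|(0 : ℝ)| ^ 3 * |B| ^ 3 + 0 ^ 4 * |B| ^ 4) * S = 0 := by simp
    rw [e] at h3
    exact h3
  -- the main term
  have h2 : Tendsto (fun N : ℕ => (θ * (√(LL N))⁻¹) ^ 2 *
      (∑ v ∈ PX K (XP N), av v (fun q => ψ v q ^ 2)) / 2) atTop (𝓝 (θ ^ 2 / 2)) := by
    have h3 : Tendsto (fun N : ℕ => (∑ v ∈ PX K (XP N), av v (fun q => ψ v q ^ 2)) / LL N) atTop
        (𝓝 1) := by
      have h4 : Tendsto (fun N : ℕ => ((∑ v ∈ PX K (XP N), av v (fun q => ψ v q ^ 2)) -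
          MX K (XP N)) / LL N) atTop (𝓝 0) := by
        refine squeeze_zero_norm' (a := fun N => |C| * S / LL N) ?_
          (LL_tendsto.const_div_atTop _)
        filter_upwards [LL_tendsto.eventually (eventually_gt_atTop 0)] with N hN
        rw [Real.norm_eq_abs, abs_div, abs_of_pos hN]
        exact div_le_div_of_nonneg_right (var_near h _) hN.le
      have h5 := h4.add (ratio_XP K)
      rw [zero_add] at h5
      refine h5.congr fun N => ?_
      rw [← add_div]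
      congr 1
      ring
    have h6 := (h3.const_mul (θ ^ 2)).div_const 2
    rw [mul_one] at h6
    refine h6.congr' ?_
    filter_upwards [LL_tendsto.eventually (eventually_gt_atTop 0)] with N hN
    rw [mul_pow, inv_pow, Real.sq_sqrt hN.le]
    field_simp
  have h3 : Tendsto (fun N : ℕ => cexp (-(((θ * (√(LL N))⁻¹) ^ 2 *
      (∑ v ∈ PX K (XP N), av v (fun q => ψ v q ^ 2)) / 2 : ℝ) : ℂ))) atTop
      (𝓝 (cexp (-((θ ^ 2 / 2 : ℝ) : ℂ)))) := by
    have h4 : Continuous fun y : ℝ => cexp (-((y : ℝ) : ℂ)) := by fun_prop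
    exact (h4.tendsto _).comp h2
  have h4 := squeeze_zero_norm (fun N => char_near h (PX K (XP N)) (θ * (√(LL N))⁻¹)) h1
  have h5 := h4.add h3
  rw [zero_add] at h5
  exact h5.congr fun N => by ring

theorem beta_sum (h : Loc ψ B C) {X : ℝ} (hX : 1 ≤ X) :
    ∑ v ∈ PX K X, B / √(nm v : ℝ) ≤ |B| * (X * MX K X) := by
  unfold MX
  rw [Finset.mul_sum, Finset.mul_sum]
  refine Finset.sum_le_sum fun v hv => ?_
  have hB := h.B0 v
  have hs : (1 : ℝ) ≤ √(nm v : ℝ) := Real.one_le_sqrt.2 (nm1 v)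
  rw [abs_of_nonneg hB]
  have h1 : (1 : ℝ) ≤ X * (nm v : ℝ)⁻¹ := by
    rw [← div_eq_mul_inv, one_le_div (nm_pos v)]
    exact mem_PX.1 hv
  calc B / √(nm v : ℝ) ≤ B := div_le_self hB hs
    _ = B * 1 := (mul_one B).symm
    _ ≤ _ := mul_le_mul_of_nonneg_left h1 hB

/-- **The central limit theorem at the small scale.** -/
theorem box_small (h : Loc ψ B C) (θ : ℝ) :
    Tendsto (fun N : ℕ => mean (bx b n N) fun x =>
      cexp ((θ * ((√(LL N))⁻¹ * ∑ v ∈ PX K (XP N), ψ v (rho v n x)) : ℝ) * I)) atTop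
      (𝓝 (cexp (-((θ ^ 2 / 2 : ℝ) : ℂ)))) := by
  have hmain := char_tendsto h θ
  suffices hsuf : Tendsto (fun N : ℕ => (mean (bx b n N) fun x =>
      cexp ((θ * ((√(LL N))⁻¹ * ∑ v ∈ PX K (XP N), ψ v (rho v n x)) : ℝ) * I)) -
      ∏ v ∈ PX K (XP N), cv ψ v (θ * (√(LL N))⁻¹)) atTop (𝓝 0) by
    have := hsuf.add hmain
    rw [zero_add] at this
    exact this.congr fun N => by ring
  rw [Metric.tendsto_nhds]
  intro ε hε
  -- the constants
  set lam : ℝ := 2 * |θ| + 1 with hlam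
  have hlam0 : 0 < lam := by positivity
  set Γ : ℝ := Real.exp (2 * (lam ^ 2 * B ^ 2 * Real.exp (lam * |B|))) with hΓ
  have hΓ0 : 0 < Γ := Real.exp_pos _
  obtain ⟨k, hk⟩ : ∃ k : ℕ, 4 * Γ * (1 / 4 : ℝ) ^ k < ε / 2 := by
    have h1 : Tendsto (fun k : ℕ => 4 * Γ * (1 / 4 : ℝ) ^ k) atTop (𝓝 0) := by
      have := (tendsto_pow_atTop_nhds_zero_of_lt_one (show (0 : ℝ) ≤ 1 / 4 by norm_num)
        (by norm_num)).const_mul (4 * Γ)
      rwa [mul_zero] at this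
    exact (h1.eventually (gt_mem_nhds (by positivity))).exists
  have herr : Tendsto (fun N : ℕ => ∑ m ∈ range (2 * k + 1), |θ| ^ m *
      (2 * (n * Fintype.card κ) * |B| ^ m * (XP N ^ 2 * MX K (XP N)) ^ m / (2 * N + 1))) atTop
      (𝓝 0) := by
    have h1 : Tendsto (fun N : ℕ => ∑ m ∈ range (2 * k + 1), |θ| ^ m *
      (2 * (n * Fintype.card κ) * |B| ^ m * (XP N ^ 2 * MX K (XP N)) ^ m / (2 * N + 1))) atTop
      (𝓝 (∑ m ∈ range (2 * k + 1), |θ| ^ m * 0)) :=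
      tendsto_finsetSum _ fun m _ => (err_XP K m _).const_mul _
    simpa using h1
  filter_upwards [herr.eventually (gt_mem_nhds (half_pos hε)),
    LL_tendsto.eventually (eventually_ge_atTop 1), XP_tendsto.eventually (eventually_ge_atTop 1),
    (ratio_XP K).eventually (gt_mem_nhds (show (1 : ℝ) < 2 by norm_num))] with N h1 h2 h3 h4
  have hL0 : 0 < LL N := by linarith
  set s : ℝ := (√(LL N))⁻¹ with hs
  have hsq : (1 : ℝ) ≤ √(LL N) := Real.one_le_sqrt.2 h2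
  have hs0 : 0 < s := by rw [hs]; positivity
  have hs1 : s ≤ 1 := inv_le_one_of_one_le₀ hsq
  have hs2 : s ^ 2 * MX K (XP N) ≤ 2 := by
    rw [hs, inv_pow, Real.sq_sqrt hL0.le, ← div_eq_inv_mul]
    exact h4.le
  obtain ⟨μ, hμ, hle⟩ := cmp_four (b := b) (PX K (XP N)) h.bd h3
    (fun v hv => mem_PX.1 hv) θ hs0 hs1 k N
  rw [dist_zero_right]
  refine hle.trans_lt ?_
  -- the moments
  have e1 : ∑ m ∈ range (2 * k + 1), |θ| ^ m *
      Er κ n (XP N) (∑ v ∈ PX K (XP N), B / √(nm v : ℝ)) N m ≤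
      ∑ m ∈ range (2 * k + 1), |θ| ^ m *
      (2 * (n * Fintype.card κ) * |B| ^ m * (XP N ^ 2 * MX K (XP N)) ^ m / (2 * N + 1)) := by
    refine Finset.sum_le_sum fun m _ => mul_le_mul_of_nonneg_left ?_ (by positivity)
    unfold Er
    refine div_le_div_of_nonneg_right ?_ (by positivity)
    have e2 : 0 ≤ ∑ v ∈ PX K (XP N), B / √(nm v : ℝ) :=
      Finset.sum_nonneg fun v _ => div_nonneg (h.B0 v) (Real.sqrt_nonneg _)
    have e3 : (XP N) ^ m * (∑ v ∈ PX K (XP N), B / √(nm v : ℝ)) ^ m ≤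
        |B| ^ m * (XP N ^ 2 * MX K (XP N)) ^ m := by
      rw [← mul_pow, ← mul_pow]
      refine pow_le_pow_left₀ (mul_nonneg (by linarith) e2) ?_ m
      calc XP N * ∑ v ∈ PX K (XP N), B / √(nm v : ℝ) ≤ XP N * (|B| * (XP N * MX K (XP N))) :=
            mul_le_mul_of_nonneg_left (beta_sum h h3) (by linarith)
        _ = _ := by ring
    calc 2 * (n * Fintype.card κ : ℝ) * XP N ^ m * (∑ v ∈ PX K (XP N), B / √(nm v : ℝ)) ^ m
        = 2 * (n * Fintype.card κ : ℝ) *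
          (XP N ^ m * (∑ v ∈ PX K (XP N), B / √(nm v : ℝ)) ^ m) := by ring
      _ ≤ 2 * (n * Fintype.card κ : ℝ) * (|B| ^ m * (XP N ^ 2 * MX K (XP N)) ^ m) :=
          mul_le_mul_of_nonneg_left e3 (by positivity)
      _ = _ := by ring
  -- the last moment
  have e2 : θ ^ (2 * k) / ((2 * k).factorial : ℝ) * (s ^ (2 * k) * ‖μ‖) ≤
      2 * Γ * (1 / 4 : ℝ) ^ k := by
    have e3 := mom_le (b := b) (PX K (XP N)) (t := lam * s) (by positivity) k hμ
    have e4 : ∀ t : ℝ, |t| = lam * s → ∏ v ∈ PX K (XP N), ev ψ v t ≤ Γ := by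
      intro t ht
      refine (ev_le h _ t).trans (Real.exp_le_exp.2 ?_)
      rw [← sq_abs t, ht]
      have e5 : Real.exp (lam * s * |B|) ≤ Real.exp (lam * |B|) := by
        refine Real.exp_le_exp.2 (mul_le_mul_of_nonneg_right ?_ (abs_nonneg B))
        exact mul_le_of_le_one_right hlam0.le hs1
      calc (lam * s) ^ 2 * B ^ 2 * Real.exp (lam * s * |B|) * ∑ v ∈ PX K (XP N), (nm v : ℝ)⁻¹
          = (lam ^ 2 * B ^ 2 * Real.exp (lam * s * |B|)) * (s ^ 2 * MX K (XP N)) := by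
            unfold MX
            ring
        _ ≤ (lam ^ 2 * B ^ 2 * Real.exp (lam * |B|)) * 2 := by
            refine mul_le_mul ?_ hs2 (mul_nonneg (by positivity) (MX_nonneg K _)) (by positivity)
            exact mul_le_mul_of_nonneg_left e5 (by positivity)
        _ = _ := by ring
    have e5 := e4 (lam * s) (abs_of_pos (by positivity))
    have e6 := e4 (-(lam * s)) (by rw [abs_neg, abs_of_pos (by positivity)])
    have hf : (0 : ℝ) < ((2 * k).factorial : ℝ) := by exact_mod_cast Nat.factorial_pos _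
    have e7 : (lam * s) ^ (2 * k) * ‖μ‖ ≤ ((2 * k).factorial : ℝ) * (2 * Γ) := by
      refine e3.trans (mul_le_mul_of_nonneg_left ?_ hf.le)
      linarith
    have e8 : (θ / lam) ^ (2 * k) ≤ (1 / 4 : ℝ) ^ k := by
      rw [pow_mul]
      refine pow_le_pow_left₀ (sq_nonneg _) ?_ k
      rw [div_pow, div_le_iff₀ (by positivity), ← sq_abs θ, hlam]
      nlinarith [abs_nonneg θ]
    have e9 : 0 ≤ (θ / lam) ^ (2 * k) := by rw [pow_mul]; positivity
    calc θ ^ (2 * k) / ((2 * k).factorial : ℝ) * (s ^ (2 * k) * ‖μ‖)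
        = (θ / lam) ^ (2 * k) / ((2 * k).factorial : ℝ) * ((lam * s) ^ (2 * k) * ‖μ‖) := by
          rw [div_pow, mul_pow]
          field_simp
      _ ≤ (θ / lam) ^ (2 * k) / ((2 * k).factorial : ℝ) *
          (((2 * k).factorial : ℝ) * (2 * Γ)) :=
          mul_le_mul_of_nonneg_left e7 (div_nonneg e9 hf.le)
      _ = (θ / lam) ^ (2 * k) * (2 * Γ) := by field_simp
      _ ≤ (1 / 4 : ℝ) ^ k * (2 * Γ) := mul_le_mul_of_nonneg_right e8 (by positivity)
      _ = _ := by ring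
  linarith

end Pool.Agent.W5h26.CL
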